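import Mathlib
import Pool.Agent.H12.Defs

/-!
At most `2 X log X` triples satisfy the counting condition.
-/

namespace Pool.Agent.H24.QD

open Finset Classical
open Pool.Agent.H12

/-- pairs with product at most `X` -/
noncomputable def Pr (X : ℕ) : Finset (ℕ × ℕ) :=
  ((Icc 1 X) ×ˢ (Icc 1 X)).filter (fun u => u.1 * u.2 ≤ X)

lemma card_Pr_le (X : ℕ) (hX : 1 ≤ X) : ((Pr X).card : ℝ) ≤ X * (1 + Real.log X) := by
  have h1 : (Pr X).card ≤ ∑ d ∈ Icc 1 X, X / d := by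
    have e : Pr X ⊆ (Icc 1 X).biUnion (fun d => (Icc 1 (X/d)).image (fun m => (d, m))) := by
      intro u hu
      rw [Pr, mem_filter, mem_product, mem_Icc, mem_Icc] at hu
      rw [mem_biUnion]
      refine ⟨u.1, mem_Icc.mpr hu.1.1, ?_⟩
      rw [mem_image]
      refine ⟨u.2, mem_Icc.mpr ⟨hu.1.2.1, ?_⟩, rfl⟩
      rw [Nat.le_div_iff_mul_le (by omega)]
      rw [mul_comm]; exact hu.2
    refine (card_le_card e).trans (card_biUnion_le.trans ?_)
    refine sum_le_sum fun d _ => card_image_le.trans ?_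
    rw [Nat.card_Icc]; exact (Nat.add_sub_cancel _ _).le
  have h2 : ((∑ d ∈ Icc 1 X, X / d : ℕ) : ℝ) ≤ X * ∑ d ∈ Icc 1 X, (1:ℝ) / d := by
    push_cast
    rw [mul_sum]
    refine sum_le_sum fun d _ => ?_
    rw [mul_one_div]
    exact Nat.cast_div_le
  have h3 : ∑ d ∈ Icc 1 X, (1:ℝ) / d ≤ 1 + Real.log X := by
    have h := harmonic_le_one_add_log X
    have e : ((harmonic X : ℚ) : ℝ) = ∑ d ∈ Icc 1 X, (1:ℝ) / d := by
      rw [harmonic_eq_sum_Icc]
      push_cast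
      refine sum_congr rfl fun d _ => by rw [one_div]
    rw [← e]; exact h
  calc ((Pr X).card : ℝ) ≤ ((∑ d ∈ Icc 1 X, X / d : ℕ) : ℝ) := by exact_mod_cast h1
    _ ≤ X * ∑ d ∈ Icc 1 X, (1:ℝ) / d := h2
    _ ≤ X * (1 + Real.log X) := mul_le_mul_of_nonneg_left h3 (Nat.cast_nonneg _)

/-- the map `(v,k,l) ↦ (gcd(k,v-1), (v-1)/gcd(k,v-1))` -/
def fA (t : ℕ × ℕ × ℕ) : ℕ × ℕ := (Nat.gcd t.2.1 (t.1 - 1), (t.1 - 1) / Nat.gcd t.2.1 (t.1 - 1))

lemma fA_spec {X : ℕ} {t : ℕ × ℕ × ℕ} (ht : t ∈ admissibleTriples X) :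
    (fA t).1 * (fA t).2 = t.1 - 1 ∧ (fA t).1 ∣ t.2.1 ∧ (fA t).2 ∣ t.2.1 - 1 := by
  obtain ⟨v, k, l⟩ := t
  obtain ⟨hk, hl, hkv, hvX, heq⟩ := ht
  simp only at hk hl hkv hvX heq
  have hn : 0 < v - 1 := by omega
  have hg : 0 < Nat.gcd k (v-1) := Nat.gcd_pos_of_pos_left _ hk
  have h1 : Nat.gcd k (v-1) * ((v-1) / Nat.gcd k (v-1)) = v - 1 :=
    Nat.mul_div_cancel' (Nat.gcd_dvd_right _ _)
  refine ⟨h1, Nat.gcd_dvd_left _ _, ?_⟩
  simp only [fA]
  set d := Nat.gcd k (v-1) with hd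
  set m := (v-1)/d with hm
  obtain ⟨k', hk'⟩ : d ∣ k := Nat.gcd_dvd_left _ _
  have hcop : Nat.Coprime m k' := by
    have h := Nat.coprime_div_gcd_div_gcd (m := k) (n := v-1) hg
    rw [← hd, ← hm] at h
    have e : k / d = k' := by
      rw [hk']; exact Nat.mul_div_cancel_left _ hg
    rw [e] at h
    exact h.symm
  have h2 : m ∣ k' * (k - 1) := by
    have h3 : d * m ∣ d * (k' * (k - 1)) := by
      rw [h1]
      refine ⟨l, ?_⟩
      rw [mul_comm (v-1) l, heq]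
      conv_rhs => rw [hk']
      rw [hk']
      ring
    exact Nat.dvd_of_mul_dvd_mul_left hg h3
  exact hcop.dvd_of_dvd_mul_left h2

lemma fA_inj (X : ℕ) : Set.InjOn fA (admissibleTriples X) := by
  intro t ht t' ht' he
  have h1 := fA_spec ht
  have h2 := fA_spec ht'
  rw [← he] at h2
  obtain ⟨v, k, l⟩ := t
  obtain ⟨v', k', l'⟩ := t'
  obtain ⟨hk, hl, hkv, hvX, heq⟩ := ht
  obtain ⟨hk', hl', hkv', hvX', heq'⟩ := ht'
  simp only at hk hl hkv hvX heq hk' hl' hkv' hvX' heq' h1 h2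
  set d := (fA (v, k, l)).1 with hd
  set m := (fA (v, k, l)).2 with hm
  have hv : v = v' := by
    have := h1.1.symm.trans h2.1
    omega
  subst hv
  have hcop : Nat.Coprime d m := by
    have h3 : Nat.gcd d m ∣ k := (Nat.gcd_dvd_left _ _).trans h1.2.1
    have h4 : Nat.gcd d m ∣ k - 1 := (Nat.gcd_dvd_right _ _).trans h1.2.2
    have h5 : Nat.gcd d m ∣ 1 := by
      have := Nat.dvd_sub h3 h4
      rwa [show k - (k-1) = 1 by omega] at this
    exact Nat.dvd_one.mp h5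
  have hkk : k = k' := by
    have hdk : (d:ℤ) ∣ (k:ℤ) - k' :=
      dvd_sub (by exact_mod_cast h1.2.1) (by exact_mod_cast h2.2.1)
    have hmk : (m:ℤ) ∣ (k:ℤ) - k' := by
      have e1 : (m:ℤ) ∣ ((k - 1 : ℕ) : ℤ) := by exact_mod_cast h1.2.2
      have e2 : (m:ℤ) ∣ ((k' - 1 : ℕ) : ℤ) := by exact_mod_cast h2.2.2
      have e3 := dvd_sub e1 e2
      push_cast [Nat.cast_sub (show 1 ≤ k by omega), Nat.cast_sub (show 1 ≤ k' by omega)] at e3
      have e4 : (k:ℤ) - 1 - (k' - 1) = k - k' := by ring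
      rwa [e4] at e3
    have hprod : ((v - 1 : ℕ) : ℤ) ∣ (k:ℤ) - k' := by
      rw [← h1.1]
      push_cast
      exact IsCoprime.mul_dvd (Nat.isCoprime_iff_coprime.mpr hcop) hdk hmk
    have h0 : (k:ℤ) - k' = 0 := by
      apply Int.eq_zero_of_abs_lt_dvd hprod
      rw [abs_lt]
      constructor <;> omega
    omega
  subst hkk
  have hll : l = l' := by
    have h3 : l * (v - 1) = l' * (v - 1) := heq.trans heq'.symm
    exact Nat.eq_of_mul_eq_mul_right (by omega) h3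
  subst hll
  rfl

theorem adm_upper (X : ℕ) (hX : 3 ≤ X) :
    ((admissibleTriples X).ncard : ℝ) ≤ 2 * (X * Real.log X) := by
  have h1 : (admissibleTriples X).ncard ≤ (Pr X).card := by
    rw [← Set.ncard_coe_finset]
    refine Set.ncard_le_ncard_of_injOn fA ?_ (fA_inj X) (Finset.finite_toSet _)
    intro t ht
    have h := fA_spec ht
    obtain ⟨hk, hl, hkv, hvX, heq⟩ := ht
    have hpos : 0 < (fA t).1 * (fA t).2 := by rw [h.1]; omega
    have hd : 0 < (fA t).1 := Nat.pos_of_mul_pos_right hpos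
    have hm : 0 < (fA t).2 := Nat.pos_of_mul_pos_left hpos
    have hle : (fA t).1 * (fA t).2 ≤ X := by rw [h.1]; omega
    rw [mem_coe, Pr, mem_filter, mem_product, mem_Icc, mem_Icc]
    exact ⟨⟨⟨hd, (Nat.le_mul_of_pos_right _ hm).trans hle⟩,
      ⟨hm, (Nat.le_mul_of_pos_left _ hd).trans hle⟩⟩, hle⟩
  have h2 := card_Pr_le X (by omega)
  have h3 : (1:ℝ) ≤ Real.log X := by
    have hX3 : (3:ℝ) ≤ X := by exact_mod_cast hX
    rw [Real.le_log_iff_exp_le (by linarith)]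
    exact (Real.exp_one_lt_d9.le.trans (by norm_num)).trans hX3
  have h4 : ((admissibleTriples X).ncard : ℝ) ≤ (Pr X).card := by exact_mod_cast h1
  have hX0 : (0:ℝ) ≤ X := Nat.cast_nonneg _
  nlinarith [mul_le_mul_of_nonneg_left h3 hX0]

end Pool.Agent.H24.QD
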