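import Mathlib
import Pool.Agent.H24.KS.Df2
import Pool.Agent.H70.SymDes.Joint
import Pool.Agent.H70.SymDes.Rep

/-!
Definitions for the sharp counts of parameters of symmetric designs.

`v = a b + 1`, `b = a t + b0 a z`, `x = (a-z) t + xx0 a z`, `v = a^2 t + vv0 a z`; `Bad a e p z ..` is
helper12's bad event at `p`, `EvT T` the same together with `p ∣ b` for `p ∈ T` (helper70).
-/

namespace Pool.Agent.H24.QD

open Finset Classical
open Pool.Agent.H12 (Bad b0 xx0 vv0 beta)
open Pool.Agent.H70.SymDes (EvT betaT densT low)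
open Pool.Agent.H95.Gol
open Pool.Agent.H24.KS (W SW XD ja kk NSq)

/-- number of primes of `W 0 (K-10)` (odd primes up to `bb (K-10)`) dividing `n` -/
noncomputable def om (K n : ℕ) : ℕ := ((W 0 (K-10)).filter (fun p => p ∣ n)).card

/-- the discriminant attached to `(a,z)` -/
def dd (a z : ℕ) (e : ℤ) : ℤ := -(e * (((a - z : ℕ) : ℤ) * (z:ℤ)))

/-- the pairs `(z,t)` without bad events at the odd primes up to `bb M`, non-square case -/
noncomputable def GS (M X a : ℕ) (e : ℤ) : Finset (ℕ × ℕ) :=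
  ((range a) ×ˢ (range (X / a^2 + 1))).filter (fun u => Nat.Coprime u.1 a ∧
    ¬ IsSquare (dd a u.1 e) ∧ ∀ p ∈ W 0 M, ¬ Bad a e p u.1 (xx0 a u.1) (vv0 a u.1) u.2)

/-- the weighted number of these pairs -/
noncomputable def WS (θ : ℝ) (M K X a : ℕ) (e : ℤ) : ℝ :=
  ∑ u ∈ GS M X a e, θ ^ om K (a * (a * u.2 + b0 a u.1))

/-- the weight primes not dividing `a` -/
noncomputable def Ua (K a : ℕ) : Finset ℕ := (W 0 (K-10)).filter (fun p => ¬ p ∣ a)

/-- pairs of `GS` whose `b` is prime to `T` -/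
noncomputable def GT (M X a : ℕ) (e : ℤ) (T : Finset ℕ) : Finset (ℕ × ℕ) :=
  (GS M X a e).filter (fun u => ∀ p ∈ T, ¬ p ∣ a * u.2 + b0 a u.1)

/-- sum of the reciprocals of the prime factors -/
noncomputable def rp (a : ℕ) : ℝ := ∑ l ∈ a.primeFactors, (1:ℝ) / l

lemma rp_nonneg (a : ℕ) : 0 ≤ rp a := sum_nonneg fun _ _ => by positivity

/-- the exponent `log 2 - 1 - log (log 2) = 0.0597` -/
noncomputable def dl : ℝ := Real.log 2 - 1 - Real.log (Real.log 2)

end Pool.Agent.H24.QD
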