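import Mathlib
import Pool.Agent.H24.QD.Df
import Pool.Agent.H24.KS.Dens

/-!
Logarithmic averages of the multiplicative function `θ ^ om K a * exp (3 rp a)`.
-/

namespace Pool.Agent.H24.QD

open Finset Classical
open Pool.Agent.H12 (Bad b0 xx0 vv0 beta Rea Ta)
open Pool.Agent.H70.SymDes (EvT betaT densT low exceptionalOrders)
open Pool.Agent.H95.Gol
open Pool.Agent.H24.KS (W SW XD ja kk NSq)

/-- the local factor -/
noncomputable def gl (θ : ℝ) (K p : ℕ) : ℝ :=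
  (if p ∈ W 0 (K-10) then θ else 1) * Real.exp (3 * ((1:ℝ)/p))

/-- the multiplicative function -/
noncomputable def gm (θ : ℝ) (K a : ℕ) : ℝ := ∏ p ∈ a.primeFactors, gl θ K p

lemma gl_nonneg {θ : ℝ} (h0 : 0 ≤ θ) (K p : ℕ) : 0 ≤ gl θ K p := by
  unfold gl
  have := Real.exp_pos (3 * ((1:ℝ)/p))
  split_ifs
  · positivity
  · positivity

lemma gm_nonneg {θ : ℝ} (h0 : 0 ≤ θ) (K a : ℕ) : 0 ≤ gm θ K a :=
  prod_nonneg fun _ _ => gl_nonneg h0 _ _

lemma gm_eq (θ : ℝ) (K a : ℕ) (ha : a ≠ 0) :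
    θ ^ om K a * Real.exp (3 * rp a) = gm θ K a := by
  unfold gm gl rp om
  rw [prod_mul_distrib, mul_sum, Real.exp_sum]
  congr 1
  rw [← prod_const]
  have h1 : ∏ p ∈ a.primeFactors, (if p ∈ W 0 (K-10) then θ else 1) =
      ∏ p ∈ a.primeFactors.filter (fun p => p ∈ W 0 (K-10)), θ := by
    rw [prod_filter]
  rw [h1]
  refine prod_congr ?_ fun _ _ => rfl
  ext p
  rw [mem_filter, mem_filter, Nat.mem_primeFactors]
  constructor
  · rintro ⟨h2, h3⟩
    exact ⟨⟨Pool.Agent.H24.KS.prime_of_mem_W h2, h3, ha⟩, h2⟩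
  · rintro ⟨⟨h2, h3, h4⟩, h5⟩
    exact ⟨h5, h3⟩

lemma gm_mul (θ : ℝ) (K : ℕ) {m n : ℕ} (h : Nat.Coprime m n) :
    gm θ K (m * n) = gm θ K m * gm θ K n := by
  unfold gm
  rw [Nat.Coprime.primeFactors_mul h, prod_union (Nat.Coprime.disjoint_primeFactors h)]

lemma gm_pow (θ : ℝ) (K : ℕ) {p : ℕ} (hp : p.Prime) (n : ℕ) (hn : n ≠ 0) :
    gm θ K (p ^ n) = gl θ K p := by
  unfold gm
  rw [Nat.primeFactors_prime_pow hn hp, prod_singleton]

/-- Euler product bound -/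
lemma euler_bound {θ : ℝ} (h0 : 0 ≤ θ) (K N : ℕ) (A : Finset ℕ) (hA : ∀ a ∈ A, 1 ≤ a ∧ a < N) :
    ∑ a ∈ A, (1:ℝ)/a * gm θ K a ≤
      ∏ p ∈ N.primesBelow, (1 + gl θ K p * (1 / ((p:ℝ) - 1))) := by
  set f : ℕ → ℝ := fun a => (1:ℝ)/a * gm θ K a with hf
  have hf1 : f 1 = 1 := by simp [hf, gm]
  have hmul : ∀ {m n : ℕ}, Nat.Coprime m n → f (m * n) = f m * f n := by
    intro m n h
    simp only [hf]
    rw [gm_mul θ K h, Nat.cast_mul, ← one_div_mul_one_div]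
    ring
  have hf0 : ∀ a, 0 ≤ f a := fun a => mul_nonneg (by positivity) (gm_nonneg h0 K a)
  have hpn : ∀ {p : ℕ}, p.Prime → ∀ n : ℕ, f (p ^ (n+1)) = gl θ K p * ((1 / (p:ℝ)) * (1 / (p:ℝ))^n) := by
    intro p hp n
    simp only [hf]
    rw [gm_pow θ K hp (n+1) (by omega), ← pow_succ', one_div_pow, Nat.cast_pow]
    ring
  have hp1 : ∀ {p : ℕ}, p.Prime → (1 / (p:ℝ)) < 1 := by
    intro p hp
    have : (1:ℝ) < p := by exact_mod_cast hp.one_lt
    rw [div_lt_one (by linarith)]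
    exact this
  have hgeo : ∀ {p : ℕ}, p.Prime →
      HasSum (fun n : ℕ => f (p ^ (n+1))) (gl θ K p * (1 / ((p:ℝ) - 1))) := by
    intro p hp
    have h1 : (1:ℝ) < p := by exact_mod_cast hp.one_lt
    have h2 := hasSum_geometric_of_lt_one (show 0 ≤ 1 / (p:ℝ) by positivity) (hp1 hp)
    have h3 := (h2.mul_left (1 / (p:ℝ))).mul_left (gl θ K p)
    have h4 : (1 / (p:ℝ)) * (1 - 1 / (p:ℝ))⁻¹ = 1 / ((p:ℝ) - 1) := by
      have h5 : (p:ℝ) ≠ 0 := by linarith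
      have h6 : (p:ℝ) - 1 ≠ 0 := by linarith
      field_simp
    rw [h4] at h3
    refine h3.congr_fun ?_ |> id
    intro n
    exact (hpn hp n)
  have hgeo' : ∀ {p : ℕ}, p.Prime →
      HasSum (fun n : ℕ => f (p ^ n)) (1 + gl θ K p * (1 / ((p:ℝ) - 1))) := by
    intro p hp
    have h1 := (hasSum_nat_add_iff' (f := fun n : ℕ => f (p ^ n)) 1
      (g := 1 + gl θ K p * (1 / ((p:ℝ) - 1)))).mp
    apply h1
    rw [sum_range_one, pow_zero, hf1, add_sub_cancel_left]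
    exact hgeo hp
  have hsum : ∀ {p : ℕ}, p.Prime → Summable (fun n : ℕ => ‖f (p ^ n)‖) := by
    intro p hp
    have : (fun n : ℕ => ‖f (p ^ n)‖) = fun n : ℕ => f (p ^ n) := by
      funext n
      exact Real.norm_of_nonneg (hf0 _)
    rw [this]
    exact (hgeo' hp).summable
  obtain ⟨hs1, hs2⟩ := EulerProduct.summable_and_hasSum_smoothNumbers_prod_primesBelow_tsum
    hf1 hmul hsum N
  have h3 : ∏ p ∈ N.primesBelow, ∑' n : ℕ, f (p ^ n) =
      ∏ p ∈ N.primesBelow, (1 + gl θ K p * (1 / ((p:ℝ) - 1))) :=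
    prod_congr rfl fun p hp => (hgeo' (Nat.prime_of_mem_primesBelow hp)).tsum_eq
  rw [← h3]
  have hmem : ∀ a ∈ A, a ∈ N.smoothNumbers := by
    intro a ha
    obtain ⟨h4, h5⟩ := hA a ha
    rw [Nat.mem_smoothNumbers']
    intro p hp hpa
    exact lt_of_le_of_lt (Nat.le_of_dvd h4 hpa) h5
  have h4 : ∑ a ∈ A.attach, f (⟨a.1, hmem a.1 a.2⟩ : N.smoothNumbers) = ∑ a ∈ A, f a :=
    sum_attach A f
  rw [← h4]
  have hinj : Function.Injective (fun a : A => (⟨a.1, hmem a.1 a.2⟩ : N.smoothNumbers)) := by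
    intro a b hab
    have := congrArg (fun x : N.smoothNumbers => (x:ℕ)) hab
    exact Subtype.ext this
  have h5 : ∑ a ∈ A.attach, f (⟨a.1, hmem a.1 a.2⟩ : N.smoothNumbers) =
      ∑ b ∈ A.attach.image (fun a => (⟨a.1, hmem a.1 a.2⟩ : N.smoothNumbers)), f b := by
    rw [sum_image (fun a _ b _ hab => hinj hab)]
  rw [h5]
  exact sum_le_hasSum _ (fun b _ => hf0 _) hs2

lemma gl_le {θ : ℝ} (h0 : 0 ≤ θ) (h1 : θ ≤ 1) (K : ℕ) {p : ℕ} (hp : p.Prime) :
    gl θ K p * (1 / ((p:ℝ) - 1)) ≤ (if p ∈ W 0 (K-10) then θ else 1) * ((1:ℝ)/p) +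
      (6 * Real.exp 3 + 2) * ((p:ℝ)^2)⁻¹ := by
  have hp2 : (2:ℝ) ≤ p := by exact_mod_cast hp.two_le
  have hp0 : (0:ℝ) < p := by linarith
  have hp1 : (0:ℝ) < (p:ℝ) - 1 := by linarith
  unfold gl
  set c : ℝ := if p ∈ W 0 (K-10) then θ else 1 with hc
  have hc0 : 0 ≤ c := by rw [hc]; split_ifs <;> linarith
  have hc1 : c ≤ 1 := by rw [hc]; split_ifs <;> linarith
  set x : ℝ := 3 * ((1:ℝ)/p) with hx
  have hx0 : 0 ≤ x := by positivity
  have hx3 : x ≤ 3 := by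
    rw [hx]
    have : (1:ℝ)/p ≤ 1 := (div_le_one hp0).mpr (by linarith)
    linarith
  have e1 : Real.exp x ≤ 1 + x * Real.exp 3 := by
    have h3 : 1 - x ≤ Real.exp (-x) := by
      have := Real.add_one_le_exp (-x)
      linarith
    have h4 : Real.exp (-x) * Real.exp x = 1 := by
      rw [← Real.exp_add]; simp
    have h5 := mul_le_mul_of_nonneg_right h3 (Real.exp_pos x).le
    have h6 : Real.exp x ≤ Real.exp 3 := Real.exp_le_exp.mpr hx3
    have h7 : x * Real.exp x ≤ x * Real.exp 3 := mul_le_mul_of_nonneg_left h6 hx0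
    nlinarith
  have e2 : 1 / ((p:ℝ) - 1) ≤ 1 / p + 2 * ((p:ℝ)^2)⁻¹ := by
    have : 1 / (p:ℝ) + 2 * ((p:ℝ)^2)⁻¹ - 1 / ((p:ℝ) - 1) = (p - 2) / (p^2 * (p - 1)) := by
      field_simp
      ring
    have h2 : 0 ≤ ((p:ℝ) - 2) / (p^2 * (p - 1)) := by
      apply div_nonneg (by linarith)
      positivity
    linarith
  have e3 : x * (1 / ((p:ℝ) - 1)) ≤ 6 * ((p:ℝ)^2)⁻¹ := by
    rw [hx]
    have h2 : 1 / ((p:ℝ) - 1) ≤ 2 * (1 / p) := by
      rw [mul_one_div, div_le_div_iff₀ hp1 hp0]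
      linarith
    have h3 : 6 * ((p:ℝ)^2)⁻¹ = 3 * (1 / (p:ℝ)) * (2 * (1 / p)) := by
      field_simp
      norm_num
    rw [h3]
    exact mul_le_mul_of_nonneg_left h2 (by positivity)
  have h9 : 0 ≤ 1 / ((p:ℝ) - 1) := by positivity
  have e4 : Real.exp x * (1 / ((p:ℝ) - 1)) ≤ 1 / p + (6 * Real.exp 3 + 2) * ((p:ℝ)^2)⁻¹ := by
    have h2 := mul_le_mul_of_nonneg_right e1 h9
    have h3 := mul_le_mul_of_nonneg_right e3 (Real.exp_pos 3).le
    nlinarith
  have h10 : 0 ≤ (6 * Real.exp 3 + 2) * ((p:ℝ)^2)⁻¹ := by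
    have := Real.exp_pos 3
    positivity
  calc c * Real.exp x * (1 / ((p:ℝ) - 1)) = c * (Real.exp x * (1 / ((p:ℝ) - 1))) := by ring
    _ ≤ c * (1 / p + (6 * Real.exp 3 + 2) * ((p:ℝ)^2)⁻¹) := mul_le_mul_of_nonneg_left e4 hc0
    _ = c * (1 / p) + c * ((6 * Real.exp 3 + 2) * ((p:ℝ)^2)⁻¹) := by ring
    _ ≤ c * (1 / p) + (6 * Real.exp 3 + 2) * ((p:ℝ)^2)⁻¹ := by
        have := mul_le_mul_of_nonneg_right hc1 h10
        linarith

/-- weighted prime sum -/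
lemma prime_sum {θ : ℝ} (h0 : 0 ≤ θ) (h1 : θ ≤ 1) : ∃ C : ℝ, 0 < C ∧ ∀ K j : ℕ, j ≤ K + 6 →
    ∑ p ∈ (bb (j+1)).primesBelow, (if p ∈ W 0 (K-10) then θ else 1) * ((1:ℝ)/p) ≤
      θ * j * Real.log 2 + C := by
  obtain ⟨C1, hC1, hup⟩ := Pool.Agent.H24.KS.SW_upper
  have hlog : 0 < Real.log 2 := Real.log_pos (by norm_num)
  refine ⟨1 + 2 * C1 + 18 * Real.log 2, by positivity, ?_⟩
  intro K j hj
  set w : ℕ → ℝ := fun p => (if p ∈ W 0 (K-10) then θ else 1) * ((1:ℝ)/p) with hw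
  have hw0 : ∀ p, 0 ≤ w p := by
    intro p
    simp only [hw]
    apply mul_nonneg
    · split_ifs <;> linarith
    · positivity
  have hsub : (bb (j+1)).primesBelow ⊆ insert 2 (W 0 (j+1)) := by
    intro p hp
    have hpp := Nat.prime_of_mem_primesBelow hp
    have hlt := Nat.lt_of_mem_primesBelow hp
    rw [mem_insert]
    rcases eq_or_ne p 2 with h | h
    · exact Or.inl h
    · right
      rw [Pool.Agent.H24.KS.mem_W (by omega)]
      refine ⟨hpp, ?_, hlt.le⟩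
      have h2 := hpp.two_le
      have h3 : bb 0 = 2 := rfl
      omega
  have hstep1 : ∑ p ∈ (bb (j+1)).primesBelow, w p ≤ w 2 + ∑ p ∈ W 0 (j+1), w p := by
    refine (sum_le_sum_of_subset_of_nonneg hsub fun p _ _ => hw0 p).trans ?_
    by_cases h : 2 ∈ W 0 (j+1)
    · rw [insert_eq_of_mem h]
      have := hw0 2
      linarith
    · rw [sum_insert h]
  have hw2 : w 2 ≤ 1 := by
    simp only [hw]
    have : (if 2 ∈ W 0 (K-10) then θ else 1) ≤ 1 := by split_ifs <;> linarith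
    push_cast
    linarith
  have hWle : ∀ i : ℕ, i ≤ K - 10 → ∑ p ∈ W 0 i, w p ≤ θ * (i * Real.log 2 + C1) := by
    intro i hi
    have h2 : ∑ p ∈ W 0 i, w p = θ * SW 0 i := by
      unfold SW
      rw [mul_sum]
      refine sum_congr rfl fun p hp => ?_
      simp only [hw]
      rw [if_pos (Pool.Agent.H24.KS.W_mono (le_refl 0) hi hp)]
    rw [h2]
    have h3 := hup 0 i (Nat.zero_le _)
    rw [Nat.cast_zero, sub_zero] at h3
    exact mul_le_mul_of_nonneg_left h3 h0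
  have hmain : ∑ p ∈ W 0 (j+1), w p ≤ θ * j * Real.log 2 + 2 * C1 + 18 * Real.log 2 := by
    rcases le_total (j+1) (K-10) with h | h
    · have h2 := hWle (j+1) h
      push_cast at h2
      have h3 : θ * C1 ≤ C1 := by nlinarith
      have h4 : θ * Real.log 2 ≤ Real.log 2 := by nlinarith
      nlinarith
    · have h2 := hWle (K-10) (le_refl _)
      have h3 : ∑ p ∈ W 0 (j+1), w p ≤ ∑ p ∈ W 0 (K-10), w p + ∑ p ∈ W (K-10) (j+1), w p := by
        have hun : W 0 (j+1) ⊆ W 0 (K-10) ∪ W (K-10) (j+1) := by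
          intro p hp
          have e1 := Pool.Agent.H24.KS.prime_of_mem_W hp
          have e2 := Pool.Agent.H24.KS.lt_of_mem_W hp
          have e3 := Pool.Agent.H24.KS.le_of_mem_W hp
          rw [mem_union, Pool.Agent.H24.KS.mem_W (Nat.zero_le _), Pool.Agent.H24.KS.mem_W h]
          rcases le_or_gt p (bb (K-10)) with h5 | h5
          · exact Or.inl ⟨e1, e2, h5⟩
          · exact Or.inr ⟨e1, h5, e3⟩
        refine (sum_le_sum_of_subset_of_nonneg hun fun p _ _ => hw0 p).trans ?_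
        have := sum_union_inter (s₁ := W 0 (K-10)) (s₂ := W (K-10) (j+1)) (f := w)
        have h6 : 0 ≤ ∑ p ∈ W 0 (K-10) ∩ W (K-10) (j+1), w p := sum_nonneg fun p _ => hw0 p
        linarith
      have h4 : ∑ p ∈ W (K-10) (j+1), w p ≤ SW (K-10) (j+1) := by
        unfold SW
        refine sum_le_sum fun p _ => ?_
        simp only [hw]
        have h5 : (if p ∈ W 0 (K-10) then θ else 1) ≤ 1 := by split_ifs <;> linarith
        have h6 : (0:ℝ) ≤ 1 / p := by positivity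
        have := mul_le_mul_of_nonneg_right h5 h6
        linarith
      have h5 := hup (K-10) (j+1) h
      have h6 : (((j+1 : ℕ) : ℝ) - ((K-10 : ℕ) : ℝ)) ≤ 17 := by
        have : j + 1 ≤ (K - 10) + 17 := by omega
        have h7 : ((j+1 : ℕ) : ℝ) ≤ ((K-10 : ℕ) : ℝ) + 17 := by exact_mod_cast this
        linarith
      have h7 : ((K-10 : ℕ) : ℝ) ≤ j + 1 := by exact_mod_cast h
      have h8 : θ * C1 ≤ C1 := by nlinarith
      have h9 : θ * (((K-10 : ℕ) : ℝ) * Real.log 2) ≤ θ * ((j+1) * Real.log 2) := by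
        apply mul_le_mul_of_nonneg_left _ h0
        exact mul_le_mul_of_nonneg_right h7 hlog.le
      have h10 : θ * Real.log 2 ≤ Real.log 2 := by nlinarith
      have h11 := mul_le_mul_of_nonneg_right h6 hlog.le
      nlinarith
  linarith

theorem bsum (θ : ℝ) (h0 : 0 ≤ θ) (h1 : θ ≤ 1) : ∃ C : ℝ, 0 < C ∧ ∀ K j : ℕ, j ≤ K + 6 →
    ∑ a ∈ Ico (bb j) (bb (j+1)), (1:ℝ)/a * θ^(om K a) * Real.exp (3 * rp a) ≤
      C * Real.exp (θ * j * Real.log 2) := by
  obtain ⟨C1, hC1, hps⟩ := prime_sum h0 h1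
  set B : ℝ := 6 * Real.exp 3 + 2 with hB
  have hB0 : 0 ≤ B := by
    have := Real.exp_pos 3
    positivity
  refine ⟨Real.exp (C1 + B * 2), Real.exp_pos _, ?_⟩
  intro K j hj
  set N : ℕ := bb (j+1) with hN
  have hpos : ∀ a ∈ Ico (bb j) N, 1 ≤ a ∧ a < N := by
    intro a ha
    rw [mem_Ico] at ha
    have := two_le_bb j
    omega
  have e1 : ∑ a ∈ Ico (bb j) N, (1:ℝ)/a * θ^(om K a) * Real.exp (3 * rp a) =
      ∑ a ∈ Ico (bb j) N, (1:ℝ)/a * gm θ K a := by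
    refine sum_congr rfl fun a ha => ?_
    rw [← gm_eq θ K a (by have := (hpos a ha).1; omega)]
    ring
  rw [e1]
  refine (euler_bound h0 K N _ hpos).trans ?_
  have e2 : ∏ p ∈ N.primesBelow, (1 + gl θ K p * (1 / ((p:ℝ) - 1))) ≤
      ∏ p ∈ N.primesBelow, Real.exp ((if p ∈ W 0 (K-10) then θ else 1) * ((1:ℝ)/p) +
        B * ((p:ℝ)^2)⁻¹) := by
    refine prod_le_prod (fun p hp => ?_) fun p hp => ?_
    · have hpp := Nat.prime_of_mem_primesBelow hp
      have hp1 : (1:ℝ) < p := by exact_mod_cast hpp.one_lt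
      have h2 := gl_nonneg h0 K p
      have h3 : 0 ≤ 1 / ((p:ℝ) - 1) := by
        apply div_nonneg (by norm_num); linarith
      positivity
    · have hpp := Nat.prime_of_mem_primesBelow hp
      have h2 := gl_le h0 h1 K hpp
      have h3 := Real.add_one_le_exp ((if p ∈ W 0 (K-10) then θ else 1) * ((1:ℝ)/p) +
        B * ((p:ℝ)^2)⁻¹)
      linarith
  refine e2.trans ?_
  rw [← Real.exp_sum, ← Real.exp_add]
  apply Real.exp_le_exp.mpr
  rw [sum_add_distrib]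
  have e3 := hps K j hj
  have e4 : ∑ p ∈ N.primesBelow, B * ((p:ℝ)^2)⁻¹ ≤ B * 2 := by
    rw [← mul_sum]
    apply mul_le_mul_of_nonneg_left _ hB0
    calc ∑ p ∈ N.primesBelow, ((p:ℝ)^2)⁻¹ ≤ ∑ p ∈ Ioo 0 N, ((p:ℝ)^2)⁻¹ := by
          apply sum_le_sum_of_subset_of_nonneg
          · intro p hp
            rw [mem_Ioo]
            exact ⟨(Nat.prime_of_mem_primesBelow hp).pos, Nat.lt_of_mem_primesBelow hp⟩
          · intro p _ _
            positivity
      _ ≤ 2 / ((0:ℕ) + 1) := sum_Ioo_inv_sq_le 0 N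
      _ = 2 := by push_cast; ring
  linarith

end Pool.Agent.H24.QD
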