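import Mathlib
import Pool.Agent.H24.QD.Df
import Pool.Agent.H24.KS.Sq

/-!
QD project, module Q10: the `a` divisible by a large square.
-/

namespace Pool.Agent.H24.QD

open Finset Classical
open Pool.Agent.H12 (Bad b0 xx0 vv0 beta)
open Pool.Agent.H70.SymDes (EvT betaT densT low)
open Pool.Agent.H95.Gol
open Pool.Agent.H24.KS (W SW XD ja kk NSq)

/-- the `a` divisible by a large square contribute little -/
theorem nsqsum : ∃ C : ℝ, 0 < C ∧ ∀ K X : ℕ, 2000 ≤ K → bb (K+6) ≤ X → X < bb (K+7) →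
    ∑ a ∈ (Ico (bb K) (bb (K+6))).filter (fun a => ¬ NSq K a), ((X / a : ℕ) : ℝ) ≤
      C * X * Real.exp (-2 * K * Real.log 2) := by
  refine ⟨1, one_pos, ?_⟩
  intro K X _ _ _
  have hX0 : (0:ℝ) ≤ X := Nat.cast_nonneg _
  have h3 : ∑ a ∈ (Ico (bb K) (bb (K+6))).filter (fun a => ¬ NSq K a), ((X / a : ℕ) : ℝ) ≤
      (X:ℝ) * ∑ a ∈ (Ico (bb K) (bb (K+6))).filter (fun a => ∃ d, bb (kk K) < d ∧ d^2 ∣ a),
        (1:ℝ)/a := by
    rw [mul_sum]
    have hf : (Ico (bb K) (bb (K+6))).filter (fun a => ¬ NSq K a) =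
        (Ico (bb K) (bb (K+6))).filter (fun a => ∃ d, bb (kk K) < d ∧ d^2 ∣ a) := by
      apply filter_congr
      intro a _
      unfold NSq
      push Not
      rfl
    rw [hf]
    apply sum_le_sum
    intro a _
    have : ((X / a : ℕ) : ℝ) ≤ (X:ℝ) / a := Nat.cast_div_le
    calc ((X / a : ℕ) : ℝ) ≤ (X:ℝ) / a := this
      _ = (X:ℝ) * (1 / a) := by ring
  have h4 : ∑ a ∈ (Ico (bb K) (bb (K+6))).filter (fun a => ∃ d, bb (kk K) < d ∧ d^2 ∣ a),
      (1:ℝ)/a ≤ (2 / ((bb (kk K):ℝ) + 1)) * (1 + Real.log (bb (K+6))) := by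
    refine le_trans ?_ (KS.sum_large_sq (bb (K+6)) (bb (kk K)))
    apply sum_le_sum_of_subset_of_nonneg
    · apply filter_subset_filter
      apply Ico_subset_Ico_left
      exact bb_pos K
    · intro a _ _
      positivity
  have h5 : (2:ℝ)^(10*K+10) ≤ (bb (kk K) : ℝ) := by
    have : 2^(10*K+10) ≤ bb (kk K) := by
      unfold bb
      exact Nat.pow_le_pow_right (by norm_num) (KS.kk_pow K)
    exact_mod_cast this
  have h6 := KS.log_bb_le_two_pow (K+6)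
  have h7 : 0 ≤ Real.log (bb (K+6)) := Real.log_natCast_nonneg _
  have h8 : (0:ℝ) < 2^(10*K+10) := by positivity
  have h9 : (2 / ((bb (kk K):ℝ) + 1)) * (1 + Real.log (bb (K+6))) ≤
      (2 / 2^(10*K+10)) * (2^(K+7)) := by
    apply mul_le_mul
    · apply div_le_div_of_nonneg_left (by norm_num) h8
      linarith
    · have e1 : (2:ℝ)^(K+7) = 2 * 2^(K+6) := by rw [pow_succ]; ring
      have e2 : (1:ℝ) ≤ 2^(K+6) := one_le_pow₀ (by norm_num)
      rw [e1]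
      linarith
    · linarith
    · positivity
  have h10 : (2 / 2^(10*K+10)) * ((2:ℝ)^(K+7)) ≤ 1 / 2^(2*K) := by
    have e1 : (2:ℝ)^(10*K+10) = 2^(K+8) * (2^(2*K) * 2^(7*K+2)) := by
      rw [← pow_add, ← pow_add]
      congr 1
      ring
    have e2 : (1:ℝ) ≤ 2^(7*K+2) := one_le_pow₀ (by norm_num)
    have e3 : (2:ℝ)^(K+8) = 2 * 2^(K+7) := by
      rw [show K + 8 = (K+7) + 1 by ring, pow_succ]; ring
    have p1 : (0:ℝ) < 2^(K+7) := by positivity
    have p2 : (0:ℝ) < 2^(2*K) := by positivity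
    rw [e1, e3]
    have e4 : 2 / (2 * 2^(K+7) * (2^(2*K) * 2^(7*K+2))) * (2:ℝ)^(K+7) =
        1/(2^(2*K) * 2^(7*K+2)) := by
      field_simp
    rw [e4]
    apply one_div_le_one_div_of_le p2
    exact le_mul_of_one_le_right p2.le e2
  have h11 : Real.exp (-2 * K * Real.log 2) = 1 / 2^(2*K) := by
    rw [show (-2 * (K:ℝ) * Real.log 2) = -(((2*K : ℕ) : ℝ) * Real.log 2) by push_cast; ring,
      Real.exp_neg, mul_comm, Real.exp_mul, Real.exp_log (by norm_num), Real.rpow_natCast, one_div]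
  calc ∑ a ∈ (Ico (bb K) (bb (K+6))).filter (fun a => ¬ NSq K a), ((X / a : ℕ) : ℝ)
      ≤ (X:ℝ) * ∑ a ∈ (Ico (bb K) (bb (K+6))).filter
          (fun a => ∃ d, bb (kk K) < d ∧ d^2 ∣ a), (1:ℝ)/a := h3
    _ ≤ (X:ℝ) * (1 / 2^(2*K)) := mul_le_mul_of_nonneg_left (h4.trans (h9.trans h10)) hX0
    _ = 1 * X * Real.exp (-2 * K * Real.log 2) := by rw [h11]; ring

end Pool.Agent.H24.QD
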