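import Mathlib

/-!
Module Q9: the number of pairs `(a, z)` in the square case.
-/

namespace Pool.Agent.H24.QD

open Finset Classical

private lemma sqc_tele (m N : ℕ) (hm : 1 ≤ m) (h : m ≤ N + 1) :
    ∑ s ∈ Ico m (N + 1), (1 : ℝ) / (s : ℝ) ^ 3 ≤
      (1 / 2) * (1 / ((m : ℝ) - 1 / 2) ^ 2 - 1 / ((N : ℝ) + 1 / 2) ^ 2) := by
  induction N with
  | zero =>
    have : m = 1 := by omega
    subst this
    norm_num
  | succ n ih =>
    rcases Nat.lt_or_ge m (n + 2) with h1 | h1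
    · have h2 : m ≤ n + 1 := by omega
      rw [Finset.sum_Ico_succ_top (by omega : m ≤ n + 1)]
      have ih' := ih h2
      have hn : (0 : ℝ) ≤ n := Nat.cast_nonneg n
      have key : (1 : ℝ) / ((n + 1 : ℕ) : ℝ) ^ 3 ≤
          (1 / 2) * (1 / ((n : ℝ) + 1 / 2) ^ 2 - 1 / (((n + 1 : ℕ) : ℝ) + 1 / 2) ^ 2) := by
        push_cast
        have e : (1 / 2 : ℝ) * (1 / ((n : ℝ) + 1 / 2) ^ 2 - 1 / ((n : ℝ) + 1 + 1 / 2) ^ 2) =
            ((n : ℝ) + 1) / (((n : ℝ) + 1 / 2) ^ 2 * ((n : ℝ) + 1 + 1 / 2) ^ 2) := by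
          field_simp
          ring
        rw [e, div_le_div_iff₀ (by positivity) (by positivity)]
        have e2 : ((n : ℝ) + 1 / 2) * ((n : ℝ) + 1 + 1 / 2) ≤ ((n : ℝ) + 1) ^ 2 := by nlinarith
        have e3 : (((n : ℝ) + 1 / 2) * ((n : ℝ) + 1 + 1 / 2)) ^ 2 ≤ (((n : ℝ) + 1) ^ 2) ^ 2 :=
          pow_le_pow_left₀ (by positivity) e2 2
        calc 1 * (((n : ℝ) + 1 / 2) ^ 2 * ((n : ℝ) + 1 + 1 / 2) ^ 2)
            = (((n : ℝ) + 1 / 2) * ((n : ℝ) + 1 + 1 / 2)) ^ 2 := by ring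
          _ ≤ (((n : ℝ) + 1) ^ 2) ^ 2 := e3
          _ = ((n : ℝ) + 1) * ((n : ℝ) + 1) ^ 3 := by ring
      push_cast at key ih' ⊢
      linarith
    · have : m = n + 2 := by omega
      subst this
      simp only [Finset.Ico_self, Finset.sum_empty]
      push_cast
      have : ((n : ℝ) + 2 - 1 / 2) = (n : ℝ) + 1 + 1 / 2 := by ring
      rw [this]
      simp

private lemma sqc_sum1 (A N : ℕ) (hA : 1 ≤ A) :
    ∑ s ∈ (Icc 1 N).filter (fun s => A < 2 * s ^ 2), (1 : ℝ) / (s : ℝ) ^ 3 ≤ 4 / A := by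
  have hA' : (0 : ℝ) < A := by exact_mod_cast hA
  set m := Nat.sqrt (A / 2) + 1 with hm
  have hm1 : 1 ≤ m := by omega
  have hm2 : (A : ℝ) ≤ 2 * (m : ℝ) ^ 2 := by
    have h1 : A / 2 < m * m := Nat.sqrt_lt.mp (by omega)
    have h2 : A < 2 * m ^ 2 := by
      have : A < 2 * (m * m) := by omega
      rwa [sq]
    exact_mod_cast h2.le
  have hsub : (Icc 1 N).filter (fun s => A < 2 * s ^ 2) ⊆ Ico m (N + 1) := by
    intro s hs
    simp only [mem_filter, mem_Icc] at hs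
    rw [mem_Ico]
    refine ⟨?_, by omega⟩
    have h1 : A / 2 < s * s := by
      have := hs.2
      rw [sq] at this
      omega
    have := Nat.sqrt_lt.mpr h1
    omega
  have hbd : (1 / 2 : ℝ) * (1 / ((m : ℝ) - 1 / 2) ^ 2) ≤ 4 / A := by
    have hm1' : (1 : ℝ) ≤ m := by exact_mod_cast hm1
    have h3 : (m : ℝ) / 2 ≤ (m : ℝ) - 1 / 2 := by linarith
    have h4 : ((m : ℝ) / 2) ^ 2 ≤ ((m : ℝ) - 1 / 2) ^ 2 := pow_le_pow_left₀ (by positivity) h3 2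
    have h5 : (A : ℝ) / 8 ≤ ((m : ℝ) - 1 / 2) ^ 2 := by nlinarith
    have h6 : 1 / ((m : ℝ) - 1 / 2) ^ 2 ≤ 1 / ((A : ℝ) / 8) :=
      one_div_le_one_div_of_le (by positivity) h5
    calc (1 / 2 : ℝ) * (1 / ((m : ℝ) - 1 / 2) ^ 2) ≤ (1 / 2) * (1 / ((A : ℝ) / 8)) := by linarith
      _ = 4 / A := by field_simp; norm_num
  rcases Nat.lt_or_ge (N + 1) m with h | h
  · have : (Icc 1 N).filter (fun s => A < 2 * s ^ 2) = ∅ := by
      apply Finset.subset_empty.mp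
      refine hsub.trans ?_
      rw [Finset.Ico_eq_empty (by omega)]
    rw [this]
    simp only [Finset.sum_empty]
    positivity
  · calc ∑ s ∈ (Icc 1 N).filter (fun s => A < 2 * s ^ 2), (1 : ℝ) / (s : ℝ) ^ 3
        ≤ ∑ s ∈ Ico m (N + 1), (1 : ℝ) / (s : ℝ) ^ 3 :=
          Finset.sum_le_sum_of_subset_of_nonneg hsub (fun _ _ _ => by positivity)
      _ ≤ (1 / 2) * (1 / ((m : ℝ) - 1 / 2) ^ 2 - 1 / ((N : ℝ) + 1 / 2) ^ 2) := sqc_tele m N hm1 h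
      _ ≤ (1 / 2) * (1 / ((m : ℝ) - 1 / 2) ^ 2) := by
          have : (0 : ℝ) ≤ 1 / ((N : ℝ) + 1 / 2) ^ 2 := by positivity
          linarith
      _ ≤ 4 / A := hbd

private lemma sqc_pairs (A N : ℕ) (hA : 1 ≤ A) :
    ∑ p ∈ ((Icc 1 N) ×ˢ (Icc 1 N)).filter (fun p : ℕ × ℕ => A < p.1 ^ 2 + p.2 ^ 2),
      (1 : ℝ) / ((p.1 : ℝ) ^ 2 + (p.2 : ℝ) ^ 2) ^ 2 ≤ 8 / A := by
  have hhalf : ∀ (s : ℕ), s ∈ Icc 1 N → ∑ u ∈ Icc 1 s, (1 : ℝ) / ((s : ℝ) ^ 2) ^ 2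
      = 1 / (s : ℝ) ^ 3 := by
    intro s hs
    rw [mem_Icc] at hs
    have : (0 : ℝ) < s := by exact_mod_cast hs.1
    simp only [Finset.sum_const, Nat.card_Icc, add_tsub_cancel_right, nsmul_eq_mul]
    field_simp
  have hsplit : ((Icc 1 N) ×ˢ (Icc 1 N)).filter (fun p : ℕ × ℕ => A < p.1 ^ 2 + p.2 ^ 2) ⊆
      (((Icc 1 N).filter (fun s => A < 2 * s ^ 2)).sigma (fun s => Icc 1 s)).image
          (fun x : (Σ _ : ℕ, ℕ) => ((x.1, x.2) : ℕ × ℕ)) ∪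
      (((Icc 1 N).filter (fun s => A < 2 * s ^ 2)).sigma (fun s => Icc 1 s)).image
          (fun x : (Σ _ : ℕ, ℕ) => ((x.2, x.1) : ℕ × ℕ)) := by
    intro p hp
    simp only [mem_filter, mem_product, mem_Icc] at hp
    obtain ⟨⟨h1, h2⟩, h3⟩ := hp
    rw [mem_union]
    rcases le_total p.2 p.1 with h | h
    · left
      rw [mem_image]
      refine ⟨⟨p.1, p.2⟩, ?_, rfl⟩
      simp only [mem_sigma, mem_filter, mem_Icc]
      refine ⟨⟨h1, ?_⟩, h2.1, h⟩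
      have : p.2 ^ 2 ≤ p.1 ^ 2 := Nat.pow_le_pow_left h 2
      omega
    · right
      rw [mem_image]
      refine ⟨⟨p.2, p.1⟩, ?_, rfl⟩
      simp only [mem_sigma, mem_filter, mem_Icc]
      refine ⟨⟨h2, ?_⟩, h1.1, h⟩
      have : p.1 ^ 2 ≤ p.2 ^ 2 := Nat.pow_le_pow_left h 2
      omega
  have hone : ∀ f : (Σ _ : ℕ, ℕ) → ℕ × ℕ, (∀ x, f x = (x.1, x.2)) ∨ (∀ x, f x = (x.2, x.1)) →
      ∑ p ∈ (((Icc 1 N).filter (fun s => A < 2 * s ^ 2)).sigma (fun s => Icc 1 s)).image f,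
        (1 : ℝ) / ((p.1 : ℝ) ^ 2 + (p.2 : ℝ) ^ 2) ^ 2 ≤ 4 / A := by
    intro f hf
    have hinj : Set.InjOn f (((Icc 1 N).filter (fun s => A < 2 * s ^ 2)).sigma
        (fun s => Icc 1 s) : Finset (Σ _ : ℕ, ℕ)) := by
      rintro ⟨x1, x2⟩ _ ⟨y1, y2⟩ _ hxy
      rcases hf with hf | hf
      · rw [hf, hf] at hxy
        simp only [Prod.mk.injEq] at hxy
        obtain ⟨h1, h2⟩ := hxy
        subst h1; subst h2; rfl
      · rw [hf, hf] at hxy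
        simp only [Prod.mk.injEq] at hxy
        obtain ⟨h1, h2⟩ := hxy
        subst h1; subst h2; rfl
    rw [Finset.sum_image hinj]
    calc ∑ x ∈ ((Icc 1 N).filter (fun s => A < 2 * s ^ 2)).sigma (fun s => Icc 1 s),
          (1 : ℝ) / (((f x).1 : ℝ) ^ 2 + ((f x).2 : ℝ) ^ 2) ^ 2
        ≤ ∑ x ∈ ((Icc 1 N).filter (fun s => A < 2 * s ^ 2)).sigma (fun s => Icc 1 s),
          (1 : ℝ) / ((x.1 : ℝ) ^ 2) ^ 2 := by
          refine Finset.sum_le_sum (fun x hx => ?_)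
          simp only [mem_sigma, mem_filter, mem_Icc] at hx
          have h1 : (0 : ℝ) < x.1 := by exact_mod_cast hx.1.1.1
          have h2 : (x.1 : ℝ) ^ 2 ≤ ((f x).1 : ℝ) ^ 2 + ((f x).2 : ℝ) ^ 2 := by
            rcases hf with hf | hf
            · rw [hf]; simp only; nlinarith [sq_nonneg (x.2 : ℝ)]
            · rw [hf]; simp only; nlinarith [sq_nonneg (x.2 : ℝ)]
          refine one_div_le_one_div_of_le (by positivity) ?_
          exact pow_le_pow_left₀ (by positivity) h2 2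
      _ = ∑ s ∈ (Icc 1 N).filter (fun s => A < 2 * s ^ 2), ∑ u ∈ Icc 1 s,
          (1 : ℝ) / ((s : ℝ) ^ 2) ^ 2 := by
          rw [Finset.sum_sigma]
      _ = ∑ s ∈ (Icc 1 N).filter (fun s => A < 2 * s ^ 2), 1 / (s : ℝ) ^ 3 := by
          refine Finset.sum_congr rfl (fun s hs => hhalf s ?_)
          exact (mem_filter.mp hs).1
      _ ≤ 4 / A := sqc_sum1 A N hA
  set F : ℕ × ℕ → ℝ := fun p => (1 : ℝ) / ((p.1 : ℝ) ^ 2 + (p.2 : ℝ) ^ 2) ^ 2 with hF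
  have hF0 : ∀ p, 0 ≤ F p := fun p => by rw [hF]; positivity
  set T : Finset (Σ _ : ℕ, ℕ) := ((Icc 1 N).filter (fun s => A < 2 * s ^ 2)).sigma
    (fun s => Icc 1 s) with hT
  set f1 : (Σ _ : ℕ, ℕ) → ℕ × ℕ := fun x => (x.1, x.2) with hf1
  set f2 : (Σ _ : ℕ, ℕ) → ℕ × ℕ := fun x => (x.2, x.1) with hf2
  have a1 : ∑ p ∈ ((Icc 1 N) ×ˢ (Icc 1 N)).filter (fun p : ℕ × ℕ => A < p.1 ^ 2 + p.2 ^ 2), F p
      ≤ ∑ p ∈ T.image f1 ∪ T.image f2, F p :=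
    Finset.sum_le_sum_of_subset_of_nonneg hsplit (fun p _ _ => hF0 p)
  have a2 : ∑ p ∈ T.image f1 ∪ T.image f2, F p ≤ ∑ p ∈ T.image f1, F p + ∑ p ∈ T.image f2, F p := by
    rw [← Finset.sum_union_inter]
    exact le_add_of_nonneg_right (Finset.sum_nonneg (fun p _ => hF0 p))
  have a3 : ∑ p ∈ T.image f1, F p ≤ 4 / A := hone f1 (Or.inl fun _ => rfl)
  have a4 : ∑ p ∈ T.image f2, F p ≤ 4 / A := hone f2 (Or.inr fun _ => rfl)
  have a5 : (8 : ℝ) / A = 4 / A + 4 / A := by ring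
  rw [a5]
  linarith

/-- The square case: pairs `(a, z)` with `(a - z) z` a square. -/
theorem sqcount : ∃ C : ℝ, 0 < C ∧ ∀ A X : ℕ, 1 ≤ A → 1 ≤ X →
    ∑ a ∈ Ioc A (Nat.sqrt X), ∑ _z ∈ (range a).filter (fun z => 0 < z ∧
      IsSquare ((a - z) * z) ∧ Nat.Coprime z a), (((X / a^2 : ℕ) : ℝ) + 1) ≤ C * X / A := by
  refine ⟨16, by norm_num, fun A X hA hX => ?_⟩
  have hA' : (0 : ℝ) < A := by exact_mod_cast hA
  have hX' : (0 : ℝ) < X := by exact_mod_cast hX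
  set N := Nat.sqrt X with hN
  set S : Finset (Σ _ : ℕ, ℕ) := (Ioc A N).sigma (fun a => (range a).filter (fun z => 0 < z ∧
      IsSquare ((a - z) * z) ∧ Nat.Coprime z a)) with hS
  have hfac : ∀ x ∈ S, ∃ s u : ℕ, 1 ≤ s ∧ 1 ≤ u ∧ x.1 - x.2 = s ^ 2 ∧ x.2 = u ^ 2 ∧
      x.1 = s ^ 2 + u ^ 2 := by
    intro x hx
    simp only [hS, mem_sigma, mem_Ioc, mem_filter, mem_range] at hx
    obtain ⟨⟨hx1, hx2⟩, hx3, hx4, hx5, hx6⟩ := hx
    have hcop : Nat.Coprime (x.1 - x.2) x.2 := by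
      have h1 : Nat.Coprime x.2 (x.1 - x.2) := by
        rwa [Nat.coprime_sub_self_right hx3.le]
      exact h1.symm
    obtain ⟨w, hw⟩ := hx5
    have hw' : (x.1 - x.2) * x.2 = w ^ 2 := by rw [hw]; ring
    have hun : ∀ {m n : ℕ}, Nat.Coprime m n → IsUnit (GCDMonoid.gcd m n) := by
      intro m n h
      exact gcd_isUnit_iff_isRelPrime.mpr (Nat.coprime_iff_isRelPrime.mp h)
    obtain ⟨s, hs⟩ := exists_eq_pow_of_mul_eq_pow (hun hcop) hw'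
    have hcop' : Nat.Coprime x.2 (x.1 - x.2) := hcop.symm
    have hw'' : x.2 * (x.1 - x.2) = w ^ 2 := by rw [mul_comm]; exact hw'
    obtain ⟨u, hu⟩ := exists_eq_pow_of_mul_eq_pow (hun hcop') hw''
    refine ⟨s, u, ?_, ?_, hs, hu, by omega⟩
    · rcases Nat.eq_zero_or_pos s with h | h
      · rw [h] at hs; simp at hs; omega
      · exact h
    · rcases Nat.eq_zero_or_pos u with h | h
      · rw [h] at hu; simp at hu; omega
      · exact h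
  have hstep : ∑ a ∈ Ioc A N, ∑ _z ∈ (range a).filter (fun z => 0 < z ∧
      IsSquare ((a - z) * z) ∧ Nat.Coprime z a), (((X / a^2 : ℕ) : ℝ) + 1) =
      ∑ x ∈ S, (((X / x.1^2 : ℕ) : ℝ) + 1) := by
    rw [hS, Finset.sum_sigma]
  rw [hstep]
  have h1 : ∑ x ∈ S, (((X / x.1^2 : ℕ) : ℝ) + 1) ≤ ∑ x ∈ S, 2 * (X : ℝ) *
      (1 / (((Nat.sqrt (x.1 - x.2) : ℕ) : ℝ) ^ 2 + ((Nat.sqrt x.2 : ℕ) : ℝ) ^ 2) ^ 2) := by
    refine Finset.sum_le_sum (fun x hx => ?_)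
    obtain ⟨s, u, hs1, hu1, hs, hu, hx1⟩ := hfac x hx
    have e1 : Nat.sqrt (x.1 - x.2) = s := by rw [hs]; exact Nat.sqrt_eq' s
    have e2 : Nat.sqrt x.2 = u := by rw [hu]; exact Nat.sqrt_eq' u
    rw [e1, e2]
    have e3 : ((s : ℝ) ^ 2 + (u : ℝ) ^ 2) = (x.1 : ℝ) := by rw [hx1]; push_cast; ring
    rw [e3]
    have hx2 : x.1 ≤ N := by
      simp only [hS, mem_sigma, mem_Ioc] at hx
      exact hx.1.2
    have hxp : 0 < x.1 := by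
      simp only [hS, mem_sigma, mem_Ioc] at hx
      omega
    have hxr : (0 : ℝ) < x.1 := by exact_mod_cast hxp
    have h3 : x.1 ^ 2 ≤ X := by
      have := Nat.sqrt_le' X
      calc x.1 ^ 2 ≤ N ^ 2 := Nat.pow_le_pow_left hx2 2
        _ ≤ X := this
    have h4 : ((X / x.1 ^ 2 : ℕ) : ℝ) ≤ (X : ℝ) / (x.1 : ℝ) ^ 2 := by
      have := @Nat.cast_div_le ℝ _ _ _ X (x.1 ^ 2)
      push_cast at this
      exact this
    have h5 : (1 : ℝ) ≤ (X : ℝ) / (x.1 : ℝ) ^ 2 := by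
      rw [le_div_iff₀ (by positivity)]
      rw [one_mul]
      exact_mod_cast h3
    calc ((X / x.1 ^ 2 : ℕ) : ℝ) + 1 ≤ (X : ℝ) / (x.1 : ℝ) ^ 2 + (X : ℝ) / (x.1 : ℝ) ^ 2 :=
          add_le_add h4 h5
      _ = 2 * (X : ℝ) * (1 / (x.1 : ℝ) ^ 2) := by ring
  refine h1.trans ?_
  rw [← Finset.mul_sum]
  have hinj : Set.InjOn (fun x : (Σ _ : ℕ, ℕ) => ((Nat.sqrt (x.1 - x.2), Nat.sqrt x.2) : ℕ × ℕ))
      (S : Set (Σ _ : ℕ, ℕ)) := by
    rintro x hx y hy hxy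
    obtain ⟨s, u, hs1, hu1, hs, hu, hx1⟩ := hfac x hx
    obtain ⟨s', u', hs1', hu1', hs', hu', hy1⟩ := hfac y hy
    simp only [Prod.mk.injEq] at hxy
    rw [hs, hu, hs', hu'] at hxy
    rw [Nat.sqrt_eq', Nat.sqrt_eq', Nat.sqrt_eq', Nat.sqrt_eq'] at hxy
    obtain ⟨h1, h2⟩ := hxy
    subst h1; subst h2
    cases x; cases y
    simp only at hx1 hy1 hu hu'
    subst hx1; subst hy1; subst hu; subst hu'
    rfl
  have h2 : ∑ x ∈ S, (1 : ℝ) /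
      (((Nat.sqrt (x.1 - x.2) : ℕ) : ℝ) ^ 2 + ((Nat.sqrt x.2 : ℕ) : ℝ) ^ 2) ^ 2 ≤ 8 / A := by
    have := Finset.sum_image (f := fun p : ℕ × ℕ => (1 : ℝ) / ((p.1 : ℝ) ^ 2 + (p.2 : ℝ) ^ 2) ^ 2)
      hinj
    simp only at this
    rw [← this]
    refine le_trans (Finset.sum_le_sum_of_subset_of_nonneg ?_ (fun _ _ _ => by positivity))
      (sqc_pairs A N hA)
    intro p hp
    rw [mem_image] at hp
    obtain ⟨x, hx, rfl⟩ := hp
    obtain ⟨s, u, hs1, hu1, hs, hu, hx1⟩ := hfac x hx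
    simp only [mem_filter, mem_product, mem_Icc]
    rw [hs, hu, Nat.sqrt_eq', Nat.sqrt_eq']
    simp only [hS, mem_sigma, mem_Ioc] at hx
    have hx3 := hx.1
    have hs2 : s ≤ s ^ 2 := Nat.le_self_pow (by norm_num) s
    have hu2 : u ≤ u ^ 2 := Nat.le_self_pow (by norm_num) u
    refine ⟨⟨⟨hs1, ?_⟩, ⟨hu1, ?_⟩⟩, ?_⟩ <;> omega
  calc 2 * (X : ℝ) * ∑ x ∈ S, (1 : ℝ) /
      (((Nat.sqrt (x.1 - x.2) : ℕ) : ℝ) ^ 2 + ((Nat.sqrt x.2 : ℕ) : ℝ) ^ 2) ^ 2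
      ≤ 2 * (X : ℝ) * (8 / A) := by
        refine mul_le_mul_of_nonneg_left h2 (by positivity)
    _ = 16 * X / A := by ring

end Pool.Agent.H24.QD
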