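import Mathlib
import Pool.Agent.H24.QD.Df
import Pool.Agent.H24.KS.Rough

/-!
Expansion of the weight `θ ^ om K (a b)` over sets of primes, and the main sum over these sets.
-/

namespace Pool.Agent.H24.QD

open Finset Classical
open Pool.Agent.H12 (Bad b0 xx0 vv0 beta Rea Ta)
open Pool.Agent.H70.SymDes (EvT betaT densT low exceptionalOrders)
open Pool.Agent.H95.Gol
open Pool.Agent.H24.KS (W SW XD ja kk NSq)

/-- `om` of a product -/
lemma om_mul (K a b : ℕ) : om K (a * b) =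
    om K a + ((Ua K a).filter (fun p => p ∣ b)).card := by
  unfold om Ua
  rw [filter_filter, ← card_union_of_disjoint]
  · congr 1
    ext p
    rw [mem_union, mem_filter, mem_filter, mem_filter]
    constructor
    · rintro ⟨h1, h2⟩
      have hp := Pool.Agent.H24.KS.prime_of_mem_W h1
      by_cases h3 : p ∣ a
      · exact Or.inl ⟨h1, h3⟩
      · rcases (Nat.Prime.dvd_mul hp).mp h2 with h | h
        · exact absurd h h3
        · exact Or.inr ⟨h1, h3, h⟩
    · rintro (⟨h1, h2⟩ | ⟨h1, h2, h3⟩)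
      · exact ⟨h1, h2.mul_right b⟩
      · exact ⟨h1, h3.mul_left a⟩
  · rw [disjoint_left]
    intro p h1 h2
    rw [mem_filter] at h1 h2
    exact h2.2.1 h1.2

lemma pow_card_filter (θ : ℝ) (U : Finset ℕ) (b : ℕ) :
    θ ^ (U.filter (fun p => p ∣ b)).card =
      ∑ T ∈ U.powerset, (1 - θ)^T.card * θ^(U \ T).card *
        (if ∀ p ∈ T, ¬ p ∣ b then (1:ℝ) else 0) := by
  have h1 : θ ^ (U.filter (fun p => p ∣ b)).card =
      ∏ p ∈ U, ((if ¬ p ∣ b then (1 - θ) else 0) + θ) := by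
    rw [← prod_const, prod_filter]
    refine prod_congr rfl fun p _ => ?_
    by_cases h : p ∣ b
    · simp [h]
    · simp [h]
  rw [h1, prod_add]
  refine sum_congr rfl fun T _ => ?_
  rw [prod_const]
  by_cases h : ∀ p ∈ T, ¬ p ∣ b
  · rw [if_pos h, mul_one, ← prod_const (1 - θ)]
    congr 1
    exact prod_congr rfl fun p hp => if_pos (h p hp)
  · rw [if_neg h, mul_zero]
    push Not at h
    obtain ⟨p, hp, hpb⟩ := h
    rw [prod_eq_zero hp (by rw [if_neg (not_not.mpr hpb)]), zero_mul]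

theorem WS_eq (θ : ℝ) (M K X a : ℕ) (e : ℤ) : WS θ M K X a e = θ ^ om K a *
    ∑ T ∈ (Ua K a).powerset, (1 - θ)^T.card * θ^(Ua K a \ T).card * ((GT M X a e T).card : ℝ) := by
  unfold WS
  have h1 : ∀ u ∈ GS M X a e, θ ^ om K (a * (a * u.2 + b0 a u.1)) =
      θ ^ om K a * ∑ T ∈ (Ua K a).powerset, (1 - θ)^T.card * θ^(Ua K a \ T).card *
        (if ∀ p ∈ T, ¬ p ∣ a * u.2 + b0 a u.1 then (1:ℝ) else 0) := by
    intro u _
    rw [om_mul, pow_add, pow_card_filter]
  rw [sum_congr rfl h1, ← mul_sum, sum_comm]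
  congr 1
  refine sum_congr rfl fun T _ => ?_
  rw [← mul_sum]
  congr 1
  unfold GT
  rw [card_filter]
  push_cast
  rfl

lemma exp_neg_le_quad (x : ℝ) (hx : 0 ≤ x) : Real.exp (-x) ≤ 1 - x + x^2 := by
  rcases le_or_gt x 1 with h | h
  · have h1 := Real.abs_exp_sub_one_sub_id_le (show |(-x)| ≤ 1 by rw [abs_neg, abs_of_nonneg hx]; exact h)
    have h2 := (abs_le.mp h1).2
    nlinarith
  · have h1 : Real.exp (-x) ≤ 1 := Real.exp_le_one_iff.mpr (by linarith)
    nlinarith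

theorem wexp (θ : ℝ) (h0 : 0 ≤ θ) (h1 : θ ≤ 1) : ∃ C : ℝ, 0 < C ∧ ∀ K a : ℕ, 0 < a →
    ∑ T ∈ (Ua K a).powerset, (1 - θ)^T.card * θ^(Ua K a \ T).card *
      Real.exp (- ∑ p ∈ T, (1:ℝ)/p) ≤ C * Real.exp (-(1 - θ) * K * Real.log 2 + rp a) := by
  obtain ⟨C1, hC1, hSW⟩ := Pool.Agent.H24.KS.SW_zero_lower
  refine ⟨Real.exp (10 * Real.log 2 + C1 + 2), Real.exp_pos _, ?_⟩
  intro K a ha
  set U : Finset ℕ := Ua K a with hU
  have hUp : ∀ p ∈ U, p.Prime := by
    intro p hp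
    rw [hU] at hp
    unfold Ua at hp
    rw [mem_filter] at hp
    exact Pool.Agent.H24.KS.prime_of_mem_W hp.1
  have e1 : ∑ T ∈ U.powerset, (1 - θ)^T.card * θ^(U \ T).card *
      Real.exp (- ∑ p ∈ T, (1:ℝ)/p) = ∏ p ∈ U, ((1 - θ) * Real.exp (-((1:ℝ)/p)) + θ) := by
    rw [prod_add]
    refine sum_congr rfl fun T _ => ?_
    rw [prod_mul_distrib, prod_const, prod_const, ← Real.exp_sum, sum_neg_distrib]
    ring
  have e2 : ∏ p ∈ U, ((1 - θ) * Real.exp (-((1:ℝ)/p)) + θ) ≤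
      ∏ p ∈ U, Real.exp (-(1 - θ) * ((1:ℝ)/p) + ((1:ℝ)/p)^2) := by
    refine prod_le_prod (fun p _ => ?_) fun p _ => ?_
    · have := Real.exp_pos (-((1:ℝ)/p))
      have h2 : 0 ≤ 1 - θ := by linarith
      positivity
    · set x : ℝ := (1:ℝ)/p with hx
      have hx0 : 0 ≤ x := by positivity
      have h2 := exp_neg_le_quad x hx0
      have h3 : 0 ≤ 1 - θ := by linarith
      have h4 := mul_le_mul_of_nonneg_left h2 h3
      have h5 := Real.add_one_le_exp (-(1 - θ) * x + x^2)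
      have h6 : (1 - θ) * x^2 ≤ x^2 := by
        have : (1 - θ) ≤ 1 := by linarith
        nlinarith [sq_nonneg x]
      nlinarith
  rw [e1]
  refine e2.trans ?_
  rw [← Real.exp_sum, sum_add_distrib, ← mul_sum, ← Real.exp_add]
  apply Real.exp_le_exp.mpr
  have e3 : ∑ p ∈ U, ((1:ℝ)/p)^2 ≤ 2 := by
    set N : ℕ := bb (K - 10) + 1 with hN
    calc ∑ p ∈ U, ((1:ℝ)/p)^2 = ∑ p ∈ U, ((p:ℝ)^2)⁻¹ := by
          refine sum_congr rfl fun p _ => ?_
          rw [one_div, inv_pow]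
      _ ≤ ∑ p ∈ Ioo 0 N, ((p:ℝ)^2)⁻¹ := by
          apply sum_le_sum_of_subset_of_nonneg
          · intro p hp
            have h2 := (hUp p hp).pos
            rw [hU] at hp
            unfold Ua at hp
            rw [mem_filter] at hp
            have h3 := Pool.Agent.H24.KS.le_of_mem_W hp.1
            rw [mem_Ioo]
            omega
          · intro p _ _
            positivity
      _ ≤ 2 / ((0:ℕ) + 1) := sum_Ioo_inv_sq_le 0 N
      _ = 2 := by push_cast; ring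
  have e4 : SW 0 (K-10) - rp a ≤ ∑ p ∈ U, (1:ℝ)/p := by
    have h2 : SW 0 (K-10) = ∑ p ∈ (W 0 (K-10)).filter (fun p => p ∣ a), (1:ℝ)/p +
        ∑ p ∈ U, (1:ℝ)/p := by
      rw [hU]
      unfold SW Ua
      exact (sum_filter_add_sum_filter_not _ _ _).symm
    have h3 : ∑ p ∈ (W 0 (K-10)).filter (fun p => p ∣ a), (1:ℝ)/p ≤ rp a := by
      unfold rp
      apply sum_le_sum_of_subset_of_nonneg
      · intro p hp
        rw [mem_filter] at hp
        rw [Nat.mem_primeFactors]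
        exact ⟨Pool.Agent.H24.KS.prime_of_mem_W hp.1, hp.2, by omega⟩
      · intro p _ _
        positivity
    linarith
  have e5 := hSW (K-10)
  have e6 : ((K:ℝ) - 10) ≤ ((K - 10 : ℕ) : ℝ) := by
    have : K ≤ (K - 10) + 10 := by omega
    have h : (K:ℝ) ≤ ((K - 10 : ℕ) : ℝ) + 10 := by exact_mod_cast this
    linarith
  have hlog : 0 < Real.log 2 := Real.log_pos (by norm_num)
  have e7 : (K:ℝ) * Real.log 2 - 10 * Real.log 2 - C1 - rp a ≤ ∑ p ∈ U, (1:ℝ)/p := by
    nlinarith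
  have h3 : 0 ≤ 1 - θ := by linarith
  have h4 : 1 - θ ≤ 1 := by linarith
  have e8 := mul_le_mul_of_nonneg_left e7 h3
  have hrp := rp_nonneg a
  have e9 : (1 - θ) * (10 * Real.log 2 + C1 + rp a) ≤ 10 * Real.log 2 + C1 + rp a := by
    have : 0 ≤ 10 * Real.log 2 + C1 + rp a := by positivity
    nlinarith
  nlinarith

end Pool.Agent.H24.QD
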