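import Mathlib
import Pool.Agent.H24.QD.Df
import Pool.Agent.H24.KS.Sieve2
import Pool.Agent.H24.KS.Dens
import Pool.Agent.H24.KS.Lgen

/-!
Q4: zone L for fixed `a` and `T`, by the two-dimensional sieve on the modular hyperbola.
-/

namespace Pool.Agent.H24.QD

open Finset Classical
open Pool.Agent.H12 (Bad b0 xx0 vv0 beta mod_facts card_affine b0_eq)
open Pool.Agent.H70.SymDes (EvT betaT densT low sum_EvT densT_bounds)
open Pool.Agent.H95.Gol
open Pool.Agent.H24.KS (W SW XD ja kk NSq)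

/-- the event at `p` in terms of `(b,z)` -/
def EvB (T : Finset ℕ) (a : ℕ) (e : ℤ) (p b z : ℕ) : Prop :=
  ((p ∣ z ∧ ¬ p^2 ∣ z) ∧ ¬ IsSquare ((e : ZMod p) * ((a:ZMod p) * b + 1))) ∨
  (¬ IsSquare (-(e : ZMod p) * ((a:ZMod p) - z) * z) ∧
    ((p:ℤ) ∣ (b:ℤ) * (a - z) + 1 ∧ ¬ ((p^2 : ℕ):ℤ) ∣ (b:ℤ) * (a - z) + 1)) ∨
  (p ∈ T ∧ ¬ p ∣ z ∧ p ∣ b)

lemma EvB_mod (T : Finset ℕ) (a : ℕ) (e : ℤ) (p b z : ℕ) :
    EvB T a e p b z ↔ EvB T a e p (b % p^2) (z % p^2) := by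
  obtain ⟨h1, h2, h3⟩ := mod_facts p z
  obtain ⟨g1, g2, g3⟩ := mod_facts p b
  have e1 := KS.lg_lin (a := a) (show p ∣ p^2 from Dvd.intro_left p (by ring)) b z
  have e2 := KS.lg_lin (a := a) (show p^2 ∣ p^2 from dvd_rfl) b z
  unfold EvB
  rw [e1, e2, h1, h2, h3, g1, g3]

lemma EvB_iff (T : Finset ℕ) (a : ℕ) (e : ℤ) (p z c x0 t : ℕ) (hp : p.Prime) (hpa : ¬ p ∣ a)
    (hz : z < a) (hx : (a:ℤ) * x0 ≡ (c:ℤ) * (a - z) + 1 [ZMOD ((p^2 : ℕ):ℤ)]) :
    EvB T a e p (a * t + c) z ↔ EvT T a e p z x0 (a * c + 1) c t := by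
  have hmod : ((a * t + c : ℕ):ℤ) * (a - z) + 1 ≡ ((a * ((a - z) * t + x0) : ℕ) : ℤ)
      [ZMOD ((p^2 : ℕ):ℤ)] := by
    have e1 : ((a * ((a - z) * t + x0) : ℕ) : ℤ) = a * x0 + a * (a - z) * t := by
      push_cast [Nat.cast_sub hz.le]; ring
    have e2 : ((a * t + c : ℕ):ℤ) * (a - z) + 1 = ((c:ℤ) * (a - z) + 1) + a * (a - z) * t := by
      push_cast; ring
    rw [e1, e2]
    exact (hx.symm).add_right _
  have key : ∀ m : ℕ, (m = p ∨ m = p^2) →
      ((m:ℤ) ∣ ((a * t + c : ℕ):ℤ) * (a - z) + 1 ↔ m ∣ (a - z) * t + x0) := by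
    intro m hm
    have hmd : m ∣ p^2 := by
      rcases hm with rfl | rfl
      · exact Dvd.intro_left m (by ring)
      · exact dvd_rfl
    have h1 := hmod.of_dvd (show (m:ℤ) ∣ ((p^2 : ℕ):ℤ) by exact_mod_cast hmd)
    rw [KS.lg_dvd_iff h1, Int.natCast_dvd_natCast]
    have hc : Nat.Coprime m a := by
      have h2 : Nat.Coprime p a := (Nat.Prime.coprime_iff_not_dvd hp).mpr hpa
      rcases hm with rfl | rfl
      · exact h2
      · exact h2.pow_left 2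
    exact ⟨fun h => hc.dvd_of_dvd_mul_left h, fun h => h.mul_left a⟩
  have k1 := key p (Or.inl rfl)
  have k2 := key (p^2) (Or.inr rfl)
  have k3 : (a:ZMod p) * ((a * t + c : ℕ) : ZMod p) + 1 =
      (a:ZMod p)^2 * t + ((a * c + 1 : ℕ) : ZMod p) := by push_cast; ring
  unfold EvB EvT Bad
  rw [k1, k2, k3]
  tauto

lemma exists_inv (a m : ℕ) (hm : 0 < m) (h : Nat.Coprime a m) : ∃ x : ℕ, a * x ≡ 1 [MOD m] := by
  have : NeZero m := ⟨hm.ne'⟩
  refine ⟨((a : ZMod m)⁻¹).val, ?_⟩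
  rw [← ZMod.natCast_eq_natCast_iff]
  push_cast
  rw [ZMod.natCast_zmod_val]
  exact ZMod.coe_mul_inv_eq_one a h

/-- number of pairs modulo `p^2` with the event -/
lemma card_EvB (T : Finset ℕ) (a : ℕ) (e : ℤ) (he : e = 1 ∨ e = -1) (p : ℕ) (hp : p.Prime)
    (hpa : ¬ p ∣ a) (hpz : p^2 ≤ a) :
    ((((range (p^2)) ×ˢ (range (p^2))).filter (fun t => EvB T a e p t.1 t.2)).card : ℝ) =
      ∑ z ∈ range (p^2), betaT T a e p z := by
  have hp2 : 0 < p^2 := pow_pos hp.pos 2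
  have hcop : Nat.Coprime a (p^2) :=
    (Nat.Coprime.pow_left 2 ((Nat.Prime.coprime_iff_not_dvd hp).mpr hpa)).symm
  obtain ⟨x0, hx0⟩ := exists_inv a (p^2) hp2 hcop
  have hx0' : (a:ℤ) * x0 ≡ 1 [ZMOD ((p^2 : ℕ):ℤ)] := by
    have := (Int.natCast_modEq_iff).mpr hx0
    push_cast at this ⊢
    exact this
  have h1 : ((((range (p^2)) ×ˢ (range (p^2))).filter (fun t => EvB T a e p t.1 t.2)).card : ℝ) =
      ∑ z ∈ range (p^2), (((range (p^2)).filter (fun b => EvB T a e p b z)).card : ℝ) := by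
    rw [← sum_boole (R := ℝ), sum_product_right]
    refine sum_congr rfl fun z _ => ?_
    rw [← sum_boole (R := ℝ)]
  rw [h1]
  refine sum_congr rfl fun z hz => ?_
  rw [mem_range] at hz
  have hza : z < a := by omega
  have h2 := card_affine (p^2) a 0 hp2 hcop (fun b => EvB T a e p b z)
  have h3 : (range (p^2)).filter (fun t => EvB T a e p ((a * t + 0) % p^2) z) =
      (range (p^2)).filter (fun t => EvT T a e p z x0 (a * 0 + 1) 0 t) := by
    refine filter_congr fun t _ => ?_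
    rw [← EvB_iff T a e p z 0 x0 t hp hpa hza (by simpa using hx0'),
      EvB_mod T a e p (a * t + 0) z, EvB_mod T a e p ((a * t + 0) % p^2) z, Nat.mod_mod]
  have h4 := sum_EvT T a e he p z x0 (a * 0 + 1) 0 hp hza (fun _ t ht => by
    obtain ⟨g1, g2⟩ := ht
    rw [add_zero] at g2
    have g3 : p ∣ t := ((Nat.Prime.dvd_mul hp).mp g2).resolve_left hpa
    have g4 : p ∣ x0 := (Nat.dvd_add_right (g3.mul_left _)).mp g1
    have g5 : a * x0 ≡ 1 [MOD p] := hx0.of_dvd (Dvd.intro_left p (by ring))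
    have g6 : p ∣ 1 := (g5.dvd_iff dvd_rfl).mp (g4.mul_left a)
    exact hp.one_lt.ne' (Nat.dvd_one.mp g6))
  rw [← h4, ← h2, sum_boole]
  congr 1
  convert congrArg card h3

lemma b0_spec {a z : ℕ} (ha : 0 < a) (h : Nat.Coprime z a) :
    b0 a z < a ∧ (b0 a z * z) % a = 1 % a := by
  obtain ⟨c, hc⟩ := exists_inv z a ha h
  rw [mul_comm] at hc
  have h1 := b0_eq ha hc
  rw [← h1]
  refine ⟨Nat.mod_lt _ ha, ?_⟩
  have : c % a * z ≡ c * z [MOD a] := (Nat.mod_modEq c a).mul_right z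
  exact this.trans hc

/-- `a xx0 = b0 (a-z) + 1` -/
lemma xx0_spec {a z : ℕ} (ha : 0 < a) (hz : z < a) (h : Nat.Coprime z a) :
    a * xx0 a z = b0 a z * (a - z) + 1 := by
  obtain ⟨_, h2⟩ := b0_spec ha h
  unfold xx0
  apply Nat.mul_div_cancel'
  have h3 : b0 a z * (a - z) + 1 + b0 a z * z ≡ 0 + 1 [MOD a] := by
    have e1 : b0 a z * (a - z) + 1 + b0 a z * z = b0 a z * a + 1 := by
      have : b0 a z * (a - z) + b0 a z * z = b0 a z * a := by
        rw [← mul_add, Nat.sub_add_cancel hz.le]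
      omega
    rw [e1]
    exact Nat.ModEq.add_right 1 (by simp [Nat.ModEq])
  have h4 : b0 a z * z ≡ 1 [MOD a] := h2
  have h5 : b0 a z * (a - z) + 1 + 1 ≡ 0 + 1 [MOD a] := (h4.add_left _).symm.trans h3
  have h6 : b0 a z * (a - z) + 1 ≡ 0 [MOD a] := Nat.ModEq.add_right_cancel' 1 h5
  exact (Nat.modEq_zero_iff_dvd).mp h6

/-- the pairs `(z,t)` inject into the sifted set -/
lemma card_GT_le (M X a : ℕ) (e : ℤ) (T : Finset ℕ) (ha : 0 < a) (P : Finset ℕ)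
    (hP : ∀ p ∈ P, p ∈ W 0 M ∧ ¬ p ∣ a) :
    (GT M X a e T).card ≤
      (((range (X / a + a)) ×ˢ (range a)).filter (fun t => (t.1 * t.2) % a = 1 % a ∧
        (∀ q ∈ (∅ : Finset ℕ), (fun _ _ _ : ℕ => True) q t.1 t.2) ∧
          ∀ p ∈ P, ¬ EvB T a e p t.1 t.2)).card := by
  refine card_le_card_of_injOn (fun u => (a * u.2 + b0 a u.1, u.1)) ?_ ?_
  · rintro ⟨z, t⟩ hu
    rw [mem_coe] at hu
    unfold GT at hu
    rw [mem_filter] at hu
    obtain ⟨hG, hT⟩ := hu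
    unfold GS at hG
    rw [mem_filter, mem_product, mem_range, mem_range] at hG
    obtain ⟨⟨hz, ht⟩, hcop, _, hbad⟩ := hG
    simp only at hT hz ht hcop hbad
    obtain ⟨s1, s2⟩ := b0_spec ha hcop
    rw [mem_coe, mem_filter, mem_product, mem_range, mem_range]
    refine ⟨⟨?_, hz⟩, ?_, by simp, ?_⟩
    · show a * t + b0 a z < X / a + a
      have h1 : t ≤ X / a^2 := by omega
      have h2 : a * t ≤ X / a := by
        calc a * t ≤ a * (X / a^2) := Nat.mul_le_mul_left a h1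
          _ = a * (X / a / a) := by rw [sq, ← Nat.div_div_eq_div_mul]
          _ ≤ X / a := Nat.mul_div_le _ _
      omega
    · show ((a * t + b0 a z) * z) % a = 1 % a
      have h1 : (a * t + b0 a z) * z = b0 a z * z + a * (t * z) := by ring
      rw [h1, Nat.add_mul_mod_self_left]
      exact s2
    · intro p hp hE
      obtain ⟨hpW, hpa⟩ := hP p hp
      have hpp := KS.prime_of_mem_W hpW
      have h1 := (EvB_iff T a e p z (b0 a z) (xx0 a z) t hpp hpa hz (by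
        have := xx0_spec ha hz hcop
        have h2 : (a:ℤ) * xx0 a z = (b0 a z : ℤ) * (a - z) + 1 := by
          have h3 : ((a * xx0 a z : ℕ) : ℤ) = ((b0 a z * (a - z) + 1 : ℕ) : ℤ) := by rw [this]
          push_cast [Nat.cast_sub hz.le] at h3
          exact h3
        rw [h2])).mp hE
      rcases h1 with h2 | h2
      · exact hbad p hpW h2
      · exact hT p h2.1 h2.2.2.2
  · rintro ⟨z, t⟩ hu ⟨z', t'⟩ hu' heq
    simp only [Prod.mk.injEq] at heq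
    obtain ⟨h1, h2⟩ := heq
    subst h2
    have h3 : a * t = a * t' := by omega
    have h4 := Nat.eq_of_mul_eq_mul_left ha h3
    rw [h4]

theorem zL_T : ∃ C : ℝ, 0 < C ∧ ∀ (K X a : ℕ) (e : ℤ) (T : Finset ℕ), 2000 ≤ K →
    bb K ≤ a → a^2 ≤ X → NSq K a → (e = 1 ∨ e = -1) → T ⊆ Ua K a →
    ((GT (K-10) X a e T).card : ℝ) ≤ C * (X / a) *
      Real.exp (-(K * Real.log 2) - ∑ p ∈ T, (1:ℝ)/p + 2 * rp a) := by
  obtain ⟨C, hC, h⟩ := KS.sieve2
  obtain ⟨C2, hC2, hSW⟩ := KS.SW_lower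
  have hsum : Summable (fun n : ℕ => (1:ℝ) / (n:ℝ)^2) := Real.summable_one_div_nat_pow.mpr (by norm_num)
  set Z : ℝ := ∑' n : ℕ, (1:ℝ) / (n:ℝ)^2 with hZ
  refine ⟨C * 2 * Real.exp (10 * Real.log 2 + C2 + 4 * Z), by positivity, ?_⟩
  intro K X a e T hK hKa haX hN he hT
  have hbbK : 0 < bb K := by unfold bb; positivity
  have ha0 : 0 < a := by omega
  have hP : ∀ p ∈ Ua K a, p ∈ W 0 (K-10) ∧ ¬ p ∣ a := by
    intro p hp
    unfold Ua at hp
    rw [mem_filter] at hp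
    exact hp
  have hP2 : ∀ p ∈ Ua K a, p.Prime ∧ 2 < p ∧ p ≤ bb (K-10) ∧ ¬ p ∣ a := by
    intro p hp
    obtain ⟨h1, h2⟩ := hP p hp
    refine ⟨KS.prime_of_mem_W h1, ?_, KS.le_of_mem_W h1, h2⟩
    have := KS.lt_of_mem_W h1
    simpa [bb] using this
  have hpsq : ∀ p ∈ Ua K a, p^2 ≤ a := by
    intro p hp
    have h1 := (hP2 p hp).2.2.1
    calc p^2 ≤ (bb (K-10))^2 := Nat.pow_le_pow_left h1 2
      _ = bb (K - 10 + 1) := by rw [KS.bb_add]; norm_num
      _ ≤ bb K := bb_mono (by omega)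
      _ ≤ a := hKa
  have hcard : ∀ p ∈ Ua K a,
      ((((range (p^2)) ×ˢ (range (p^2))).filter (fun t => EvB T a e p t.1 t.2)).card : ℝ) /
        (p:ℝ)^4 = densT T a e p := by
    intro p hp
    obtain ⟨h1, h2, h3, h4⟩ := hP2 p hp
    rw [card_EvB T a e he p h1 h4 (hpsq p hp)]
    rfl
  have hdens : ∀ p ∈ Ua K a, densT T a e p ≤ 3 / p ∧ low T p ≤ densT T a e p := by
    intro p hp
    obtain ⟨h1, h2, h3, h4⟩ := hP2 p hp
    have := densT_bounds T a e he p h1 (by omega) (fun _ => h4)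
    exact ⟨this.2.2.1, this.2.2.2⟩
  have h1 := h K a (X / a + a) ∅ (Ua K a) (EvB T a e) (fun _ _ _ => True) hK hKa
    (Nat.le_add_left _ _) hN
    (by simp) (by simp) (disjoint_empty_left _) hP2 (fun p _ b z => EvB_mod T a e p b z)
    (by simp) (fun p hp => by
      have h2 := hcard p hp
      have h3 := (hdens p hp).1
      have hp0 : (0:ℝ) < p := by exact_mod_cast (hP2 p hp).1.pos
      rw [← h2, div_le_div_iff₀ (by positivity) hp0] at h3
      have h4 : ((((range (p^2)) ×ˢ (range (p^2))).filter (fun t => EvB T a e p t.1 t.2)).card : ℝ)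
          ≤ 3 * (p:ℝ)^3 := by
        have h5 : 3 * (p:ℝ)^4 = (3 * (p:ℝ)^3) * p := by ring
        rw [h5] at h3
        exact le_of_mul_le_mul_right h3 hp0
      exact_mod_cast h4) (by simp)
  have h2 : ((GT (K-10) X a e T).card : ℝ) ≤ _ :=
    (Nat.cast_le (α := ℝ)).mpr (card_GT_le (K-10) X a e T ha0 (Ua K a) hP)
  refine (h2.trans h1).trans ?_
  rw [prod_empty, mul_one, sum_congr rfl hcard]
  -- the main term
  have hB : (((X / a + a : ℕ) : ℝ)) ≤ 2 * ((X:ℝ) / a) := by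
    have ha0' : (0:ℝ) < a := by exact_mod_cast ha0
    have h3 : ((X / a : ℕ) : ℝ) ≤ (X:ℝ) / a := Nat.cast_div_le
    have h4 : (a:ℝ) ≤ (X:ℝ) / a := by
      rw [le_div_iff₀ ha0']
      have : ((a^2 : ℕ) : ℝ) ≤ X := by exact_mod_cast haX
      push_cast at this
      nlinarith
    push_cast
    linarith
  have hW : ∑ p ∈ Ua K a, (1:ℝ)/p ≥ (K - 10) * Real.log 2 - C2 - rp a := by
    have h3 := hSW 0 (K-10)
    rw [Nat.cast_sub (by omega : 10 ≤ K)] at h3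
    push_cast at h3
    have h4 : SW 0 (K-10) = ∑ p ∈ Ua K a, (1:ℝ)/p +
        ∑ p ∈ (W 0 (K-10)).filter (fun p => ¬ ¬ p ∣ a), (1:ℝ)/p := by
      unfold SW Ua
      exact (sum_filter_add_sum_filter_not _ _ _).symm
    have h5 : ∑ p ∈ (W 0 (K-10)).filter (fun p => ¬ ¬ p ∣ a), (1:ℝ)/p ≤ rp a := by
      unfold rp
      apply sum_le_sum_of_subset_of_nonneg
      · intro p hp
        rw [mem_filter, not_not] at hp
        exact Nat.mem_primeFactors.mpr ⟨KS.prime_of_mem_W hp.1, hp.2, ha0.ne'⟩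
      · intro p _ _
        positivity
    linarith
  have hZ2 : ∑ p ∈ Ua K a, (1:ℝ)/(p:ℝ)^2 ≤ Z :=
    hsum.sum_le_tsum _ (fun n _ => by positivity)
  have hdens2 : ∑ p ∈ Ua K a, densT T a e p ≥
      ∑ p ∈ Ua K a, (1:ℝ)/p + ∑ p ∈ T, (1:ℝ)/p - 4 * ∑ p ∈ Ua K a, (1:ℝ)/(p:ℝ)^2 := by
    have h3 : ∑ p ∈ T, (1:ℝ)/p = ∑ p ∈ Ua K a, (if p ∈ T then (1:ℝ)/p else 0) := by
      rw [← sum_filter]
      congr 1
      ext p
      rw [mem_filter]
      exact ⟨fun hp => ⟨hT hp, hp⟩, fun hp => hp.2⟩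
    rw [h3, mul_sum, ← sum_add_distrib, ← sum_sub_distrib]
    apply sum_le_sum
    intro p hp
    refine le_trans ?_ (hdens p hp).2
    have hp0 : (0:ℝ) < (p:ℝ)^2 := by
      have : (0:ℝ) < p := by exact_mod_cast (hP2 p hp).1.pos
      positivity
    have hp1 : 0 ≤ (1:ℝ)/(p:ℝ)^2 := by positivity
    unfold low
    split_ifs
    · have e1 : 2/(p:ℝ) = 1/(p:ℝ) + 1/(p:ℝ) := by ring
      have e2 : 4/(p:ℝ)^2 = 4 * (1/(p:ℝ)^2) := by ring
      rw [e1, e2]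
    · have e2 : 3/(p:ℝ)^2 = 3 * (1/(p:ℝ)^2) := by ring
      rw [e2]; linarith
  calc C * ((X / a + a : ℕ) : ℝ) * Real.exp (- ∑ p ∈ Ua K a, densT T a e p)
      ≤ C * (2 * ((X:ℝ) / a)) * Real.exp ((10 * Real.log 2 + C2 + 4 * Z) +
          (-(K * Real.log 2) - ∑ p ∈ T, (1:ℝ)/p + 2 * rp a)) := by
        apply mul_le_mul (mul_le_mul_of_nonneg_left hB hC.le) _ (Real.exp_pos _).le
          (by positivity)
        apply Real.exp_le_exp.mpr
        have := rp_nonneg a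
        linarith
    _ = _ := by rw [Real.exp_add]; ring

end Pool.Agent.H24.QD
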