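import Mathlib
import Pool.Agent.H24.QD.Df

/-!
One-sided Mertens bound for the discriminant `dd a z e`.
-/

namespace Pool.Agent.H24.QD

open Finset Classical
open Pool.Agent.H12 (Bad b0 xx0 vv0 beta)
open Pool.Agent.H70.SymDes (EvT betaT densT low)
open Pool.Agent.H95.Gol
open Pool.Agent.H24.UM (Adm)
open Pool.Agent.H24.SH (blk_bounds window_high abs_Dk_le)
open Pool.Agent.H24.KS (W SW XD ja kk NSq sum_W W_mono mem_W prime_of_mem_W lt_of_mem_W le_of_mem_W
  XD_eq few_primes lt_ja)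

/-- admissibility at a scale above the size of the discriminant -/
lemma lbd_adm (E : ℤ) (j : ℕ) (hj : 5 ≤ j) (h : E.natAbs ≤ bb (j-1)) : Adm E j := by
  unfold Adm
  have hl2 := Real.log_two_lt_d9
  have hl0 : 0 ≤ Real.log 2 := Real.log_nonneg (by norm_num)
  set x : ℕ := 2^(j-1) with hx
  have h1 : (2:ℝ)^j = 2 * x := by
    rw [hx]; push_cast
    rw [← pow_succ']; congr 1; omega
  have hx16 : 16 ≤ x := by
    rw [hx]
    calc 16 = 2^4 := by norm_num
      _ ≤ 2^(j-1) := Nat.pow_le_pow_right (by norm_num) (by omega)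
  have e2 : (2:ℝ)^(2^j) = 2^x * 2^x := by
    rw [← pow_add]; congr 1
    rw [hx, ← two_mul, ← pow_succ']; congr 1; omega
  have h4 : (E.natAbs : ℝ) ≤ 2^x := by
    have : bb (j-1) = 2^x := rfl
    rw [this] at h; exact_mod_cast h
  have h5 : 240 * x ≤ 2^x := by
    have key : ∀ y : ℕ, 240 * (16 + y) ≤ 2^(16+y) := by
      intro y
      induction y with
      | zero => norm_num
      | succ y ih => rw [show 16 + (y+1) = (16 + y) + 1 by ring, pow_succ]; omega
    have h6 := key (x - 16)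
    rwa [Nat.add_sub_cancel' hx16] at h6
  have h6 : (240 * x : ℝ) ≤ 2^x := by exact_mod_cast h5
  have h7 : 1 + 2 * (x:ℝ) * Real.log 2 ≤ 3 * x := by
    have : (16:ℝ) ≤ x := by exact_mod_cast hx16
    nlinarith
  have e1 : ((4 * E.natAbs : ℕ) : ℝ) = 4 * E.natAbs := by push_cast; ring
  rw [e1, e2, h1]
  have hx0 : (0:ℝ) ≤ x := Nat.cast_nonneg _
  calc 20 * (4 * (E.natAbs:ℝ)) * (1 + 2 * x * Real.log 2)
      ≤ 20 * (4 * (E.natAbs:ℝ)) * (3 * x) := mul_le_mul_of_nonneg_left h7 (by positivity)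
    _ = E.natAbs * (240 * x) := by ring
    _ ≤ 2^x * 2^x := mul_le_mul h4 h6 (by positivity) (by positivity)

lemma lbd_natAbs (a z : ℕ) (e : ℤ) (he : e = 1 ∨ e = -1) :
    (dd a z e).natAbs = (a - z) * z := by
  unfold dd
  rw [Int.natAbs_neg, Int.natAbs_mul, Int.natAbs_mul, Int.natAbs_natCast, Int.natAbs_natCast]
  rcases he with h | h <;> rw [h] <;> simp

/-- window sums of the character -/
lemma lbd_XD : ∃ C : ℝ, 0 < C ∧ ∀ (K a z : ℕ) (e : ℤ), 2 ≤ a → z < a →
    (e = 1 ∨ e = -1) → ¬ IsSquare (dd a z e) → ja a - 6 ≤ K →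
    XD (dd a z e) (ja a - 6) K ≤ C := by
  obtain ⟨C0, hC0, hb1, _, _⟩ := blk_bounds
  obtain ⟨C1, hC1, hw⟩ := window_high
  have hl2 : 0 ≤ Real.log 2 := Real.log_nonneg (by norm_num)
  refine ⟨11 * (Real.log 2 + C0) + C1 + 1, by positivity, ?_⟩
  intro K a z e ha hz he hE hK
  set E := dd a z e with hEdef
  set j0 := max 7 (ja a + 5) with hj0
  have hblk : ∀ i j : ℕ, j ≤ i + 11 → ∑ k ∈ Ico i j, Dk E k ≤ 11 * (Real.log 2 + C0) := by
    intro i j hij
    calc ∑ k ∈ Ico i j, Dk E k ≤ ∑ k ∈ Ico i j, (Real.log 2 + C0) :=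
          sum_le_sum fun k _ => (le_abs_self _).trans ((abs_Dk_le E k).trans (hb1 k))
      _ = ((j - i : ℕ) : ℝ) * (Real.log 2 + C0) := by rw [sum_const, Nat.card_Ico, nsmul_eq_mul]
      _ ≤ 11 * (Real.log 2 + C0) := by
          apply mul_le_mul_of_nonneg_right _ (by positivity)
          exact_mod_cast (by omega : j - i ≤ 11)
  rw [XD_eq]
  rcases Nat.lt_or_ge K j0 with h | h
  · have := hblk (ja a - 6) K (by omega)
    linarith
  · have h1 : ∑ k ∈ Ico (ja a - 6) K, Dk E k = ∑ k ∈ Ico (ja a - 6) j0, Dk E k +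
        ∑ k ∈ Ico j0 K, Dk E k := (sum_Ico_consecutive _ (by omega) h).symm
    rw [h1]
    have h2 := hblk (ja a - 6) j0 (by omega)
    have hadm : Adm E (j0 - 2) := by
      apply lbd_adm _ _ (by omega)
      rw [hEdef, lbd_natAbs a z e he]
      have h3 := lt_ja a
      have h4 : (a - z) * z ≤ a * a := Nat.mul_le_mul (Nat.sub_le _ _) hz.le
      have h5 : a * a ≤ bb (ja a + 1) * bb (ja a + 1) := Nat.mul_le_mul h3.le h3.le
      have h6 : bb (ja a + 1) * bb (ja a + 1) = bb (ja a + 2) := by rw [← sq, ← bb_succ]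
      have h7 : bb (ja a + 2) ≤ bb (j0 - 2 - 1) := bb_mono (by omega)
      omega
    have h3 := hw E j0 K hE (by omega) h hadm
    linarith

/-- few prime divisors in the window -/
lemma lbd_few : ∃ C : ℝ, 0 < C ∧ ∀ (K a z : ℕ), 2 ≤ a → 0 < z → z < a →
    ∑ p ∈ (W (ja a - 6) K).filter (fun p => p ∣ a * z * (a - z)), (1:ℝ)/p ≤ C := by
  obtain ⟨C0, hC0, _, hb2, _⟩ := blk_bounds
  have hl2 : 0 ≤ Real.log 2 := Real.log_nonneg (by norm_num)
  refine ⟨(4 * Real.log 2 + C0) + 1, by positivity, ?_⟩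
  intro K a z ha hz0 hz
  set N := a * z * (a - z) with hN
  set r := ja a - 6 with hr
  have hN0 : N ≠ 0 := by
    rw [hN]
    have : 0 < a - z := by omega
    positivity
  set S := (W r K).filter (fun p => p ∣ N) with hS
  rw [← sum_filter_add_sum_filter_not S (fun p => p ≤ bb 4)]
  apply add_le_add
  · have h1 : S.filter (fun p => p ≤ bb 4) ⊆ W 0 4 := by
      intro p hp
      rw [mem_filter, hS, mem_filter] at hp
      rw [mem_W (by norm_num)]
      have h2 := lt_of_mem_W hp.1.1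
      have h3 : bb 0 ≤ bb r := bb_mono (Nat.zero_le _)
      exact ⟨prime_of_mem_W hp.1.1, by omega, hp.2⟩
    calc ∑ p ∈ S.filter (fun p => p ≤ bb 4), (1:ℝ)/p ≤ ∑ p ∈ W 0 4, (1:ℝ)/p :=
          sum_le_sum_of_subset_of_nonneg h1 fun _ _ _ => by positivity
      _ ≤ 4 * Real.log 2 + C0 := by
          rw [sum_W]
          have := hb2 0 4 (by norm_num)
          push_cast at this
          linarith
  · set R := max r 4 with hR
    apply few_primes _ (bb R) N (bb_pos _) ?_ hN0 ?_
    · intro p hp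
      rw [mem_filter, hS, mem_filter] at hp
      refine ⟨prime_of_mem_W hp.1.1, ?_, hp.1.2⟩
      have h2 := lt_of_mem_W hp.1.1
      rcases le_total r 4 with h | h
      · rw [hR, max_eq_right h]; omega
      · rw [hR, max_eq_left h]; exact h2
    · have h3 := lt_ja a
      have h4 : a ≤ bb (R + 7) := h3.le.trans (bb_mono (by omega))
      have h5 : N ≤ bb (R+7) * bb (R+7) * bb (R+7) := by
        rw [hN]
        exact Nat.mul_le_mul (Nat.mul_le_mul h4 (hz.le.trans h4)) ((Nat.sub_le _ _).trans h4)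
      refine h5.trans ?_
      have h6 : bb (R+7) * bb (R+7) * bb (R+7) = 2^(3 * 2^(R+7)) := by
        unfold bb
        rw [← pow_add, ← pow_add]; congr 1; ring
      rw [h6]
      apply Nat.pow_le_pow_right (by norm_num)
      have h7 : R + 9 ≤ 2^R := by
        have h8 : 4 ≤ R := le_max_right _ _
        obtain ⟨y, hy⟩ : ∃ y, R = 4 + y := ⟨R - 4, by omega⟩
        rw [hy]
        clear * -
        induction y with
        | zero => norm_num
        | succ y ih => rw [show 4 + (y+1) = (4 + y) + 1 by ring, pow_succ]; omega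
      calc 3 * 2^(R+7) ≤ 4 * 2^(R+7) := Nat.mul_le_mul_right _ (by norm_num)
        _ = 2^(R+9) := by rw [show R + 9 = (R+7) + 2 by ring, pow_add]; ring
        _ ≤ 2^(2^R) := Nat.pow_le_pow_right (by norm_num) h7
        _ = bb R := rfl

/-- one-sided Mertens for the discriminant `dd a z e` -/
theorem lbd : ∃ C : ℝ, 0 < C ∧ ∀ (K a z : ℕ) (e : ℤ), 2 ≤ a → z < a → Nat.Coprime z a →
    (e = 1 ∨ e = -1) → ¬ IsSquare (dd a z e) → ja a - 6 ≤ K →
    (1/2) * ((K:ℝ) - ja a) * Real.log 2 - C ≤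
      ∑ p ∈ (W (ja a - 6) K).filter (fun p => ¬ p ∣ a ∧ ¬ p ∣ z),
        (if ¬ IsSquare (-(e : ZMod p) * ((a:ZMod p) - z) * z) then (1:ℝ) else 0) / p := by
  obtain ⟨C0, hC0, _, _, hb3⟩ := blk_bounds
  obtain ⟨C1, hC1, hX⟩ := lbd_XD
  obtain ⟨C2, hC2, hF⟩ := lbd_few
  have hl2 : 0 ≤ Real.log 2 := Real.log_nonneg (by norm_num)
  refine ⟨C0 + C1 + C2, by positivity, ?_⟩
  intro K a z e ha hz hcop he hE hK
  have hz0 : 0 < z := by
    rcases Nat.eq_zero_or_pos z with h | h
    · subst h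
      exfalso; apply hE
      unfold dd
      simp
    · exact h
  set r := ja a - 6 with hr
  set E := dd a z e with hEdef
  have h1 := hX K a z e ha hz he hE hK
  have h2 := hF K a z ha hz0 hz
  have h3 := hb3 r K hK
  rw [← sum_W] at h3
  -- pointwise comparison
  have hpt : ∀ p ∈ W r K, (1 - F E p)/2/p ≤
      (if (¬ p ∣ a ∧ ¬ p ∣ z) then
        (if ¬ IsSquare (-(e : ZMod p) * ((a:ZMod p) - z) * z) then (1:ℝ) else 0) / p else 0) +
      (if p ∣ a * z * (a - z) then (1:ℝ)/p else 0) := by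
    intro p hp
    have hpp := prime_of_mem_W hp
    have hpgt := lt_of_mem_W hp
    have hp2 : 2 < p := by have := two_le_bb r; omega
    have hp0 : (0:ℝ) < p := by exact_mod_cast hpp.pos
    have hodd : Odd p := hpp.odd_of_ne_two (by omega)
    have hFa := abs_le.mp (Pool.Agent.H66.Gol.abs_F_le E p)
    have hnn : 0 ≤ (if (¬ p ∣ a ∧ ¬ p ∣ z) then
        (if ¬ IsSquare (-(e : ZMod p) * ((a:ZMod p) - z) * z) then (1:ℝ) else 0) / p else 0) := by
      split_ifs <;> positivity
    by_cases hpN : p ∣ a * z * (a - z)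
    · rw [if_pos hpN]
      have : (1 - F E p)/2/p ≤ 1/p := by
        apply div_le_div_of_nonneg_right _ hp0.le
        linarith [hFa.1]
      linarith
    · rw [if_neg hpN, add_zero]
      have hpa : ¬ p ∣ a := fun h => hpN ((h.mul_right z).mul_right _)
      have hpz : ¬ p ∣ z := fun h => hpN ((h.mul_left a).mul_right _)
      have hpy : ¬ p ∣ (a - z) := fun h => hpN (h.mul_left _)
      rw [if_pos ⟨hpa, hpz⟩]
      have : Fact p.Prime := ⟨hpp⟩
      have hcast : ((E : ℤ) : ZMod p) = -(e : ZMod p) * ((a:ZMod p) - z) * z := by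
        rw [hEdef]
        unfold dd
        push_cast [Nat.cast_sub hz.le]
        ring
      have hFE : F E p = ((legendreSym p E : ℤ) : ℝ) := by
        unfold F
        rw [if_pos hodd, jacobiSym.legendreSym.to_jacobiSym]
      have hne : (E : ZMod p) ≠ 0 := by
        intro h0
        rw [ZMod.intCast_zmod_eq_zero_iff_dvd, ← Int.dvd_natAbs, Int.natCast_dvd_natCast,
          hEdef, lbd_natAbs a z e he] at h0
        rcases (hpp.dvd_mul).mp h0 with h | h
        · exact hpy h
        · exact hpz h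
      rw [hFE]
      rcases legendreSym.eq_one_or_neg_one p hne with h | h
      · rw [h]
        push_cast
        split_ifs
        · norm_num
        · norm_num
      · have hns : ¬ IsSquare ((E : ℤ) : ZMod p) := (legendreSym.eq_neg_one_iff p).mp h
        rw [hcast] at hns
        rw [if_pos hns, h]
        push_cast
        norm_num
  have hsum := sum_le_sum hpt
  rw [sum_add_distrib, ← sum_filter, ← sum_filter] at hsum
  have hlhs : ∑ p ∈ W r K, (1 - F E p)/2/p = (1/2) * ∑ p ∈ W r K, (1:ℝ)/p - (1/2) * XD E r K := by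
    unfold XD
    rw [mul_sum, mul_sum, ← sum_sub_distrib]
    refine sum_congr rfl fun p _ => ?_
    ring
  rw [hlhs] at hsum
  have hrr : (r:ℝ) ≤ ja a := by exact_mod_cast Nat.sub_le _ _
  nlinarith
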