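import Mathlib
import Pool.Agent.H24.KS.AbSieve
import Pool.Agent.H12.Periodic

/-!
A two-stage Brun-Hooley upper bound sieve: the large primes are sieved for every `z`, with a lower
bound `L` of the sieving densities; the small primes (up to `bb r`) are averaged over `z`.
-/

namespace Pool.Agent.H24.QD

open Finset Classical
open Pool.Agent.H12 (esym tsum' bonferroni esym_le esym_nonneg per_avg crt_prod)
open Pool.Agent.H95.Gol

/-- expansion of block sums of real functions with approximately multiplicative moments -/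
lemma rb_expand {ι : Type*} (S : Finset ι) (P : Finset ℕ) (f : ι → ℕ → ℝ) (δ G : ℕ → ℝ)
    (N E0 : ℝ)
    (hcount : ∀ D ⊆ P, |∑ j ∈ S, ∏ p ∈ D, f j p - N * ∏ p ∈ D, δ p| ≤ E0 * ∏ p ∈ D, G p)
    (Q : ℕ → Finset ℕ) (r : ℕ → ℕ) (m : ℕ) : (∀ i < m, Q i ⊆ P) →
    (∀ i < m, ∀ i' < m, i ≠ i' → Disjoint (Q i) (Q i')) → ∀ D0 ⊆ P,
    (∀ i < m, Disjoint D0 (Q i)) →
    |∑ j ∈ S, (∏ p ∈ D0, f j p) * ∏ i ∈ range m, tsum' (Q i) (f j) (r i) -
      N * ((∏ p ∈ D0, δ p) * ∏ i ∈ range m, tsum' (Q i) δ (r i))| ≤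
    E0 * ((∏ p ∈ D0, G p) * ∏ i ∈ range m, Bd (Q i) G (r i)) := by
  induction m with
  | zero =>
    intro _ _ D0 hD0 _
    simp only [range_zero, prod_empty, mul_one]
    exact hcount D0 hD0
  | succ m ih =>
    intro hQ hdisj D0 hD0 hdD
    have ih' := ih (fun i hi => hQ i (by omega)) (fun i hi i' hi' => hdisj i (by omega) i' (by omega))
    set T : ℕ → ℝ := fun i => tsum' (Q i) δ (r i) with hT
    set S' : Finset ℕ → ℝ := fun D => ∑ j ∈ S, (∏ p ∈ D, f j p) *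
      ∏ i ∈ range m, tsum' (Q i) (f j) (r i) with hS
    have key : ∀ t, ∀ D ∈ (Q m).powersetCard t, D0 ∪ D ⊆ P ∧ Disjoint D0 D ∧
        (∀ i < m, Disjoint (D0 ∪ D) (Q i)) := by
      intro t D hD
      rw [mem_powersetCard] at hD
      refine ⟨union_subset hD0 (hD.1.trans (hQ m (by omega))),
        (hdD m (by omega)).mono_right hD.1, fun i hi => ?_⟩
      rw [disjoint_union_left]
      exact ⟨hdD i (by omega), (hdisj m (by omega) i (by omega) (by omega)).mono_left hD.1⟩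
    have e1 : ∑ j ∈ S, (∏ p ∈ D0, f j p) *
        ∏ i ∈ range (m+1), tsum' (Q i) (f j) (r i) =
        ∑ t ∈ range (r m + 1), ∑ D ∈ (Q m).powersetCard t, (-1)^t * S' (D0 ∪ D) := by
      have : ∀ j ∈ S, (∏ p ∈ D0, f j p) *
          ∏ i ∈ range (m+1), tsum' (Q i) (f j) (r i) =
          ∑ t ∈ range (r m + 1), ∑ D ∈ (Q m).powersetCard t, (-1)^t *
            ((∏ p ∈ D0 ∪ D, f j p) * ∏ i ∈ range m, tsum' (Q i) (f j) (r i)) := by
        intro j _
        rw [prod_range_succ, tsum'_eq (Q m), mul_sum, mul_sum]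
        refine sum_congr rfl fun t _ => ?_
        rw [mul_sum, mul_sum]
        refine sum_congr rfl fun D hD => ?_
        rw [prod_union (key t D hD).2.1]
        ring
      rw [sum_congr rfl this, sum_comm]
      refine sum_congr rfl fun t _ => ?_
      rw [sum_comm]
      refine sum_congr rfl fun D _ => ?_
      rw [hS, mul_sum]
    have e2 : (∏ p ∈ D0, δ p) * ∏ i ∈ range (m+1), T i =
        ∑ t ∈ range (r m + 1), ∑ D ∈ (Q m).powersetCard t, (-1)^t *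
          ((∏ p ∈ D0 ∪ D, δ p) * ∏ i ∈ range m, T i) := by
      rw [prod_range_succ]
      have : T m = ∑ t ∈ range (r m + 1), ∑ D ∈ (Q m).powersetCard t,
          (-1)^t * ∏ p ∈ D, δ p := tsum'_eq (Q m) _ (r m)
      rw [this, mul_sum, mul_sum]
      refine sum_congr rfl fun t _ => ?_
      rw [mul_sum, mul_sum]
      refine sum_congr rfl fun D hD => ?_
      rw [prod_union (key t D hD).2.1]
      ring
    have e3 : (∏ p ∈ D0, G p) * ∏ i ∈ range (m+1), Bd (Q i) G (r i) =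
        ∑ t ∈ range (r m + 1), ∑ D ∈ (Q m).powersetCard t,
          ((∏ p ∈ D0 ∪ D, G p) * ∏ i ∈ range m, Bd (Q i) G (r i)) := by
      rw [prod_range_succ, Bd_eq (Q m), mul_sum, mul_sum]
      refine sum_congr rfl fun t _ => ?_
      rw [mul_sum, mul_sum]
      refine sum_congr rfl fun D hD => ?_
      rw [prod_union (key t D hD).2.1]
      ring
    rw [e1, e2, e3, mul_sum, mul_sum, ← sum_sub_distrib]
    refine (abs_sum_le_sum_abs _ _).trans (sum_le_sum fun t _ => ?_)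
    rw [mul_sum, mul_sum, ← sum_sub_distrib]
    refine (abs_sum_le_sum_abs _ _).trans (sum_le_sum fun D hD => ?_)
    obtain ⟨k1, k2, k3⟩ := key t D hD
    have h := ih' (D0 ∪ D) k1 k3
    have e4 : (-1:ℝ)^t * S' (D0 ∪ D) - N * ((-1)^t *
        ((∏ p ∈ D0 ∪ D, δ p) * ∏ i ∈ range m, T i)) =
        (-1)^t * (S' (D0 ∪ D) - N * ((∏ p ∈ D0 ∪ D, δ p) * ∏ i ∈ range m, T i)) := by
      ring
    rw [e4, abs_mul, abs_pow, abs_neg, abs_one, one_pow, one_mul]
    exact h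

/-- the product of the block errors -/
lemma bd_prod (c : ℕ) (P : Finset ℕ) (K m : ℕ) (hm : m ≤ K) (G : ℕ → ℝ)
    (hP : ∀ p ∈ P, p.Prime) (hG : ∀ p ∈ P, 0 ≤ G p ∧ G p ≤ (p:ℝ)^c) :
    ∏ i ∈ range m, Bd (P ∩ PB (K - 1 - i)) G (2 * (i + 1)) ≤ (bb K : ℝ)^(8 * (c + 2)) := by
  set Q : ℕ → Finset ℕ := fun i => P ∩ PB (K - 1 - i) with hQ
  have h1 : ∀ i ∈ range m, Bd (Q i) G (2 * (i+1)) ≤
      (2:ℝ)^(2 * (c + 2) * ((i+1) * 2^(K-i))) := by
    intro i hi
    rw [mem_range] at hi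
    set y : ℕ := bb (K - i) with hy
    have hy2 : 2 ≤ y := two_le_bb _
    have hsub : Q i ⊆ range (y + 1) := by
      intro p hp
      have := (mem_PB.mp (mem_inter.mp hp).2).1.2
      rw [show K - 1 - i + 1 = K - i by omega] at this
      rw [mem_range]; omega
    have hyr : (2:ℝ) ≤ y := by exact_mod_cast hy2
    have hsum : 1 + ∑ p ∈ Q i, G p ≤ ((y:ℝ)^(c+2)) := by
      have h2 : ∑ p ∈ Q i, G p ≤ ∑ p ∈ Q i, ((y:ℝ)^c) := by
        refine sum_le_sum fun p hp => ?_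
        have h3 : G p ≤ (p:ℝ)^c := (hG p (mem_inter.mp hp).1).2
        have h4 : (p:ℝ) ≤ y := by
          have := mem_range.mp (hsub hp)
          exact_mod_cast (by omega : p ≤ y)
        exact h3.trans (pow_le_pow_left₀ (Nat.cast_nonneg _) h4 _)
      rw [sum_const, nsmul_eq_mul] at h2
      have h5 : ((Q i).card : ℝ) ≤ y := by
        have h6 : Q i ⊆ Ioc 0 y := by
          intro p hp
          have a := mem_range.mp (hsub hp)
          have b := (hP p (mem_inter.mp hp).1).pos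
          rw [mem_Ioc]; omega
        have := card_le_card h6
        rw [Nat.card_Ioc] at this
        exact_mod_cast (by omega : (Q i).card ≤ y)
      have h0 : (0:ℝ) < (y:ℝ)^c := by positivity
      have h7 : ((Q i).card : ℝ) * ((y:ℝ)^c) ≤ y * (y:ℝ)^c :=
        mul_le_mul_of_nonneg_right h5 h0.le
      have h8 : (1:ℝ) ≤ (y:ℝ)^c := one_le_pow₀ (by linarith)
      have h9 : (y:ℝ)^(c+2) = y * (y * (y:ℝ)^c) := by ring
      rw [h9]
      have h10 : (2:ℝ) ≤ y * (y:ℝ)^c := by nlinarith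
      nlinarith
    refine (block_err (Q i) _ (fun p hp => (hG p (mem_inter.mp hp).1).1) (2 * (i+1)) _ hsum).trans
      (le_of_eq ?_)
    rw [hy]
    unfold bb
    push_cast
    rw [← pow_mul, ← pow_mul]
    congr 1
    ring
  calc ∏ i ∈ range m, Bd (Q i) G (2 * (i+1)) ≤
        ∏ i ∈ range m, (2:ℝ)^(2 * (c + 2) * ((i+1) * 2^(K-i))) :=
        prod_le_prod (fun i _ => Bd_nonneg _ _ (fun p hp => (hG p (mem_inter.mp hp).1).1) _) h1
    _ = (2:ℝ)^(∑ i ∈ range m, 2 * (c + 2) * ((i+1) * 2^(K-i))) := by rw [prod_pow_eq_pow_sum]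
    _ ≤ (2:ℝ)^(2 * (c + 2) * (4 * 2^K)) := by
        refine pow_le_pow_right₀ (by norm_num) ?_
        rw [← mul_sum]
        have h3 := geom_exp K
        have h4 : ∑ i ∈ range m, (i+1) * 2^(K-i) ≤ ∑ i ∈ range K, (i+1) * 2^(K-i) :=
          sum_le_sum_of_subset (range_subset_range.mpr hm)
        exact Nat.mul_le_mul_left _ (by omega)
    _ = (bb K : ℝ)^(8 * (c + 2)) := by
        unfold bb
        push_cast
        rw [← pow_mul]
        congr 1
        ring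

/-- the product of the main terms of the blocks -/
lemma main_prod (κ Lb : ℝ) (hκ : 0 ≤ κ) (hLb : ∀ k : ℕ, ∑ l ∈ PB k, (1:ℝ) / l ≤ Lb)
    (P : Finset ℕ) (K m : ℕ) (δ : ℕ → ℝ)
    (hδ : ∀ i < m, ∀ p ∈ P ∩ PB (K - 1 - i), 0 ≤ δ p ∧ δ p ≤ 1 ∧ δ p ≤ κ / p) :
    ∏ i ∈ range m, tsum' (P ∩ PB (K - 1 - i)) δ (2 * (i + 1)) ≤
      Real.exp (Real.exp (2 * κ * Lb)) *
        Real.exp (- ∑ i ∈ range m, ∑ p ∈ P ∩ PB (K - 1 - i), δ p) := by
  set Q : ℕ → Finset ℕ := fun i => P ∩ PB (K - 1 - i) with hQ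
  have hLb0 : 0 ≤ Lb := le_trans (sum_nonneg fun l _ => by positivity) (hLb 0)
  have hS : ∀ i < m, ∑ p ∈ Q i, δ p ≤ κ * Lb := by
    intro i hi
    calc ∑ p ∈ Q i, δ p ≤ ∑ p ∈ Q i, κ * ((1:ℝ) / p) := by
          refine sum_le_sum fun p hp => ?_
          have := (hδ i hi p hp).2.2
          rw [mul_one_div]; exact this
      _ ≤ ∑ p ∈ PB (K - 1 - i), κ * ((1:ℝ) / p) :=
          sum_le_sum_of_subset_of_nonneg inter_subset_right fun p _ _ => by positivity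
      _ = κ * ∑ p ∈ PB (K - 1 - i), (1:ℝ) / p := by rw [mul_sum]
      _ ≤ κ * Lb := mul_le_mul_of_nonneg_left (hLb (K - 1 - i)) hκ
  set x : ℕ → ℝ := fun i => Real.exp (κ * Lb) *
    ((κ * Lb)^(2 * (i+1) + 1) / ((2 * (i+1) + 1).factorial : ℝ)) with hx
  have hx0 : ∀ i, 0 ≤ x i := fun i => by positivity
  have h1 : ∏ i ∈ range m, tsum' (Q i) δ (2 * (i+1)) ≤
      ∏ i ∈ range m, (Real.exp (-∑ p ∈ Q i, δ p) * (1 + x i)) := by
    refine prod_le_prod (fun i hi => ?_) (fun i hi => ?_)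
    · have hδ1 : ∀ p ∈ Q i, 0 ≤ δ p ∧ δ p ≤ 1 := fun p hp =>
        ⟨(hδ i (mem_range.mp hi) p hp).1, (hδ i (mem_range.mp hi) p hp).2.1⟩
      have hb := (bonferroni (Q i) δ hδ1 (2 * (i+1))).1
      rw [(show Even (2 * (i+1)) from ⟨i+1, by ring⟩).neg_one_pow, one_mul] at hb
      have : 0 ≤ ∏ p ∈ Q i, (1 - δ p) :=
        prod_nonneg fun p hp => by linarith [(hδ1 p hp).2]
      linarith
    · exact block_main (Q i) _ (fun p hp =>
        ⟨(hδ i (mem_range.mp hi) p hp).1, (hδ i (mem_range.mp hi) p hp).2.1⟩) (2 * (i+1))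
        ⟨i+1, by ring⟩ (κ * Lb) (hS i (mem_range.mp hi))
  refine h1.trans ?_
  rw [prod_mul_distrib, ← Real.exp_sum, sum_neg_distrib, mul_comm]
  refine mul_le_mul_of_nonneg_right ?_ (Real.exp_pos _).le
  calc ∏ i ∈ range m, (1 + x i) ≤ ∏ i ∈ range m, Real.exp (x i) :=
        prod_le_prod (fun i _ => by linarith [hx0 i]) (fun i _ => by
          have := Real.add_one_le_exp (x i); linarith)
    _ = Real.exp (∑ i ∈ range m, x i) := by rw [Real.exp_sum]
    _ ≤ Real.exp (Real.exp (2 * κ * Lb)) := by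
        apply Real.exp_le_exp.mpr
        rw [hx, ← mul_sum]
        have h2 : ∑ i ∈ range m, (κ * Lb)^(2 * (i+1) + 1) / ((2 * (i+1) + 1).factorial : ℝ) ≤
            Real.exp (κ * Lb) := by
          have hinj : Set.InjOn (fun i => 2 * (i+1) + 1) (range m : Finset ℕ) := by
            intro a _ b _ hab
            simp only at hab
            omega
          rw [← sum_image (f := fun t : ℕ => (κ * Lb)^t / (t.factorial : ℝ)) hinj]
          exact pow_div_fact_le (κ * Lb) (by positivity) 0 _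
        calc Real.exp (κ * Lb) * ∑ i ∈ range m,
              (κ * Lb)^(2 * (i+1) + 1) / ((2 * (i+1) + 1).factorial : ℝ)
            ≤ Real.exp (κ * Lb) * Real.exp (κ * Lb) :=
              mul_le_mul_of_nonneg_left h2 (Real.exp_pos _).le
          _ = Real.exp (2 * κ * Lb) := by rw [← Real.exp_add]; congr 1; ring

/-- the sum over the blocks above `bb r` -/
lemma sum_large (P : Finset ℕ) (K r : ℕ) (hr : r ≤ K)
    (hP : ∀ p ∈ P, p.Prime ∧ 2 < p ∧ p ≤ bb K) (g : ℕ → ℝ) :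
    ∑ i ∈ range (K - r), ∑ p ∈ P ∩ PB (K - 1 - i), g p =
      ∑ p ∈ P.filter (fun p => bb r < p), g p := by
  rw [← sum_biUnion]
  · congr 1
    ext p
    rw [mem_biUnion, mem_filter]
    constructor
    · rintro ⟨i, hi, hp⟩
      rw [mem_range] at hi
      obtain ⟨h1, h2⟩ := mem_inter.mp hp
      exact ⟨h1, lt_of_le_of_lt (bb_mono (by omega)) (mem_PB.mp h2).1.1⟩
    · rintro ⟨hp, hlt⟩
      obtain ⟨h1, h2, h3⟩ := hP p hp
      obtain ⟨k, hk, hpk⟩ := exists_block h1 h2 h3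
      have hkr : r ≤ k := by
        by_contra hcon
        have h4 := bb_mono (show k + 1 ≤ r by omega)
        have h5 := (mem_PB.mp hpk).1.2
        omega
      refine ⟨K - 1 - k, mem_range.mpr (by omega), mem_inter.mpr ⟨hp, ?_⟩⟩
      rw [show K - 1 - (K - 1 - k) = k by omega]
      exact hpk
  · intro i hi i' hi' hne
    rw [mem_coe, mem_range] at hi hi'
    exact (PB_disjoint (by omega)).mono inter_subset_right inter_subset_right

/-- the sum over the blocks up to `bb r` -/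
lemma sum_small (P : Finset ℕ) (r : ℕ)
    (hP : ∀ p ∈ P, p.Prime ∧ 2 < p) (g : ℕ → ℝ) :
    ∑ i ∈ range r, ∑ p ∈ P ∩ PB (r - 1 - i), g p =
      ∑ p ∈ P.filter (fun p => p ≤ bb r), g p := by
  rw [← sum_biUnion]
  · congr 1
    ext p
    rw [mem_biUnion, mem_filter]
    constructor
    · rintro ⟨i, hi, hp⟩
      rw [mem_range] at hi
      obtain ⟨h1, h2⟩ := mem_inter.mp hp
      exact ⟨h1, (mem_PB.mp h2).1.2.trans (bb_mono (by omega))⟩
    · rintro ⟨hp, hle⟩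
      obtain ⟨h1, h2⟩ := hP p hp
      obtain ⟨k, hk, hpk⟩ := exists_block h1 h2 hle
      refine ⟨r - 1 - k, mem_range.mpr (by omega), mem_inter.mpr ⟨hp, ?_⟩⟩
      rw [show r - 1 - (r - 1 - k) = k by omega]
      exact hpk
  · intro i hi i' hi' hne
    rw [mem_coe, mem_range] at hi hi'
    exact (PB_disjoint (by omega)).mono inter_subset_right inter_subset_right

/-- the truncated sum of an even block is nonnegative -/
lemma tsum_even_nonneg (Q : Finset ℕ) (δ : ℕ → ℝ) (hδ : ∀ p ∈ Q, 0 ≤ δ p ∧ δ p ≤ 1) (i : ℕ) :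
    0 ≤ tsum' Q δ (2 * (i+1)) := by
  have hb := (bonferroni Q δ hδ (2 * (i+1))).1
  rw [(show Even (2 * (i+1)) from ⟨i+1, by ring⟩).neg_one_pow, one_mul] at hb
  have : 0 ≤ ∏ p ∈ Q, (1 - δ p) :=
    prod_nonneg fun p hp => by linarith [(hδ p hp).2]
  linarith

/-- first stage: a fixed `z` -/
lemma stage1 (κ Lb : ℝ) (hκ : 0 ≤ κ) (hLb : ∀ k : ℕ, ∑ l ∈ PB k, (1:ℝ) / l ≤ Lb)
    (P : Finset ℕ) (J K r : ℕ) (hr : r ≤ K) (E : ℕ → ℕ → Prop) (β : ℕ → ℝ) (L : ℝ)
    (hP : ∀ p ∈ P, p.Prime ∧ 2 < p ∧ p ≤ bb K)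
    (hE : ∀ p ∈ P, ∀ t, E p (t % p^2) ↔ E p t)
    (hβ : ∀ p ∈ P, 0 ≤ β p ∧ β p ≤ (p:ℝ)^2)
    (hsum : ∀ p ∈ P, ∑ t ∈ range (p^2), (if E p t then (1:ℝ) else 0) = β p)
    (hlarge : ∀ p ∈ P, bb r < p → β p ≤ κ * p)
    (hL : L ≤ ∑ p ∈ P.filter (fun p => bb r < p), β p / (p:ℝ)^2) :
    (((range J).filter (fun t => ∀ p ∈ P, ¬ E p t)).card : ℝ) ≤
      J * (Real.exp (Real.exp (2 * κ * Lb)) * Real.exp (-L) *
        ∏ i ∈ range r, tsum' (P ∩ PB (r - 1 - i)) (fun p => β p / (p:ℝ)^2) (2 * (i + 1))) +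
      (bb K : ℝ)^32 * (bb r : ℝ)^32 := by
  set Q : ℕ → Finset ℕ := fun i => P ∩ PB (K - 1 - i) with hQ
  set rr : ℕ → ℕ := fun i => if i < K - r then 2 * (i + 1) else 2 * (i - (K - r) + 1) with hrr
  set δ : ℕ → ℝ := fun p => β p / (p:ℝ)^2 with hδd
  set f : ℕ → ℕ → ℝ := fun t p => if E p t then (1:ℝ) else 0 with hf
  have hprime : ∀ p ∈ P, p.Prime := fun p hp => (hP p hp).1
  have hδ1 : ∀ p ∈ P, 0 ≤ δ p ∧ δ p ≤ 1 := by
    intro p hp
    have hp0 : (0:ℝ) < p := by exact_mod_cast (hprime p hp).pos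
    refine ⟨div_nonneg (hβ p hp).1 (by positivity), ?_⟩
    rw [hδd]
    simp only
    rw [div_le_one (by positivity)]
    exact (hβ p hp).2
  have hf1 : ∀ t p, 0 ≤ f t p ∧ f t p ≤ 1 := fun t p => by
    simp only [hf]; split_ifs <;> norm_num
  have heven : ∀ i, Even (rr i) := by
    intro i
    simp only [hrr]
    split_ifs
    · exact ⟨i+1, by ring⟩
    · exact ⟨i - (K - r) + 1, by ring⟩
  -- the counts
  have hcount : ∀ D ⊆ P, |∑ t ∈ range J, ∏ p ∈ D, f t p - J * ∏ p ∈ D, δ p| ≤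
      1 * ∏ p ∈ D, (p:ℝ)^2 := by
    intro D hD
    have hDp : ∀ p ∈ D, p.Prime := fun p hp => hprime p (hD hp)
    set M := ∏ p ∈ D, p^2 with hM
    have hM0 : 0 < M := prod_pos fun p hp => pow_pos (hDp p hp).pos 2
    have hM' : (0:ℝ) < M := by exact_mod_cast hM0
    have hper : ∀ t, ∏ p ∈ D, f (t % M) p = ∏ p ∈ D, f t p := by
      intro t
      refine prod_congr rfl fun p hp => ?_
      have e1 : t % M % p^2 = t % p^2 :=
        Nat.mod_mod_of_dvd t (Finset.dvd_prod_of_mem (fun p => p^2) hp)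
      have e2 : E p (t % M) ↔ E p t := by
        rw [← hE p (hD hp) (t % M), e1, hE p (hD hp)]
      simp only [hf, e2]
    have h0 : ∀ t, 0 ≤ ∏ p ∈ D, f t p := fun t => prod_nonneg fun p _ => (hf1 t p).1
    have h1 := per_avg M hM0 (fun t => ∏ p ∈ D, f t p) hper h0 J
    have h2 : ∑ t ∈ range M, ∏ p ∈ D, f t p = ∏ p ∈ D, β p := by
      rw [hM, crt_prod D hDp (fun p t => f t p)]
      · exact prod_congr rfl fun p hp => hsum p (hD hp)
      · intro p hp t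
        simp only [hf, hE p (hD hp)]
    simp only [h2] at h1
    have h3 : (J:ℝ) * ∏ p ∈ D, δ p = (J:ℝ) / M * ∏ p ∈ D, β p := by
      simp only [hδd]
      rw [prod_div_distrib, hM]
      push_cast
      ring
    rw [h3, one_mul]
    refine h1.trans (prod_le_prod (fun p hp => (hβ p (hD hp)).1) fun p hp => (hβ p (hD hp)).2)
  have hdisj : ∀ i < K, ∀ i' < K, i ≠ i' → Disjoint (Q i) (Q i') := by
    intro i hi i' hi' hne
    exact (PB_disjoint (by omega)).mono inter_subset_right inter_subset_right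
  have hex := rb_expand (range J) P f δ (fun p => (p:ℝ)^2) J 1 hcount Q rr K
    (fun i _ => inter_subset_left) hdisj ∅ (empty_subset _) (fun i _ => disjoint_empty_left _)
  simp only [prod_empty, one_mul] at hex
  -- the indicator
  have h1 : (((range J).filter (fun t => ∀ p ∈ P, ¬ E p t)).card : ℝ) ≤
      ∑ t ∈ range J, ∏ i ∈ range K, tsum' (Q i) (f t) (rr i) := by
    rw [← sum_boole (R := ℝ)]
    refine sum_le_sum fun t _ => ?_
    have hpos : ∀ i, ∏ p ∈ Q i, (1 - f t p) ≤ tsum' (Q i) (f t) (rr i) := by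
      intro i
      have := (bonferroni (Q i) (f t) (fun p _ => hf1 t p) (rr i)).1
      rw [(heven i).neg_one_pow, one_mul] at this
      linarith
    have hnn : ∀ i, 0 ≤ ∏ p ∈ Q i, (1 - f t p) := fun i =>
      prod_nonneg fun p _ => by linarith [(hf1 t p).2]
    split_ifs with hc
    · refine le_trans ?_ (prod_le_prod (fun i _ => hnn i) (fun i _ => hpos i))
      refine le_of_eq ?_
      symm
      refine prod_eq_one fun i hi => prod_eq_one fun p hp => ?_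
      have : f t p = 0 := if_neg (hc p (mem_inter.mp hp).1)
      rw [this, sub_zero]
    · exact prod_nonneg fun i _ => (hnn i).trans (hpos i)
  -- splitting the products
  have hsplit : ∀ F : ℕ → ℝ, ∏ i ∈ range K, F i =
      (∏ i ∈ range (K - r), F i) * ∏ i ∈ range r, F ((K - r) + i) := by
    intro F
    have : K = (K - r) + r := by omega
    conv_lhs => rw [this]
    exact prod_range_add F (K - r) r
  have hl1 : ∀ i ∈ range (K - r), rr i = 2 * (i + 1) := by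
    intro i hi
    simp only [hrr]
    rw [if_pos (mem_range.mp hi)]
  have hs1 : ∀ i ∈ range r, rr ((K - r) + i) = 2 * (i + 1) ∧
      Q ((K - r) + i) = P ∩ PB (r - 1 - i) := by
    intro i hi
    rw [mem_range] at hi
    constructor
    · simp only [hrr]
      rw [if_neg (by omega)]
      congr 2
      omega
    · simp only [hQ]
      congr 2
      omega
  have hmain : ∏ i ∈ range K, tsum' (Q i) δ (rr i) ≤
      Real.exp (Real.exp (2 * κ * Lb)) * Real.exp (-L) *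
        ∏ i ∈ range r, tsum' (P ∩ PB (r - 1 - i)) δ (2 * (i + 1)) := by
    rw [hsplit]
    have e1 : ∏ i ∈ range (K - r), tsum' (Q i) δ (rr i) =
        ∏ i ∈ range (K - r), tsum' (P ∩ PB (K - 1 - i)) δ (2 * (i + 1)) :=
      prod_congr rfl fun i hi => by rw [hl1 i hi]
    have e2 : ∏ i ∈ range r, tsum' (Q ((K - r) + i)) δ (rr ((K - r) + i)) =
        ∏ i ∈ range r, tsum' (P ∩ PB (r - 1 - i)) δ (2 * (i + 1)) :=
      prod_congr rfl fun i hi => by rw [(hs1 i hi).1, (hs1 i hi).2]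
    rw [e1, e2]
    have hnn : 0 ≤ ∏ i ∈ range r, tsum' (P ∩ PB (r - 1 - i)) δ (2 * (i + 1)) :=
      prod_nonneg fun i _ => tsum_even_nonneg _ _ (fun p hp => hδ1 p (mem_inter.mp hp).1) i
    refine mul_le_mul_of_nonneg_right ?_ hnn
    have hm := main_prod κ Lb hκ hLb P K (K - r) δ (by
      intro i hi p hp
      obtain ⟨hp1, hp2⟩ := mem_inter.mp hp
      have hlt : bb r < p := lt_of_le_of_lt (bb_mono (by omega)) (mem_PB.mp hp2).1.1
      have hp0 : (0:ℝ) < p := by exact_mod_cast (hprime p hp1).pos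
      refine ⟨(hδ1 p hp1).1, (hδ1 p hp1).2, ?_⟩
      simp only [hδd]
      rw [div_le_div_iff₀ (by positivity) hp0]
      have := hlarge p hp1 hlt
      nlinarith)
    refine hm.trans ?_
    rw [sum_large P K r hr hP δ]
    refine mul_le_mul_of_nonneg_left ?_ (Real.exp_pos _).le
    exact Real.exp_le_exp.mpr (neg_le_neg hL)
  have herr : ∏ i ∈ range K, Bd (Q i) (fun p => (p:ℝ)^2) (rr i) ≤
      (bb K : ℝ)^32 * (bb r : ℝ)^32 := by
    rw [hsplit]
    have e1 : ∏ i ∈ range (K - r), Bd (Q i) (fun p => (p:ℝ)^2) (rr i) =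
        ∏ i ∈ range (K - r), Bd (P ∩ PB (K - 1 - i)) (fun p => (p:ℝ)^2) (2 * (i + 1)) :=
      prod_congr rfl fun i hi => by rw [hl1 i hi]
    have e2 : ∏ i ∈ range r, Bd (Q ((K - r) + i)) (fun p => (p:ℝ)^2) (rr ((K - r) + i)) =
        ∏ i ∈ range r, Bd (P ∩ PB (r - 1 - i)) (fun p => (p:ℝ)^2) (2 * (i + 1)) :=
      prod_congr rfl fun i hi => by rw [(hs1 i hi).1, (hs1 i hi).2]
    rw [e1, e2]
    refine mul_le_mul (bd_prod 2 P K (K - r) (by omega) _ hprime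
      (fun p _ => ⟨by positivity, le_refl _⟩)) (bd_prod 2 P r r le_rfl _ hprime
      (fun p _ => ⟨by positivity, le_refl _⟩))
      (prod_nonneg fun i _ => Bd_nonneg _ _ (fun p _ => by positivity) _) (by positivity)
  have h2 := (abs_le.mp hex).2
  have h3 := mul_le_mul_of_nonneg_left hmain (Nat.cast_nonneg (α := ℝ) J)
  linarith

/-- the two-stage sieve -/
theorem twostage (κ : ℕ) : ∃ C : ℝ, 0 < C ∧ ∀ (a J K r : ℕ) (Z P : Finset ℕ)
    (E : ℕ → ℕ → ℕ → Prop) (β : ℕ → ℕ → ℝ) (L : ℝ), r ≤ K → Z ⊆ range a →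
    (∀ p ∈ P, p.Prime ∧ 2 < p ∧ p ≤ bb K) →
    (∀ p ∈ P, ∀ z ∈ Z, ∀ t, E p z (t % p^2) ↔ E p z t) →
    (∀ p ∈ P, p ≤ bb r → ∀ z, β p (z % p^2) = β p z) →
    (∀ p ∈ P, ∀ z, 0 ≤ β p z ∧ β p z ≤ (p:ℝ)^2) →
    (∀ p ∈ P, ∀ z ∈ Z, ∑ t ∈ range (p^2), (if E p z t then (1:ℝ) else 0) = β p z) →
    (∀ p ∈ P, bb r < p → ∀ z ∈ Z, β p z ≤ κ * p) →
    (∀ z ∈ Z, L ≤ ∑ p ∈ P.filter (fun p => bb r < p), β p z / (p:ℝ)^2) →
    (∀ p ∈ P, p ≤ bb r → ∑ z ∈ range (p^2), β p z ≤ κ * (p:ℝ)^3) →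
    ((((Z ×ˢ (range J)).filter (fun u => ∀ p ∈ P, ¬ E p u.1 u.2)).card : ℝ) ≤
      C * J * Real.exp (-L) * (a * Real.exp (- ∑ p ∈ P.filter (fun p => p ≤ bb r),
        (∑ z ∈ range (p^2), β p z) / (p:ℝ)^4) + (bb r : ℝ)^32) +
      a * (bb K : ℝ)^32 * (bb r : ℝ)^32) := by
  obtain ⟨C0, hC0, hb⟩ := Pool.Agent.H66.Gol.blk
  set Lb : ℝ := Real.log 2 + C0 with hLb
  have hLbk : ∀ k : ℕ, ∑ l ∈ PB k, (1:ℝ) / l ≤ Lb := fun k => by
    have h := (abs_le.mp (hb k)).2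
    have h1 : (1:ℝ) ≤ 2 ^ k := one_le_pow₀ (by norm_num)
    have : C0 / 2 ^ k ≤ C0 := div_le_self hC0.le h1
    linarith
  have hκ0 : (0:ℝ) ≤ κ := Nat.cast_nonneg _
  set A : ℝ := Real.exp (Real.exp (2 * κ * Lb)) with hA
  have hA1 : 1 ≤ A := by
    rw [hA]
    exact Real.one_le_exp (Real.exp_pos _).le
  refine ⟨A * A, by positivity, ?_⟩
  intro a J K r Z P E β L hr hZ hP hE hβmod hβ hsum hlarge hL hsmall
  have hprime : ∀ p ∈ P, p.Prime := fun p hp => (hP p hp).1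
  set Sm : ℕ → ℝ := fun z => ∏ i ∈ range r,
    tsum' (P ∩ PB (r - 1 - i)) (fun p => β p z / (p:ℝ)^2) (2 * (i + 1)) with hSm
  set d : ℕ → ℝ := fun p => (∑ z ∈ range (p^2), β p z) / (p:ℝ)^4 with hd
  have hδ1 : ∀ z, ∀ p ∈ P, 0 ≤ β p z / (p:ℝ)^2 ∧ β p z / (p:ℝ)^2 ≤ 1 := by
    intro z p hp
    have hp0 : (0:ℝ) < p := by exact_mod_cast (hprime p hp).pos
    refine ⟨div_nonneg (hβ p hp z).1 (by positivity), ?_⟩
    rw [div_le_one (by positivity)]
    exact (hβ p hp z).2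
  have hSm0 : ∀ z, 0 ≤ Sm z := fun z =>
    prod_nonneg fun i _ => tsum_even_nonneg _ _ (fun p hp => hδ1 z p (mem_inter.mp hp).1) i
  -- first stage
  have hst1 : ∀ z ∈ Z, (((range J).filter (fun t => ∀ p ∈ P, ¬ E p z t)).card : ℝ) ≤
      J * (A * Real.exp (-L) * Sm z) + (bb K : ℝ)^32 * (bb r : ℝ)^32 := by
    intro z hz
    exact stage1 κ Lb hκ0 hLbk P J K r hr (fun p t => E p z t) (fun p => β p z) L hP
      (fun p hp t => hE p hp z hz t) (fun p hp => hβ p hp z) (fun p hp => hsum p hp z hz)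
      (fun p hp h => hlarge p hp h z hz) (hL z hz)
  have hcard : ((((Z ×ˢ (range J)).filter (fun u => ∀ p ∈ P, ¬ E p u.1 u.2)).card : ℝ)) =
      ∑ z ∈ Z, (((range J).filter (fun t => ∀ p ∈ P, ¬ E p z t)).card : ℝ) := by
    rw [← sum_boole (R := ℝ), sum_product]
    refine sum_congr rfl fun z _ => ?_
    rw [← sum_boole (R := ℝ)]
  have hZa : (Z.card : ℝ) ≤ a := by
    have := card_le_card hZ
    rw [card_range] at this
    exact_mod_cast this
  have h1 : ((((Z ×ˢ (range J)).filter (fun u => ∀ p ∈ P, ¬ E p u.1 u.2)).card : ℝ)) ≤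
      J * (A * Real.exp (-L) * ∑ z ∈ Z, Sm z) + Z.card * ((bb K : ℝ)^32 * (bb r : ℝ)^32) := by
    rw [hcard]
    refine (sum_le_sum hst1).trans (le_of_eq ?_)
    rw [sum_add_distrib, ← mul_sum, ← mul_sum, sum_const, nsmul_eq_mul]
  have h2 : ∑ z ∈ Z, Sm z ≤ ∑ z ∈ range a, Sm z :=
    sum_le_sum_of_subset_of_nonneg hZ fun z _ _ => hSm0 z
  -- second stage
  set P' : Finset ℕ := P.filter (fun p => p ≤ bb r) with hP'
  have hP'p : ∀ p ∈ P', p.Prime := fun p hp => hprime p (mem_filter.mp hp).1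
  have hcount : ∀ D ⊆ P', |∑ z ∈ range a, ∏ p ∈ D, (β p z / (p:ℝ)^2) - a * ∏ p ∈ D, d p| ≤
      1 * ∏ p ∈ D, (p:ℝ)^2 := by
    intro D hD
    have hDP : ∀ p ∈ D, p ∈ P := fun p hp => (mem_filter.mp (hD hp)).1
    have hDle : ∀ p ∈ D, p ≤ bb r := fun p hp => (mem_filter.mp (hD hp)).2
    have hDp : ∀ p ∈ D, p.Prime := fun p hp => hprime p (hDP p hp)
    set M := ∏ p ∈ D, p^2 with hM
    have hM0 : 0 < M := prod_pos fun p hp => pow_pos (hDp p hp).pos 2
    have hM' : (0:ℝ) < M := by exact_mod_cast hM0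
    have hmodp : ∀ p ∈ D, ∀ z, β p (z % p^2) / (p:ℝ)^2 = β p z / (p:ℝ)^2 := by
      intro p hp z
      rw [hβmod p (hDP p hp) (hDle p hp)]
    have hper : ∀ z, ∏ p ∈ D, (β p (z % M) / (p:ℝ)^2) = ∏ p ∈ D, (β p z / (p:ℝ)^2) := by
      intro z
      refine prod_congr rfl fun p hp => ?_
      have e1 : z % M % p^2 = z % p^2 :=
        Nat.mod_mod_of_dvd z (Finset.dvd_prod_of_mem (fun p => p^2) hp)
      rw [← hmodp p hp (z % M), e1, hmodp p hp]
    have h0 : ∀ z, 0 ≤ ∏ p ∈ D, (β p z / (p:ℝ)^2) := fun z =>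
      prod_nonneg fun p hp => (hδ1 z p (hDP p hp)).1
    have h3 := per_avg M hM0 (fun z => ∏ p ∈ D, (β p z / (p:ℝ)^2)) hper h0 a
    have h4 : ∑ z ∈ range M, ∏ p ∈ D, (β p z / (p:ℝ)^2) =
        ∏ p ∈ D, ∑ z ∈ range (p^2), β p z / (p:ℝ)^2 := by
      rw [hM]
      exact crt_prod D hDp (fun p z => β p z / (p:ℝ)^2) hmodp
    simp only [h4] at h3
    have h5 : (a:ℝ) * ∏ p ∈ D, d p =
        (a:ℝ) / M * ∏ p ∈ D, ∑ z ∈ range (p^2), β p z / (p:ℝ)^2 := by
      have e1 : ∏ p ∈ D, d p = ∏ p ∈ D, ((∑ z ∈ range (p^2), β p z / (p:ℝ)^2) / (p:ℝ)^2) := by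
        refine prod_congr rfl fun p hp => ?_
        have hp0 : (0:ℝ) < p := by exact_mod_cast (hDp p hp).pos
        simp only [hd]
        rw [← sum_div]
        field_simp
      rw [e1, prod_div_distrib, hM]
      push_cast
      ring
    rw [h5, one_mul]
    refine h3.trans (prod_le_prod (fun p hp => sum_nonneg fun z _ => (hδ1 z p (hDP p hp)).1)
      fun p hp => ?_)
    calc ∑ z ∈ range (p^2), β p z / (p:ℝ)^2 ≤ ∑ z ∈ range (p^2), (1:ℝ) :=
          sum_le_sum fun z _ => (hδ1 z p (hDP p hp)).2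
      _ = (p:ℝ)^2 := by rw [sum_const, card_range, nsmul_eq_mul, mul_one]; push_cast; ring
  have hQP' : ∀ i < r, P ∩ PB (r - 1 - i) ⊆ P' := by
    intro i hi p hp
    obtain ⟨hp1, hp2⟩ := mem_inter.mp hp
    rw [hP', mem_filter]
    exact ⟨hp1, (mem_PB.mp hp2).1.2.trans (bb_mono (by omega))⟩
  have hex := rb_expand (range a) P' (fun z p => β p z / (p:ℝ)^2) d (fun p => (p:ℝ)^2) a 1 hcount
    (fun i => P ∩ PB (r - 1 - i)) (fun i => 2 * (i + 1)) r hQP'
    (fun i hi i' hi' hne => (PB_disjoint (by omega)).mono inter_subset_right inter_subset_right)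
    ∅ (empty_subset _) (fun i _ => disjoint_empty_left _)
  simp only [prod_empty, one_mul] at hex
  have hd1 : ∀ p ∈ P', 0 ≤ d p ∧ d p ≤ 1 ∧ d p ≤ κ / p := by
    intro p hp
    obtain ⟨hpP, hple⟩ := mem_filter.mp hp
    have hp0 : (0:ℝ) < p := by exact_mod_cast (hprime p hpP).pos
    have h3 : 0 ≤ ∑ z ∈ range (p^2), β p z := sum_nonneg fun z _ => (hβ p hpP z).1
    refine ⟨div_nonneg h3 (by positivity), ?_, ?_⟩
    · simp only [hd]
      rw [div_le_one (by positivity)]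
      calc ∑ z ∈ range (p^2), β p z ≤ ∑ z ∈ range (p^2), (p:ℝ)^2 :=
            sum_le_sum fun z _ => (hβ p hpP z).2
        _ = (p:ℝ)^4 := by rw [sum_const, card_range, nsmul_eq_mul]; push_cast; ring
    · simp only [hd]
      rw [div_le_div_iff₀ (by positivity) hp0]
      have h4 := hsmall p hpP hple
      have h5 : (κ:ℝ) * (p:ℝ)^4 = κ * (p:ℝ)^3 * p := by ring
      rw [h5]
      exact mul_le_mul_of_nonneg_right h4 hp0.le
  have hm2 := main_prod κ Lb hκ0 hLbk P r r d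
    (fun i hi p hp => hd1 p (hQP' i hi hp))
  rw [sum_small P r (fun p hp => ⟨(hP p hp).1, (hP p hp).2.1⟩) d] at hm2
  have he2 := bd_prod 2 P r r le_rfl (fun p => (p:ℝ)^2) hprime
    (fun p _ => ⟨by positivity, le_refl _⟩)
  have h3 := (abs_le.mp hex).2
  have h4 : ∑ z ∈ range a, Sm z ≤ a * (A * Real.exp (- ∑ p ∈ P', d p)) + (bb r : ℝ)^32 := by
    have h5 := mul_le_mul_of_nonneg_left hm2 (Nat.cast_nonneg (α := ℝ) a)
    have h6 : ∑ z ∈ range a, Sm z ≤ a * ∏ i ∈ range r, tsum' (P ∩ PB (r - 1 - i)) d (2 * (i + 1)) +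
        ∏ i ∈ range r, Bd (P ∩ PB (r - 1 - i)) (fun p => (p:ℝ)^2) (2 * (i + 1)) := by
      linarith
    refine h6.trans ?_
    have h7 : (8 * (2 + 2)) = 32 := by norm_num
    rw [h7] at he2
    linarith
  have hX0 : 0 ≤ Real.exp (- ∑ p ∈ P', d p) := (Real.exp_pos _).le
  set X : ℝ := Real.exp (- ∑ p ∈ P', d p) with hX
  have h5 : ∑ z ∈ Z, Sm z ≤ A * (a * X + (bb r : ℝ)^32) := by
    refine (h2.trans h4).trans ?_
    have h6 : (bb r : ℝ)^32 ≤ A * (bb r : ℝ)^32 := le_mul_of_one_le_left (by positivity) hA1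
    linarith
  have hA0 : 0 ≤ A := by linarith
  have h6 : (J:ℝ) * (A * Real.exp (-L) * ∑ z ∈ Z, Sm z) ≤
      J * (A * Real.exp (-L) * (A * (a * X + (bb r : ℝ)^32))) := by
    refine mul_le_mul_of_nonneg_left (mul_le_mul_of_nonneg_left h5 ?_) (Nat.cast_nonneg _)
    exact mul_nonneg hA0 (Real.exp_pos _).le
  have h7 : (Z.card : ℝ) * ((bb K : ℝ)^32 * (bb r : ℝ)^32) ≤
      a * ((bb K : ℝ)^32 * (bb r : ℝ)^32) :=
    mul_le_mul_of_nonneg_right hZa (by positivity)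
  calc ((((Z ×ˢ (range J)).filter (fun u => ∀ p ∈ P, ¬ E p u.1 u.2)).card : ℝ))
      ≤ J * (A * Real.exp (-L) * (A * (a * X + (bb r : ℝ)^32))) +
        a * ((bb K : ℝ)^32 * (bb r : ℝ)^32) := by linarith
    _ = A * A * J * Real.exp (-L) * (a * X + (bb r : ℝ)^32) +
        a * (bb K : ℝ)^32 * (bb r : ℝ)^32 := by ring

end Pool.Agent.H24.QD
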