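import Mathlib
import Pool.Agent.H24.QD.Df
import Pool.Agent.H24.QD.TwoStage
import Pool.Agent.H24.QD.Lbd
import Pool.Agent.H24.KS.Dens
import Pool.Agent.H24.KS.Accum

/-!
Q3: zone S for fixed `a` and `T`, by the two-stage sieve.
-/

namespace Pool.Agent.H24.QD

open Finset Classical
open Pool.Agent.H12 (Bad b0 xx0 vv0 beta b0_eq nsq nsq_upper beta_nonneg)
open Pool.Agent.H70.SymDes (EvT betaT densT low sum_EvT densT_bounds betaT_nonneg betaT_mod EvT_mod)
open Pool.Agent.H95.Gol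
open Pool.Agent.H24.KS (W SW XD ja kk NSq W_mono mem_W prime_of_mem_W lt_of_mem_W le_of_mem_W
  SW_lower SW_upper SW_nonneg ja_le ja_le_of_lt)

/-- `a xx0 = b0 (a-z) + 1` -/
lemma zs_xx0 {a z : ℕ} (ha : 0 < a) (hz : z < a) (h : Nat.Coprime z a) :
    a * xx0 a z = b0 a z * (a - z) + 1 := by
  have h2 : (b0 a z * z) % a = 1 % a := by
    obtain ⟨c, hc⟩ : ∃ c, c * z ≡ 1 [MOD a] := by
      rcases Nat.lt_or_ge 1 a with h1 | h1
      · obtain ⟨c, _, hc⟩ := Nat.exists_mul_mod_eq_one_of_coprime h h1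
        refine ⟨c, ?_⟩
        unfold Nat.ModEq
        rw [mul_comm, hc, Nat.mod_eq_of_lt h1]
      · have : a = 1 := by omega
        subst this
        exact ⟨0, by unfold Nat.ModEq; simp⟩
    have h1 := b0_eq ha hc
    rw [← h1]
    have : c % a * z ≡ c * z [MOD a] := (Nat.mod_modEq c a).mul_right z
    exact this.trans hc
  unfold xx0
  apply Nat.mul_div_cancel'
  have h3 : b0 a z * (a - z) + 1 + b0 a z * z ≡ 0 + 1 [MOD a] := by
    have e1 : b0 a z * (a - z) + 1 + b0 a z * z = b0 a z * a + 1 := by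
      have : b0 a z * (a - z) + b0 a z * z = b0 a z * a := by
        rw [← mul_add, Nat.sub_add_cancel hz.le]
      omega
    rw [e1]
    exact Nat.ModEq.add_right 1 (by simp [Nat.ModEq])
  have h4 : b0 a z * z ≡ 1 [MOD a] := h2
  have h5 : b0 a z * (a - z) + 1 + 1 ≡ 0 + 1 [MOD a] := (h4.add_left _).symm.trans h3
  have h6 : b0 a z * (a - z) + 1 ≡ 0 [MOD a] := Nat.ModEq.add_right_cancel' 1 h5
  exact (Nat.modEq_zero_iff_dvd).mp h6

/-- the event at `p` -/
def ZSE (T : Finset ℕ) (a r : ℕ) (e : ℤ) (p z t : ℕ) : Prop :=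
  EvT T a e p z (xx0 a z) (vv0 a z) (b0 a z) t ∧ (p ≤ bb r ∨ (¬ p ∣ a ∧ ¬ p ∣ z))

/-- the number of residues in the event -/
noncomputable def ZSB (T : Finset ℕ) (a r : ℕ) (e : ℤ) (p z : ℕ) : ℝ :=
  if (p ≤ bb r ∨ (¬ p ∣ a ∧ ¬ p ∣ z)) then betaT T a e p z else 0

lemma zs_betaT_le (T : Finset ℕ) (a : ℕ) (e : ℤ) (p z : ℕ) (hp : p.Prime) :
    betaT T a e p z ≤ (p:ℝ)^2 := by
  have hf : Fact p.Prime := ⟨hp⟩
  have h2 : (2:ℝ) ≤ p := by exact_mod_cast hp.two_le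
  have hn : (nsq p : ℝ) ≤ p := by exact_mod_cast nsq_upper p
  unfold betaT beta
  by_cases ha : p ∣ a
  · rw [if_pos ha, if_neg (show ¬ (p ∈ T ∧ ¬ p ∣ a ∧ ¬ p ∣ z) from fun h => h.2.1 ha)]
    split_ifs <;> nlinarith
  · rw [if_neg ha]
    by_cases hz : p ∣ z
    · have h3 : ¬ ¬ IsSquare (-(e : ZMod p) * ((a:ZMod p) - z) * z) := by
        rw [not_not]
        have h4 : ((z:ℕ) : ZMod p) = 0 := (ZMod.natCast_eq_zero_iff z p).mpr hz
        rw [h4, mul_zero]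
        exact IsSquare.zero
      rw [if_neg h3, if_neg (show ¬ (p ∈ T ∧ ¬ p ∣ a ∧ ¬ p ∣ z) from fun h => h.2.2 hz)]
      split_ifs <;> nlinarith
    · rw [if_neg (show ¬ (p ∣ z ∧ ¬ p^2 ∣ z) from fun h => hz h.1)]
      split_ifs <;> nlinarith

lemma zs_betaT_small (T : Finset ℕ) (a : ℕ) (e : ℤ) (p z : ℕ) (ha : ¬ p ∣ a)
    (hz : ¬ p ∣ z) : betaT T a e p z =
      (if ¬ IsSquare (-(e : ZMod p) * ((a:ZMod p) - z) * z) then (p:ℝ) - 1 else 0) +
        (if p ∈ T then (p:ℝ) else 0) := by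
  unfold betaT beta
  rw [if_neg ha, if_neg (fun h => hz h.1), zero_add]
  congr 1
  by_cases hT : p ∈ T
  · rw [if_pos ⟨hT, ha, hz⟩, if_pos hT]
  · rw [if_neg (fun h => hT h.1), if_neg hT]

/-- powers of `bb` dominate exponentials -/
lemma zs_pow (r c : ℕ) : (2:ℝ)^(c * r) ≤ (bb r : ℝ)^c := by
  have h1 : (2:ℝ)^r ≤ bb r := by
    unfold bb
    push_cast
    exact pow_le_pow_right₀ (by norm_num) Nat.lt_two_pow_self.le
  calc (2:ℝ)^(c*r) = ((2:ℝ)^r)^c := by rw [← pow_mul, mul_comm]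
    _ ≤ _ := pow_le_pow_left₀ (by positivity) h1 c

lemma zs_exp (n : ℕ) : Real.exp (n * Real.log 2) = (2:ℝ)^n := by
  rw [Real.exp_nat_mul, Real.exp_log (by norm_num)]

/-- splitting of the sum over `T` -/
lemma zs_T_split (T : Finset ℕ) (N : ℕ) : ∑ p ∈ T, (1:ℝ)/p =
    ∑ p ∈ T.filter (fun p => p ≤ N), (1:ℝ)/p + ∑ p ∈ T.filter (fun p => N < p), (1:ℝ)/p := by
  rw [← sum_filter_add_sum_filter_not T (fun p => p ≤ N)]
  congr 1
  apply sum_congr _ fun _ _ => rfl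
  exact filter_congr fun p _ => not_le

/-- the lower bound for the large primes -/
lemma zs_L : ∃ C : ℝ, 0 < C ∧ ∀ (K a z : ℕ) (e : ℤ) (T : Finset ℕ), 2 ≤ a → a < bb K → z < a →
    Nat.Coprime z a → (e = 1 ∨ e = -1) → ¬ IsSquare (dd a z e) → T ⊆ Ua K a →
    (1/2) * ((K:ℝ) - ja a) * Real.log 2 +
      ∑ p ∈ T.filter (fun p => bb (ja a - 6) < p), (1:ℝ)/p - C ≤
      ∑ p ∈ (W 0 K).filter (fun p => bb (ja a - 6) < p), ZSB T a (ja a - 6) e p z / (p:ℝ)^2 := by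
  obtain ⟨C1, hC1, h1⟩ := lbd
  obtain ⟨C2, hC2, h2⟩ := lbd_few
  refine ⟨C1 + C2 + 1, by positivity, ?_⟩
  intro K a z e T ha haK hz hcop he hE hT
  have hz0 : 0 < z := by
    rcases Nat.eq_zero_or_pos z with h | h
    · subst h
      exfalso; apply hE
      unfold dd
      simp
    · exact h
  have hja : ja a ≤ K := ja_le_of_lt ha haK
  set r := ja a - 6 with hr
  have hrK : r ≤ K := by omega
  have h3 := h1 K a z e ha hz hcop he hE hrK
  have h4 := h2 K a z ha hz0 hz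
  rw [← hr] at h3 h4
  have hW : (W 0 K).filter (fun p => bb r < p) = W r K := by
    ext p
    rw [mem_filter, mem_W (Nat.zero_le _), mem_W hrK]
    constructor
    · rintro ⟨⟨g1, _, g3⟩, g4⟩; exact ⟨g1, g4, g3⟩
    · rintro ⟨g1, g2, g3⟩
      have := bb_mono (Nat.zero_le r)
      exact ⟨⟨g1, by omega, g3⟩, g2⟩
  rw [hW]
  -- restrict
  set V := (W r K).filter (fun p => ¬ p ∣ a ∧ ¬ p ∣ z) with hV
  have h5 : ∑ p ∈ V, ZSB T a r e p z / (p:ℝ)^2 ≤ ∑ p ∈ W r K, ZSB T a r e p z / (p:ℝ)^2 := by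
    apply sum_le_sum_of_subset_of_nonneg (filter_subset _ _)
    intro p hp _
    apply div_nonneg _ (by positivity)
    unfold ZSB
    split_ifs
    · exact betaT_nonneg T a e p z (prime_of_mem_W hp)
    · exact le_rfl
  refine le_trans ?_ h5
  have h6 : ∀ p ∈ V, (if ¬ IsSquare (-(e : ZMod p) * ((a:ZMod p) - z) * z) then (1:ℝ) else 0) / p +
      (if p ∈ T then (1:ℝ)/p else 0) - (1:ℝ)/(p:ℝ)^2 ≤ ZSB T a r e p z / (p:ℝ)^2 := by
    intro p hp
    rw [hV, mem_filter] at hp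
    obtain ⟨hpW, hpa, hpz⟩ := hp
    have hpp := prime_of_mem_W hpW
    have hp0 : (0:ℝ) < p := by exact_mod_cast hpp.pos
    unfold ZSB
    rw [if_pos (Or.inr ⟨hpa, hpz⟩), zs_betaT_small T a e p z hpa hpz, le_div_iff₀ (by positivity)]
    have e1 : (((if ¬ IsSquare (-(e : ZMod p) * ((a:ZMod p) - z) * z) then (1:ℝ) else 0) / p +
      (if p ∈ T then (1:ℝ)/p else 0) - (1:ℝ)/(p:ℝ)^2)) * (p:ℝ)^2 =
      (if ¬ IsSquare (-(e : ZMod p) * ((a:ZMod p) - z) * z) then (1:ℝ) else 0) * p +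
      (if p ∈ T then (p:ℝ) else 0) - 1 := by
      split_ifs <;> field_simp <;> ring
    rw [e1]
    split_ifs <;> linarith
  have h7 := sum_le_sum h6
  rw [sum_sub_distrib, sum_add_distrib] at h7
  have h8 : ∑ p ∈ V, (1:ℝ)/(p:ℝ)^2 ≤ 1 := sum_inv_sq_le V (fun l hl => by
    rw [hV, mem_filter] at hl
    exact (prime_of_mem_W hl.1).two_le)
  have h9 : ∑ p ∈ T.filter (fun p => bb r < p), (1:ℝ)/p ≤
      ∑ p ∈ V, (if p ∈ T then (1:ℝ)/p else 0) +
      ∑ p ∈ (W r K).filter (fun p => p ∣ a * z * (a - z)), (1:ℝ)/p := by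
    rw [← sum_filter]
    have hsub : T.filter (fun p => bb r < p) ⊆ V.filter (fun p => p ∈ T) ∪
        (W r K).filter (fun p => p ∣ a * z * (a - z)) := by
      intro p hp
      rw [mem_filter] at hp
      have hpU := hT hp.1
      unfold Ua at hpU
      rw [mem_filter, mem_W (Nat.zero_le _)] at hpU
      obtain ⟨⟨g1, g2, g3⟩, g4⟩ := hpU
      have g5 : bb (K - 10) ≤ bb K := bb_mono (by omega)
      have hpW : p ∈ W r K := (mem_W hrK).mpr ⟨g1, hp.2, by omega⟩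
      rw [mem_union]
      by_cases hpz : p ∣ z
      · right
        rw [mem_filter]
        exact ⟨hpW, Dvd.dvd.mul_right (Dvd.dvd.mul_left hpz a) _⟩
      · left
        rw [mem_filter, hV, mem_filter]
        exact ⟨⟨hpW, g4, hpz⟩, hp.1⟩
    refine (sum_le_sum_of_subset_of_nonneg hsub fun _ _ _ => by positivity).trans ?_
    rw [← sum_union_inter]
    have : (0:ℝ) ≤ ∑ p ∈ V.filter (fun p => p ∈ T) ∩
        (W r K).filter (fun p => p ∣ a * z * (a - z)), (1:ℝ)/p :=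
      sum_nonneg fun _ _ => by positivity
    linarith
  linarith

/-- the small primes -/
lemma zs_S : ∃ C : ℝ, 0 < C ∧ ∀ (K a : ℕ) (e : ℤ) (T : Finset ℕ), 2 ≤ a → a < bb K →
    (e = 1 ∨ e = -1) → T ⊆ Ua K a →
    ((ja a : ℝ) - 6) * Real.log 2 + ∑ p ∈ T.filter (fun p => p ≤ bb (ja a - 6)), (1:ℝ)/p - C ≤
      ∑ p ∈ (W 0 K).filter (fun p => p ≤ bb (ja a - 6)),
        (∑ z ∈ range (p^2), ZSB T a (ja a - 6) e p z) / (p:ℝ)^4 := by
  obtain ⟨C2, hC2, hlow⟩ := SW_lower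
  refine ⟨C2 + 4, by positivity, ?_⟩
  intro K a e T ha haK he hT
  have hl2 : 0 ≤ Real.log 2 := Real.log_nonneg (by norm_num)
  have hja : ja a ≤ K := ja_le_of_lt ha haK
  set r := ja a - 6 with hr
  have hrK : r ≤ K := by omega
  have hW : (W 0 K).filter (fun p => p ≤ bb r) = W 0 r := by
    ext p
    rw [mem_filter, mem_W (Nat.zero_le _), mem_W (Nat.zero_le _)]
    constructor
    · rintro ⟨⟨g1, g2, _⟩, g4⟩; exact ⟨g1, g2, g4⟩
    · rintro ⟨g1, g2, g3⟩
      have := bb_mono hrK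
      exact ⟨⟨g1, g2, by omega⟩, g3⟩
  rw [hW]
  have hTa : ∀ p ∈ T, ¬ p ∣ a := by
    intro p hp
    have := hT hp
    unfold Ua at this
    rw [mem_filter] at this
    exact this.2
  have h1 : ∀ p ∈ W 0 r, (1:ℝ)/p + (if p ∈ T then (1:ℝ)/p else 0) - 4 * ((1:ℝ)/(p:ℝ)^2) ≤
      (∑ z ∈ range (p^2), ZSB T a r e p z) / (p:ℝ)^4 := by
    intro p hp
    have hpp := prime_of_mem_W hp
    have hple := le_of_mem_W hp
    have hpgt := lt_of_mem_W hp
    have hp2 : p ≠ 2 := by have := two_le_bb 0; omega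
    have h2 : ∑ z ∈ range (p^2), ZSB T a r e p z = ∑ z ∈ range (p^2), betaT T a e p z := by
      refine sum_congr rfl fun z _ => ?_
      unfold ZSB
      rw [if_pos (Or.inl hple)]
    rw [h2]
    have h3 := (densT_bounds T a e he p hpp hp2 (hTa p)).2.2.2
    unfold densT at h3
    refine le_trans ?_ h3
    unfold low
    have hp0 : (0:ℝ) < p := by exact_mod_cast hpp.pos
    have h4 : (0:ℝ) ≤ 1/(p:ℝ)^2 := by positivity
    split_ifs
    · have e1 : 2/(p:ℝ) - 4/(p:ℝ)^2 = 1/(p:ℝ) + 1/p - 4 * (1/(p:ℝ)^2) := by ring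
      rw [e1]
    · have e1 : 1/(p:ℝ) - 3/(p:ℝ)^2 = 1/(p:ℝ) + 0 - 4 * (1/(p:ℝ)^2) + 1/(p:ℝ)^2 := by ring
      rw [e1]; linarith
  have h2 := sum_le_sum h1
  rw [sum_sub_distrib, sum_add_distrib, ← mul_sum] at h2
  have h3 : ∑ p ∈ W 0 r, (1:ℝ)/(p:ℝ)^2 ≤ 1 := sum_inv_sq_le _ (fun l hl =>
    (prime_of_mem_W hl).two_le)
  have h4 := hlow 0 r
  unfold SW at h4
  have h5 : ((ja a : ℝ) - 6) * Real.log 2 ≤ ((r:ℝ) - (0:ℕ)) * Real.log 2 := by
    apply mul_le_mul_of_nonneg_right _ hl2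
    have : ja a ≤ r + 6 := by omega
    have : (ja a : ℝ) ≤ r + 6 := by exact_mod_cast this
    push_cast
    linarith
  have h6 : ∑ p ∈ T.filter (fun p => p ≤ bb r), (1:ℝ)/p ≤
      ∑ p ∈ W 0 r, (if p ∈ T then (1:ℝ)/p else 0) := by
    rw [← sum_filter]
    apply sum_le_sum_of_subset_of_nonneg
    · intro p hp
      rw [mem_filter] at hp
      have hpU := hT hp.1
      unfold Ua at hpU
      rw [mem_filter, mem_W (Nat.zero_le _)] at hpU
      rw [mem_filter, mem_W (Nat.zero_le _)]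
      exact ⟨⟨hpU.1.1, hpU.1.2.1, hp.2⟩, hp.1⟩
    · intro _ _ _; positivity
  simp only [Nat.cast_zero, sub_zero] at h4 h5
  generalize (∑ p ∈ W 0 r, (if p ∈ T then (1:ℝ)/p else 0)) = g1 at h2 h6
  generalize (∑ p ∈ T.filter (fun p => p ≤ bb r), (1:ℝ)/p) = g2 at h6 ⊢
  generalize (∑ p ∈ W 0 r, (1:ℝ)/p) = g3 at h2 h4
  generalize (∑ p ∈ W 0 r, (1:ℝ)/(p:ℝ)^2) = g4 at h2 h3
  linarith

/-- the counting inequality from the two-stage sieve -/
lemma zs_count : ∃ C : ℝ, 0 < C ∧ ∀ (K X a : ℕ) (e : ℤ) (T : Finset ℕ), 2 ≤ a → a < bb K →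
    (e = 1 ∨ e = -1) → T ⊆ Ua K a →
    ((GT K X a e T).card : ℝ) ≤
      C * ((X / a^2 + 1 : ℕ) : ℝ) * Real.exp (-((1/2) * ((K:ℝ) - ja a) * Real.log 2 +
        ∑ p ∈ T.filter (fun p => bb (ja a - 6) < p), (1:ℝ)/p)) *
      (a * Real.exp (-(((ja a : ℝ) - 6) * Real.log 2 +
        ∑ p ∈ T.filter (fun p => p ≤ bb (ja a - 6)), (1:ℝ)/p)) + (bb (ja a - 6) : ℝ)^32) +
      a * (bb K : ℝ)^32 * (bb (ja a - 6) : ℝ)^32 := by
  obtain ⟨C0, hC0, h0⟩ := twostage 3
  obtain ⟨C1, hC1, h1⟩ := zs_L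
  obtain ⟨C2, hC2, h2⟩ := zs_S
  refine ⟨C0 * Real.exp C1 * Real.exp C2, by positivity, ?_⟩
  intro K X a e T ha haK he hT
  have hja : ja a ≤ K := ja_le_of_lt ha haK
  set r := ja a - 6 with hr
  have hrK : r ≤ K := by omega
  have ha0 : 0 < a := by omega
  have hTa : ∀ p ∈ T, ¬ p ∣ a := by
    intro p hp
    have := hT hp
    unfold Ua at this
    rw [mem_filter] at this
    exact this.2
  set Z := (range a).filter (fun z => Nat.Coprime z a ∧ ¬ IsSquare (dd a z e)) with hZ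
  set S1 := ∑ p ∈ T.filter (fun p => bb r < p), (1:ℝ)/p with hS1
  set S2 := ∑ p ∈ T.filter (fun p => p ≤ bb r), (1:ℝ)/p with hS2
  have key := h0 a (X / a^2 + 1) K r Z (W 0 K) (ZSE T a r e) (ZSB T a r e)
    ((1/2) * ((K:ℝ) - ja a) * Real.log 2 + S1 - C1) hrK (filter_subset _ _) ?_ ?_ ?_ ?_ ?_ ?_ ?_ ?_
  · have hcard : (GT K X a e T).card ≤
        ((Z ×ˢ (range (X / a^2 + 1))).filter (fun u => ∀ p ∈ W 0 K, ¬ ZSE T a r e p u.1 u.2)).card := by
      apply card_le_card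
      intro u hu
      unfold GT GS at hu
      rw [mem_filter, mem_filter, mem_product] at hu
      obtain ⟨⟨⟨g1, g2⟩, g3, g4, g5⟩, g6⟩ := hu
      rw [mem_filter, mem_product, hZ, mem_filter]
      refine ⟨⟨⟨g1, g3, g4⟩, g2⟩, ?_⟩
      rintro p hp ⟨hE, _⟩
      rcases hE with hE | hE
      · exact g5 p hp hE
      · exact g6 p hE.1 hE.2.2.2
    have hcard' : ((GT K X a e T).card : ℝ) ≤ (((Z ×ˢ (range (X / a^2 + 1))).filter
        (fun u => ∀ p ∈ W 0 K, ¬ ZSE T a r e p u.1 u.2)).card : ℝ) := by exact_mod_cast hcard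
    refine hcard'.trans (key.trans ?_)
    apply add_le_add_left
    have hJ0 : (0:ℝ) ≤ ((X / a^2 + 1 : ℕ) : ℝ) := Nat.cast_nonneg _
    have e1 : Real.exp (-((1/2) * ((K:ℝ) - ja a) * Real.log 2 + S1 - C1)) =
        Real.exp C1 * Real.exp (-((1/2) * ((K:ℝ) - ja a) * Real.log 2 + S1)) := by
      rw [← Real.exp_add]; congr 1; ring
    rw [e1]
    have e2 := h2 K a e T ha haK he hT
    rw [← hr, ← hS2] at e2
    have e3 : Real.exp (- ∑ p ∈ (W 0 K).filter (fun p => p ≤ bb r),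
        (∑ z ∈ range (p^2), ZSB T a r e p z) / (p:ℝ)^4) ≤
        Real.exp C2 * Real.exp (-(((ja a : ℝ) - 6) * Real.log 2 + S2)) := by
      rw [← Real.exp_add]
      apply Real.exp_le_exp.mpr
      linarith
    have e4 : (1:ℝ) ≤ Real.exp C2 := Real.one_le_exp hC2.le
    have e5 : (a:ℝ) * Real.exp (- ∑ p ∈ (W 0 K).filter (fun p => p ≤ bb r),
        (∑ z ∈ range (p^2), ZSB T a r e p z) / (p:ℝ)^4) + (bb r : ℝ)^32 ≤
        Real.exp C2 * (a * Real.exp (-(((ja a : ℝ) - 6) * Real.log 2 + S2)) + (bb r : ℝ)^32) := by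
      have f1 : (a:ℝ) * Real.exp (- ∑ p ∈ (W 0 K).filter (fun p => p ≤ bb r),
        (∑ z ∈ range (p^2), ZSB T a r e p z) / (p:ℝ)^4) ≤
        a * (Real.exp C2 * Real.exp (-(((ja a : ℝ) - 6) * Real.log 2 + S2))) :=
        mul_le_mul_of_nonneg_left e3 (Nat.cast_nonneg _)
      have f2 : (bb r : ℝ)^32 ≤ Real.exp C2 * (bb r : ℝ)^32 :=
        le_mul_of_one_le_left (by positivity) e4
      calc _ ≤ a * (Real.exp C2 * Real.exp (-(((ja a : ℝ) - 6) * Real.log 2 + S2))) +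
            Real.exp C2 * (bb r : ℝ)^32 := add_le_add f1 f2
        _ = _ := by ring
    calc _ ≤ C0 * ((X / a^2 + 1 : ℕ) : ℝ) *
          (Real.exp C1 * Real.exp (-((1/2) * ((K:ℝ) - ja a) * Real.log 2 + S1))) *
          (Real.exp C2 * (a * Real.exp (-(((ja a : ℝ) - 6) * Real.log 2 + S2)) + (bb r : ℝ)^32)) :=
          mul_le_mul_of_nonneg_left e5 (by positivity)
      _ = _ := by ring
  · intro p hp
    refine ⟨prime_of_mem_W hp, ?_, le_of_mem_W hp⟩
    have := lt_of_mem_W hp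
    have := two_le_bb 0
    omega
  · intro p _ z _ t
    unfold ZSE
    rw [EvT_mod]
  · intro p hp hpr z
    unfold ZSB
    rw [if_pos (Or.inl hpr), if_pos (Or.inl hpr), betaT_mod]
  · intro p hp z
    unfold ZSB
    split_ifs
    · exact ⟨betaT_nonneg T a e p z (prime_of_mem_W hp),
        zs_betaT_le T a e p z (prime_of_mem_W hp)⟩
    · exact ⟨le_rfl, by positivity⟩
  · intro p hp z hz
    rw [hZ, mem_filter, mem_range] at hz
    obtain ⟨hz1, hz2, _⟩ := hz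
    have hpp := prime_of_mem_W hp
    have hx := zs_xx0 ha0 hz1 hz2
    unfold ZSB
    by_cases hc : (p ≤ bb r ∨ (¬ p ∣ a ∧ ¬ p ∣ z))
    · rw [if_pos hc, ← sum_EvT T a e he p z (xx0 a z) (vv0 a z) (b0 a z) hpp hz1]
      · refine sum_congr rfl fun t _ => ?_
        have : ZSE T a r e p z t ↔ EvT T a e p z (xx0 a z) (vv0 a z) (b0 a z) t := by
          unfold ZSE
          exact ⟨fun h => h.1, fun h => ⟨h, hc⟩⟩
        simp only [this]
      · rintro _ t ⟨g1, g2⟩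
        have g3 : a * ((a - z) * t + xx0 a z) = (a * t + b0 a z) * (a - z) + 1 := by
          rw [mul_add, hx]; ring
        have g4 : p ∣ (a * t + b0 a z) * (a - z) + 1 := by
          rw [← g3]; exact Dvd.dvd.mul_left g1 a
        have g5 : p ∣ 1 := (Nat.dvd_add_right (Dvd.dvd.mul_right g2 (a - z))).mp g4
        exact hpp.one_lt.ne' (Nat.dvd_one.mp g5)
    · rw [if_neg hc]
      apply sum_eq_zero
      intro t _
      rw [if_neg]
      rintro ⟨_, h⟩
      exact hc h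
  · intro p hp hpr z _
    have hpp := prime_of_mem_W hp
    have hp0 : (1:ℝ) < p := by exact_mod_cast hpp.one_lt
    unfold ZSB
    split_ifs with hc
    · rcases hc with hc | hc
      · omega
      · rw [zs_betaT_small T a e p z hc.1 hc.2]
        push_cast
        split_ifs <;> linarith
    · push_cast
      linarith
  · intro z hz
    rw [hZ, mem_filter, mem_range] at hz
    exact h1 K a z e T ha haK hz.1 hz.2.1 he hz.2.2 hT
  · intro p hp hpr
    have hpp := prime_of_mem_W hp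
    have hp2 : p ≠ 2 := by
      have := lt_of_mem_W hp
      have := two_le_bb 0
      omega
    have h2 : ∑ z ∈ range (p^2), ZSB T a r e p z = ∑ z ∈ range (p^2), betaT T a e p z := by
      refine sum_congr rfl fun z _ => ?_
      unfold ZSB
      rw [if_pos (Or.inl hpr)]
    rw [h2]
    have h3 := (densT_bounds T a e he p hpp hp2 (hTa p)).2.2.1
    unfold densT at h3
    have hp0 : (0:ℝ) < p := by exact_mod_cast hpp.pos
    rw [div_le_div_iff₀ (by positivity) hp0] at h3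
    push_cast
    have e1 : (3:ℝ) * (p:ℝ)^4 = 3 * (p:ℝ)^3 * p := by ring
    rw [e1] at h3
    exact le_of_mul_le_mul_right h3 hp0

/-- zone S for fixed `a` and `T` -/
theorem zS_T : ∃ C : ℝ, 0 < C ∧ ∀ (K X a : ℕ) (e : ℤ) (T : Finset ℕ), 2000 ≤ K →
    bb (K+6) ≤ X → 2 ≤ a → a < bb K → (e = 1 ∨ e = -1) → T ⊆ Ua K a →
    ((GT K X a e T).card : ℝ) ≤ C * (X / a) *
      Real.exp (-((1/2) * ja a + (1/2) * K) * Real.log 2 - ∑ p ∈ T, (1:ℝ)/p) := by
  obtain ⟨C1, hC1, h1⟩ := zs_count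
  obtain ⟨C2, hC2, hup⟩ := SW_upper
  refine ⟨C1 * 128 * (1 + 2^32 * Real.exp C2) + Real.exp C2, by positivity, ?_⟩
  intro K X a e T hK hX ha haK he hT
  have hl2 : 0 ≤ Real.log 2 := Real.log_nonneg (by norm_num)
  have hja : ja a ≤ K := ja_le_of_lt ha haK
  have hja' : (ja a : ℝ) ≤ K := by exact_mod_cast hja
  have hcnt := h1 K X a e T ha haK he hT
  set r := ja a - 6 with hr
  have hrK : r ≤ K := by omega
  set S1 := ∑ p ∈ T.filter (fun p => bb r < p), (1:ℝ)/p with hS1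
  set S2 := ∑ p ∈ T.filter (fun p => p ≤ bb r), (1:ℝ)/p with hS2
  have hS : ∑ p ∈ T, (1:ℝ)/p = S2 + S1 := zs_T_split T (bb r)
  have hS2b : S2 ≤ r * Real.log 2 + C2 := by
    have e1 : S2 ≤ SW 0 r := by
      rw [hS2]
      unfold SW
      apply sum_le_sum_of_subset_of_nonneg
      · intro p hp
        rw [mem_filter] at hp
        have hpU := hT hp.1
        unfold Ua at hpU
        rw [mem_filter, mem_W (Nat.zero_le _)] at hpU
        rw [mem_W (Nat.zero_le _)]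
        exact ⟨hpU.1.1, hpU.1.2.1, hp.2⟩
      · intro _ _ _; positivity
    have e2 := hup 0 r (Nat.zero_le _)
    push_cast at e2
    linarith
  have hSb : ∑ p ∈ T, (1:ℝ)/p ≤ K * Real.log 2 + C2 := by
    have e1 : ∑ p ∈ T, (1:ℝ)/p ≤ SW 0 K := by
      unfold SW
      apply sum_le_sum_of_subset_of_nonneg
      · intro p hp
        have hpU := hT hp
        unfold Ua at hpU
        rw [mem_filter] at hpU
        exact W_mono le_rfl (by omega) hpU.1
      · intro _ _ _; positivity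
    have e2 := hup 0 K (Nat.zero_le _)
    push_cast at e2
    linarith
  have ha0 : (0:ℝ) < a := by exact_mod_cast (by omega : 0 < a)
  have hb1 : (1:ℝ) ≤ bb r := by exact_mod_cast bb_pos r
  have hbK1 : (1:ℝ) ≤ bb K := by exact_mod_cast bb_pos K
  set E0 := Real.exp (-((1/2) * (ja a : ℝ) + (1/2) * K) * Real.log 2 - ∑ p ∈ T, (1:ℝ)/p) with hE0
  have hE0' : 0 < E0 := Real.exp_pos _
  set A := (1/2) * ((K:ℝ) - ja a) * Real.log 2 + S1 with hA
  set B := ((ja a : ℝ) - 6) * Real.log 2 + S2 with hB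
  have hAB : Real.exp (-A) * Real.exp (-B) = 64 * E0 := by
    have e1 : (64:ℝ) = Real.exp ((6:ℕ) * Real.log 2) := by rw [zs_exp]; norm_num
    rw [e1, hE0, ← Real.exp_add, ← Real.exp_add]
    congr 1
    rw [hS, hA, hB]
    push_cast
    ring
  -- the powers of `bb r`
  have hpow : (bb r : ℝ)^32 ≤ 2^32 * Real.exp C2 * (a * Real.exp (-B)) := by
    rcases Nat.lt_or_ge (ja a) 6 with h | h
    · have hr0 : r = 0 := by omega
      have e1 : (bb r : ℝ) = 2 := by rw [hr0]; norm_num [bb]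
      have e2 : B ≤ C2 := by
        rw [hr0] at hS2b
        have e3 : ((ja a : ℝ) - 6) * Real.log 2 ≤ 0 := by
          apply mul_nonpos_of_nonpos_of_nonneg _ hl2
          have : (ja a : ℝ) ≤ 6 := by exact_mod_cast h.le
          linarith
        rw [hB]
        push_cast at hS2b
        linarith
      have e4 : Real.exp (-C2) ≤ Real.exp (-B) := Real.exp_le_exp.mpr (by linarith)
      have e5 : (1:ℝ) ≤ a := by exact_mod_cast (by omega : 1 ≤ a)
      rw [e1]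
      have e6 : Real.exp C2 * Real.exp (-C2) = 1 := by rw [← Real.exp_add]; simp
      calc (2:ℝ)^32 = 2^32 * (Real.exp C2 * (1 * Real.exp (-C2))) := by rw [one_mul, e6, mul_one]
        _ ≤ 2^32 * (Real.exp C2 * (a * Real.exp (-B))) := by gcongr
        _ = _ := by ring
    · have hr6 : r + 6 = ja a := by omega
      have e1 : (bb r : ℝ)^64 ≤ a := by
        have e2 := ja_le a ha
        rw [← hr6, KS.bb_add] at e2
        exact_mod_cast e2
      have e2 : B ≤ (2 * r : ℕ) * Real.log 2 + C2 := by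
        rw [hB]
        have : (ja a : ℝ) = r + 6 := by exact_mod_cast hr6.symm
        rw [this]
        push_cast
        linarith
      have e3 : Real.exp (-((2 * r : ℕ) * Real.log 2 + C2)) ≤ Real.exp (-B) :=
        Real.exp_le_exp.mpr (by linarith)
      have e4 : Real.exp (-((2 * r : ℕ) * Real.log 2 + C2)) * (Real.exp C2 * 2^(2*r)) = 1 := by
        rw [← zs_exp (2*r), ← Real.exp_add, ← Real.exp_add]
        rw [show -((2 * r : ℕ) * Real.log 2 + C2) + (C2 + (2 * r : ℕ) * Real.log 2) = 0 by ring,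
          Real.exp_zero]
      have e5 := zs_pow r 2
      have e6 : (1:ℝ) ≤ (bb r : ℝ)^30 := one_le_pow₀ hb1
      have e7 : (1:ℝ) ≤ 2^32 := by norm_num
      calc (bb r : ℝ)^32 = (bb r : ℝ)^32 *
            (Real.exp (-((2 * r : ℕ) * Real.log 2 + C2)) * (Real.exp C2 * 2^(2*r))) := by
            rw [e4, mul_one]
        _ ≤ (bb r : ℝ)^32 * (Real.exp (-B) * (Real.exp C2 * (bb r : ℝ)^2)) := by gcongr
        _ = 1 * Real.exp C2 * (((bb r : ℝ)^34 * 1) * Real.exp (-B)) := by ring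
        _ ≤ 2^32 * Real.exp C2 * (((bb r : ℝ)^34 * (bb r : ℝ)^30) * Real.exp (-B)) := by gcongr
        _ = 2^32 * Real.exp C2 * ((bb r : ℝ)^64 * Real.exp (-B)) := by ring
        _ ≤ 2^32 * Real.exp C2 * (a * Real.exp (-B)) := by gcongr
  -- the size of `X`
  have hX64 : (bb K : ℝ)^64 ≤ X := by
    have e2 := hX
    rw [KS.bb_add] at e2
    exact_mod_cast e2
  have haK' : (a:ℝ) ≤ bb K := by exact_mod_cast haK.le
  have hJ : ((X / a^2 + 1 : ℕ) : ℝ) ≤ 2 * (X / (a:ℝ)^2) := by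
    have e1 : ((X / a^2 : ℕ) : ℝ) ≤ (X:ℝ) / ((a^2 : ℕ) : ℝ) := Nat.cast_div_le
    have e2 : (1:ℝ) ≤ (X:ℝ) / (a:ℝ)^2 := by
      rw [le_div_iff₀ (by positivity), one_mul]
      calc (a:ℝ)^2 ≤ (bb K : ℝ)^2 := pow_le_pow_left₀ ha0.le haK' 2
        _ ≤ (bb K : ℝ)^64 := pow_le_pow_right₀ hbK1 (by norm_num)
        _ ≤ X := hX64
    push_cast at e1 ⊢
    linarith
  have hmain : C1 * ((X / a^2 + 1 : ℕ) : ℝ) * Real.exp (-A) *
      (a * Real.exp (-B) + (bb r : ℝ)^32) ≤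
      C1 * 128 * (1 + 2^32 * Real.exp C2) * (X / a) * E0 := by
    have e1 : (a * Real.exp (-B) + (bb r : ℝ)^32) ≤
        (1 + 2^32 * Real.exp C2) * (a * Real.exp (-B)) := by linarith
    calc _ ≤ C1 * (2 * (X / (a:ℝ)^2)) * Real.exp (-A) *
          ((1 + 2^32 * Real.exp C2) * (a * Real.exp (-B))) := by gcongr
      _ = C1 * 2 * (1 + 2^32 * Real.exp C2) * (X / (a:ℝ)^2 * a) *
          (Real.exp (-A) * Real.exp (-B)) := by ring
      _ = C1 * 2 * (1 + 2^32 * Real.exp C2) * (X / (a:ℝ)^2 * a) * (64 * E0) := by rw [hAB]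
      _ = C1 * 2 * (1 + 2^32 * Real.exp C2) * (X / (a:ℝ)) * (64 * E0) := by
          congr 2
          field_simp
      _ = _ := by ring
  have hthird : (a:ℝ) * (bb K : ℝ)^32 * (bb r : ℝ)^32 ≤ Real.exp C2 * (X / a) * E0 := by
    have e1 : (bb r : ℝ)^32 ≤ bb K := by
      have e2 : bb (r + 5) ≤ bb K := bb_mono (by omega)
      rw [KS.bb_add] at e2
      exact_mod_cast e2
    have e2 : Real.exp (-((2 * K : ℕ) * Real.log 2 + C2)) ≤ E0 := by
      rw [hE0]
      apply Real.exp_le_exp.mpr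
      push_cast
      have := mul_le_mul_of_nonneg_right hja' hl2
      nlinarith
    have e4 : Real.exp (-((2 * K : ℕ) * Real.log 2 + C2)) * (Real.exp C2 * 2^(2*K)) = 1 := by
      rw [← zs_exp (2*K), ← Real.exp_add, ← Real.exp_add]
      rw [show -((2 * K : ℕ) * Real.log 2 + C2) + (C2 + (2 * K : ℕ) * Real.log 2) = 0 by ring,
        Real.exp_zero]
    have e5 := zs_pow K 2
    have e6 : (1:ℝ) ≤ (bb K : ℝ)^27 := one_le_pow₀ hbK1
    rw [mul_div_assoc', div_mul_eq_mul_div, le_div_iff₀ ha0]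
    calc (a:ℝ) * (bb K : ℝ)^32 * (bb r : ℝ)^32 * a
        ≤ bb K * (bb K : ℝ)^32 * bb K * bb K := by gcongr
      _ = (bb K : ℝ)^35 * 1 *
            (Real.exp (-((2 * K : ℕ) * Real.log 2 + C2)) * (Real.exp C2 * 2^(2*K))) := by
          rw [e4]; ring
      _ ≤ (bb K : ℝ)^35 * (bb K : ℝ)^27 * (E0 * (Real.exp C2 * (bb K : ℝ)^2)) := by gcongr
      _ = Real.exp C2 * (bb K : ℝ)^64 * E0 := by ring
      _ ≤ Real.exp C2 * X * E0 := by gcongr
  refine hcnt.trans ?_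
  calc _ ≤ C1 * 128 * (1 + 2^32 * Real.exp C2) * (X / a) * E0 +
        Real.exp C2 * (X / a) * E0 := add_le_add hmain hthird
    _ = _ := by ring

end Pool.Agent.H24.QD
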