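import Mathlib
import Pool.Agent.H24.QD.Df
import Pool.Agent.H24.QD.ZST
import Pool.Agent.H24.QD.ZLT
import Pool.Agent.H24.QD.Wexp
import Pool.Agent.H24.QD.Bsum

/-!
Module Q7: the total weighted number of triples.
-/

namespace Pool.Agent.H24.QD

open Finset Classical
open Pool.Agent.H12 (Bad b0 xx0 vv0 beta)
open Pool.Agent.H95.Gol
open Pool.Agent.H24.KS (W SW XD ja kk NSq)

/-- the weighted count for one `a` -/
lemma total_ws_le (θ : ℝ) (h0 : 0 ≤ θ) (h1 : θ ≤ 1) {M K X a : ℕ} {e : ℤ} {B C5 : ℝ}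
    (hB : 0 ≤ B)
    (hG : ∀ T ⊆ Ua K a, ((GT M X a e T).card : ℝ) ≤ B * Real.exp (-∑ p ∈ T, (1:ℝ)/p))
    (h5 : ∑ T ∈ (Ua K a).powerset, (1 - θ)^T.card * θ^(Ua K a \ T).card *
      Real.exp (- ∑ p ∈ T, (1:ℝ)/p) ≤ C5 * Real.exp (-(1 - θ) * K * Real.log 2 + rp a)) :
    WS θ M K X a e ≤
      B * C5 * (θ ^ om K a * Real.exp (-(1 - θ) * K * Real.log 2 + rp a)) := by
  rw [WS_eq]
  have hθ : 0 ≤ θ ^ om K a := pow_nonneg h0 _
  have h1' : 0 ≤ 1 - θ := by linarith
  have hstep : ∑ T ∈ (Ua K a).powerset,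
      (1 - θ)^T.card * θ^(Ua K a \ T).card * ((GT M X a e T).card : ℝ) ≤
      B * ∑ T ∈ (Ua K a).powerset, (1 - θ)^T.card * θ^(Ua K a \ T).card *
        Real.exp (- ∑ p ∈ T, (1:ℝ)/p) := by
    rw [mul_sum]
    apply sum_le_sum
    intro T hT
    have h := hG T (mem_powerset.1 hT)
    have hw : 0 ≤ (1 - θ)^T.card * θ^(Ua K a \ T).card :=
      mul_nonneg (pow_nonneg h1' _) (pow_nonneg h0 _)
    calc (1 - θ)^T.card * θ^(Ua K a \ T).card * ((GT M X a e T).card : ℝ)
        ≤ (1 - θ)^T.card * θ^(Ua K a \ T).card * (B * Real.exp (-∑ p ∈ T, (1:ℝ)/p)) :=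
          mul_le_mul_of_nonneg_left h hw
      _ = B * ((1 - θ)^T.card * θ^(Ua K a \ T).card * Real.exp (- ∑ p ∈ T, (1:ℝ)/p)) := by ring
  calc θ ^ om K a * ∑ T ∈ (Ua K a).powerset,
        (1 - θ)^T.card * θ^(Ua K a \ T).card * ((GT M X a e T).card : ℝ)
      ≤ θ ^ om K a * (B * (C5 * Real.exp (-(1 - θ) * K * Real.log 2 + rp a))) :=
        mul_le_mul_of_nonneg_left (le_trans hstep (mul_le_mul_of_nonneg_left h5 hB)) hθ
    _ = B * C5 * (θ ^ om K a * Real.exp (-(1 - θ) * K * Real.log 2 + rp a)) := by ring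

/-- splitting into blocks -/
lemma total_blocks (f : ℕ → ℝ) (i n : ℕ) :
    ∑ a ∈ Ico (bb i) (bb (i + n)), f a =
      ∑ j ∈ range n, ∑ a ∈ Ico (bb (i + j)) (bb (i + j + 1)), f a := by
  induction n with
  | zero => simp
  | succ n ih =>
    rw [sum_range_succ, ← ih]
    exact (sum_Ico_consecutive f (bb_mono (by omega)) (bb_mono (by omega))).symm

lemma total_ja {a j : ℕ} (h1 : bb j ≤ a) (h2 : a < bb (j+1)) : ja a = j := by
  have h2a : 2 ≤ a := le_trans (by unfold bb; exact Nat.one_lt_two_pow (by positivity)) h1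
  have h3 := KS.ja_le a h2a
  have h4 := KS.lt_ja a
  have h5 : bb (ja a) < bb (j+1) := lt_of_le_of_lt h3 h2
  have h6 : bb j < bb (ja a + 1) := lt_of_le_of_lt h1 h4
  have h7 := bb_strictMono.lt_iff_lt.1 h5
  have h8 := bb_strictMono.lt_iff_lt.1 h6
  omega

/-- geometric sum -/
lemma total_geom (c : ℝ) (hc : 0 < c) (K : ℕ) :
    ∑ j ∈ range K, Real.exp (c * j) ≤ (Real.exp c - 1)⁻¹ * Real.exp (c * K) := by
  have h1 : 0 < Real.exp c - 1 := by
    have := Real.add_one_lt_exp (ne_of_gt hc)
    linarith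
  have h2 : ∑ j ∈ range K, Real.exp (c * j) = ((Real.exp c)^K - 1) / (Real.exp c - 1) := by
    rw [← geom_sum_eq (by linarith : Real.exp c ≠ 1)]
    apply sum_congr rfl
    intro j _
    rw [← Real.exp_nat_mul, mul_comm]
  rw [h2, div_eq_inv_mul]
  apply mul_le_mul_of_nonneg_left _ (inv_nonneg.2 h1.le)
  rw [← Real.exp_nat_mul, mul_comm]
  linarith

theorem totalW (θ : ℝ) (h0 : 1/2 < θ) (h1 : θ ≤ 1) : ∃ C : ℝ, 0 < C ∧ ∀ (K X : ℕ) (e : ℤ),
    2000 ≤ K → bb (K+6) ≤ X → X < bb (K+7) → (e = 1 ∨ e = -1) →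
    ∑ a ∈ Ico 2 (bb K), WS θ K K X a e +
      ∑ a ∈ (Ico (bb K) (bb (K+6))).filter (fun a => a^2 ≤ X ∧ NSq K a), WS θ (K-10) K X a e ≤
    C * X * Real.exp (-2 * (1 - θ) * K * Real.log 2) := by
  have h0' : 0 ≤ θ := by linarith
  have hl2 : 0 < Real.log 2 := Real.log_pos (by norm_num)
  obtain ⟨C3, hC3, H3⟩ := zS_T
  obtain ⟨C4, hC4, H4⟩ := zL_T
  obtain ⟨C5, hC5, H5⟩ := wexp θ h0' h1
  obtain ⟨C6, hC6, H6⟩ := bsum θ h0' h1
  set c : ℝ := (θ - 1/2) * Real.log 2 with hc
  have hcpos : 0 < c := mul_pos (by linarith) hl2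
  have hgpos : 0 < (Real.exp c - 1)⁻¹ := by
    have := Real.add_one_lt_exp (ne_of_gt hcpos)
    exact inv_pos.2 (by linarith)
  refine ⟨C3 * C5 * C6 * (Real.exp c - 1)⁻¹ + 6 * 64 * (C4 * C5 * C6), by positivity, ?_⟩
  intro K X e hK hX1 hX2 he
  -- the zone of small `a`
  have hS : ∑ a ∈ Ico 2 (bb K), WS θ K K X a e ≤
      C3 * C5 * C6 * (Real.exp c - 1)⁻¹ * X * Real.exp (-2 * (1 - θ) * K * Real.log 2) := by
    have e0 : Ico 2 (bb K) = Ico (bb 0) (bb (0 + K)) := by
      rw [zero_add]; rfl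
    rw [e0, total_blocks]
    have hblock : ∀ j ∈ range K, ∑ a ∈ Ico (bb (0 + j)) (bb (0 + j + 1)), WS θ K K X a e ≤
        C3 * C5 * C6 * X * Real.exp (-(3/2 - θ) * K * Real.log 2) * Real.exp (c * j) := by
      intro j hj
      rw [mem_range] at hj
      rw [zero_add]
      have hterm : ∀ a ∈ Ico (bb j) (bb (j+1)), WS θ K K X a e ≤
          C3 * C5 * X * Real.exp (-((1/2) * j + (1/2) * K) * Real.log 2 -
            (1 - θ) * K * Real.log 2) *
            ((1:ℝ)/a * θ^(om K a) * Real.exp (3 * rp a)) := by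
        intro a ha
        rw [mem_Ico] at ha
        have hja := total_ja ha.1 ha.2
        have ha2 : 2 ≤ a :=
          le_trans (by unfold bb; exact Nat.one_lt_two_pow (by positivity)) ha.1
        have haK : a < bb K := lt_of_lt_of_le ha.2 (bb_mono hj)
        have hbd := total_ws_le θ h0' h1 (M := K) (K := K) (X := X) (a := a) (e := e)
          (B := C3 * (X / a) * Real.exp (-((1/2) * j + (1/2) * K) * Real.log 2)) (C5 := C5)
          (by positivity)
          (by
            intro T hT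
            have := H3 K X a e T hK hX1 ha2 haK he hT
            rw [hja, sub_eq_add_neg, Real.exp_add] at this
            calc _ ≤ _ := this
              _ = _ := by ring)
          (H5 K a (by omega))
        refine le_trans hbd ?_
        have hrp := rp_nonneg a
        have hexp : Real.exp (-(1 - θ) * K * Real.log 2 + rp a) ≤
            Real.exp (-(1 - θ) * K * Real.log 2) * Real.exp (3 * rp a) := by
          rw [← Real.exp_add]
          apply Real.exp_le_exp.2
          linarith
        have hθp : 0 ≤ θ ^ om K a := pow_nonneg h0' _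
        have e1 : Real.exp (-((1/2) * j + (1/2) * K) * Real.log 2 -
            (1 - θ) * K * Real.log 2) = Real.exp (-((1/2) * j + (1/2) * K) * Real.log 2) *
            Real.exp (-(1 - θ) * K * Real.log 2) := by
          rw [← Real.exp_add]
          congr 1
          ring
        rw [e1]
        calc C3 * (X / a) * Real.exp (-((1/2) * j + (1/2) * K) * Real.log 2) * C5 *
              (θ ^ om K a * Real.exp (-(1 - θ) * K * Real.log 2 + rp a))
            ≤ C3 * (X / a) * Real.exp (-((1/2) * j + (1/2) * K) * Real.log 2) * C5 *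
              (θ ^ om K a * (Real.exp (-(1 - θ) * K * Real.log 2) * Real.exp (3 * rp a))) := by
              apply mul_le_mul_of_nonneg_left _ (by positivity)
              exact mul_le_mul_of_nonneg_left hexp hθp
          _ = _ := by ring
      calc ∑ a ∈ Ico (bb j) (bb (j+1)), WS θ K K X a e
          ≤ ∑ a ∈ Ico (bb j) (bb (j+1)), C3 * C5 * X *
            Real.exp (-((1/2) * j + (1/2) * K) * Real.log 2 - (1 - θ) * K * Real.log 2) *
            ((1:ℝ)/a * θ^(om K a) * Real.exp (3 * rp a)) := sum_le_sum hterm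
        _ = C3 * C5 * X *
            Real.exp (-((1/2) * j + (1/2) * K) * Real.log 2 - (1 - θ) * K * Real.log 2) *
            ∑ a ∈ Ico (bb j) (bb (j+1)), ((1:ℝ)/a * θ^(om K a) * Real.exp (3 * rp a)) := by
            rw [mul_sum]
        _ ≤ C3 * C5 * X *
            Real.exp (-((1/2) * j + (1/2) * K) * Real.log 2 - (1 - θ) * K * Real.log 2) *
            (C6 * Real.exp (θ * j * Real.log 2)) :=
            mul_le_mul_of_nonneg_left (H6 K j (by omega)) (by positivity)
        _ = C3 * C5 * C6 * X *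
            (Real.exp (-((1/2) * j + (1/2) * K) * Real.log 2 - (1 - θ) * K * Real.log 2) *
            Real.exp (θ * j * Real.log 2)) := by ring
        _ = C3 * C5 * C6 * X *
            (Real.exp (-(3/2 - θ) * K * Real.log 2) * Real.exp (c * j)) := by
            rw [← Real.exp_add, ← Real.exp_add]
            congr 2
            rw [hc]
            ring
        _ = _ := by ring
    calc ∑ j ∈ range K, ∑ a ∈ Ico (bb (0 + j)) (bb (0 + j + 1)), WS θ K K X a e
        ≤ ∑ j ∈ range K, C3 * C5 * C6 * X * Real.exp (-(3/2 - θ) * K * Real.log 2) *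
          Real.exp (c * j) := sum_le_sum hblock
      _ = C3 * C5 * C6 * X * Real.exp (-(3/2 - θ) * K * Real.log 2) *
          ∑ j ∈ range K, Real.exp (c * j) := by rw [mul_sum]
      _ ≤ C3 * C5 * C6 * X * Real.exp (-(3/2 - θ) * K * Real.log 2) *
          ((Real.exp c - 1)⁻¹ * Real.exp (c * K)) :=
          mul_le_mul_of_nonneg_left (total_geom c hcpos K) (by positivity)
      _ = C3 * C5 * C6 * (Real.exp c - 1)⁻¹ * X *
          (Real.exp (-(3/2 - θ) * K * Real.log 2) * Real.exp (c * K)) := by ring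
      _ = _ := by
          rw [← Real.exp_add]
          congr 2
          rw [hc]
          ring
  -- the zone of large `a`
  have hL : ∑ a ∈ (Ico (bb K) (bb (K+6))).filter (fun a => a^2 ≤ X ∧ NSq K a),
      WS θ (K-10) K X a e ≤
      6 * 64 * (C4 * C5 * C6) * X * Real.exp (-2 * (1 - θ) * K * Real.log 2) := by
    set g : ℕ → ℝ := fun a => C4 * C5 * X * Real.exp (-(2 - θ) * K * Real.log 2) *
      ((1:ℝ)/a * θ^(om K a) * Real.exp (3 * rp a)) with hg
    have hgnn : ∀ a, 0 ≤ g a := by
      intro a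
      rw [hg]
      have hθp : 0 ≤ θ ^ om K a := pow_nonneg h0' _
      positivity
    have hterm : ∀ a ∈ (Ico (bb K) (bb (K+6))).filter (fun a => a^2 ≤ X ∧ NSq K a),
        WS θ (K-10) K X a e ≤ g a := by
      intro a ha
      rw [mem_filter, mem_Ico] at ha
      obtain ⟨⟨ha1, ha2⟩, ha3, ha4⟩ := ha
      have hapos : 0 < a := lt_of_lt_of_le (bb_pos K) ha1
      have hbd := total_ws_le θ h0' h1 (M := K - 10) (K := K) (X := X) (a := a) (e := e)
        (B := C4 * (X / a) * Real.exp (-(K * Real.log 2) + 2 * rp a)) (C5 := C5)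
        (by positivity)
        (by
          intro T hT
          have := H4 K X a e T hK ha1 ha3 ha4 he hT
          have e2 : -(K * Real.log 2) - ∑ p ∈ T, (1:ℝ)/p + 2 * rp a =
              (-(K * Real.log 2) + 2 * rp a) + (- ∑ p ∈ T, (1:ℝ)/p) := by ring
          rw [e2, Real.exp_add] at this
          calc _ ≤ _ := this
            _ = _ := by ring)
        (H5 K a hapos)
      refine le_trans hbd (le_of_eq ?_)
      rw [hg]
      simp only
      have e3 : Real.exp (-(K * Real.log 2) + 2 * rp a) *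
          Real.exp (-(1 - θ) * K * Real.log 2 + rp a) =
          Real.exp (-(2 - θ) * K * Real.log 2) * Real.exp (3 * rp a) := by
        rw [← Real.exp_add, ← Real.exp_add]
        congr 1
        ring
      calc C4 * (X / a) * Real.exp (-(K * Real.log 2) + 2 * rp a) * C5 *
            (θ ^ om K a * Real.exp (-(1 - θ) * K * Real.log 2 + rp a))
          = C4 * C5 * (X / a) * θ ^ om K a * (Real.exp (-(K * Real.log 2) + 2 * rp a) *
            Real.exp (-(1 - θ) * K * Real.log 2 + rp a)) := by ring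
        _ = C4 * C5 * (X / a) * θ ^ om K a * (Real.exp (-(2 - θ) * K * Real.log 2) *
            Real.exp (3 * rp a)) := by rw [e3]
        _ = _ := by ring
    calc ∑ a ∈ (Ico (bb K) (bb (K+6))).filter (fun a => a^2 ≤ X ∧ NSq K a),
          WS θ (K-10) K X a e
        ≤ ∑ a ∈ (Ico (bb K) (bb (K+6))).filter (fun a => a^2 ≤ X ∧ NSq K a), g a :=
          sum_le_sum hterm
      _ ≤ ∑ a ∈ Ico (bb K) (bb (K+6)), g a :=
          sum_le_sum_of_subset_of_nonneg (filter_subset _ _) (fun a _ _ => hgnn a)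
      _ = ∑ j ∈ range 6, ∑ a ∈ Ico (bb (K + j)) (bb (K + j + 1)), g a := total_blocks g K 6
      _ ≤ ∑ j ∈ range 6, C4 * C5 * X * Real.exp (-(2 - θ) * K * Real.log 2) *
          (C6 * (64 * Real.exp (θ * K * Real.log 2))) := by
          apply sum_le_sum
          intro j hj
          rw [mem_range] at hj
          rw [hg]
          simp only
          rw [← mul_sum]
          apply mul_le_mul_of_nonneg_left _ (by positivity)
          refine le_trans (H6 K (K + j) (by omega)) ?_
          apply mul_le_mul_of_nonneg_left _ hC6.le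
          have e4 : (64 : ℝ) = Real.exp (6 * Real.log 2) := by
            rw [show (6:ℝ) * Real.log 2 = ((6:ℕ):ℝ) * Real.log 2 by norm_num,
              Real.exp_nat_mul, Real.exp_log (by norm_num)]
            norm_num
          rw [e4, ← Real.exp_add]
          apply Real.exp_le_exp.2
          have hj6 : (j : ℝ) ≤ 6 := by exact_mod_cast (by omega : j ≤ 6)
          have h5 : θ * (j:ℝ) ≤ 6 := by
            calc θ * (j:ℝ) ≤ 1 * 6 := mul_le_mul h1 hj6 (by positivity) (by norm_num)
              _ = 6 := by norm_num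
          push_cast
          nlinarith
      _ = 6 * 64 * (C4 * C5 * C6) * X * (Real.exp (-(2 - θ) * K * Real.log 2) *
          Real.exp (θ * K * Real.log 2)) := by
          rw [sum_const, card_range]
          simp only [nsmul_eq_mul]
          push_cast
          ring
      _ = _ := by
          rw [← Real.exp_add]
          congr 2
          ring
  calc _ ≤ _ := add_le_add hS hL
    _ = _ := by ring

end Pool.Agent.H24.QD
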