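import Mathlib
import Pool.Agent.H24.QD.Df
import Pool.Agent.H12.AlmostLinear
import Pool.Agent.H24.QD.Total
import Pool.Agent.H24.QD.Nsq
import Pool.Agent.H24.QD.Sqc

/-!
QD module Q11: the number of parameter triples of symmetric designs with `v ≤ X` is `O(X)`,
from the weighted sieve bound (exponent `θ = 1`), the square case, and the large square divisors.
-/

namespace Pool.Agent.H24.QD

open Finset Classical
open Pool.Agent.H12 (Bad b0 xx0 vv0 beta Rea Ta T1 T1_facts aOf bOf pair_injective card_Rea_le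
  card_T1_eq card_Ta_trivial)
open Pool.Agent.H70.SymDes (EvT betaT densT low exceptionalOrders no_bad' e0 e0_or)
open Pool.Agent.H95.Gol
open Pool.Agent.H24.KS (W SW XD ja kk NSq)

/-- the square case of the parameters `z` -/
noncomputable def SQ (a : ℕ) : Finset ℕ :=
  (range a).filter (fun z => 0 < z ∧ IsSquare ((a - z) * z) ∧ Nat.Coprime z a)

lemma W0_prime {M p : ℕ} (hp : p ∈ W 0 M) : p.Prime := by
  unfold W at hp
  rw [mem_biUnion] at hp
  obtain ⟨k, -, hk⟩ := hp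
  exact (mem_PB.mp hk).2

lemma sq_of_dd {a z : ℕ} {e : ℤ} (hz0 : 0 < z) (hz : z < a) (he : e = 1 ∨ e = -1)
    (h : IsSquare (dd a z e)) : IsSquare ((a - z) * z) := by
  have h1 : 0 < (a - z) * z := Nat.mul_pos (by omega) hz0
  have h1' : (0:ℤ) < (((a - z : ℕ) : ℤ) * (z:ℤ)) := by exact_mod_cast h1
  rcases he with he | he
  · exfalso
    subst he
    obtain ⟨s, hs⟩ := h
    unfold dd at hs
    have : 0 ≤ s * s := mul_self_nonneg s
    rw [← hs] at this
    linarith
  · subst he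
    have h2 : dd a z (-1) = (((a - z) * z : ℕ) : ℤ) := by
      unfold dd; push_cast; ring
    rw [h2] at h
    obtain ⟨s, hs⟩ := h
    refine ⟨s.natAbs, ?_⟩
    have h3 : ((s.natAbs * s.natAbs : ℕ) : ℤ) = s * s := Int.natAbs_mul_self
    have h4 : (((a - z) * z : ℕ) : ℤ) = ((s.natAbs * s.natAbs : ℕ) : ℤ) := by rw [h3]; exact hs
    exact_mod_cast h4

lemma card_Ta_le (X a M : ℕ) (ha : 2 ≤ a) :
    (Ta X a).card ≤ (GS M X a 1).card + (GS M X a (-1)).card + (SQ a).card * (X / a^2 + 1) := by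
  have h1 : (Ta X a).card ≤
      (GS M X a 1 ∪ GS M X a (-1) ∪ (SQ a) ×ˢ (range (X / a^2 + 1))).card := by
    have key : ∀ t ∈ Ta X a, ∃ u ∈ GS M X a 1 ∪ GS M X a (-1) ∪ (SQ a) ×ˢ (range (X / a^2 + 1)),
        bOf t = a * u.2 + b0 a u.1 := by
      intro t ht
      unfold Ta at ht
      rw [mem_filter] at ht
      obtain ⟨h1, h2⟩ := ht
      obtain ⟨hA, hD, h3, h4, h5⟩ := T1_facts h1
      have hb : Nat.gcd (t.2.1-1) (t.1-1) ≠ 1 := by
        change bOf t ≠ 1
        omega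
      obtain ⟨z, hz0, hz, hcop, hbz, -, -, -, hbad⟩ := no_bad' hA hD hb
      change z < aOf t at hz
      change Nat.Coprime z (aOf t) at hcop
      change bOf t % aOf t = b0 (aOf t) z at hbz
      have hbad' : ∀ p : ℕ, p.Prime → ¬ Bad (aOf t) (e0 t.1) p z (xx0 (aOf t) z)
        (vv0 (aOf t) z) (bOf t / aOf t) := hbad
      rw [h2] at hz hbz hbad' h4 h3 hcop
      have hr : bOf t / a < X / a^2 + 1 := by
        have : bOf t / a ≤ X / a^2 := by
          rw [Nat.le_div_iff_mul_le (by positivity)]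
          have e1 : bOf t / a * a ≤ bOf t := Nat.div_mul_le_self _ _
          have e2 : bOf t / a * a^2 = (bOf t / a * a) * a := by ring
          rw [e2]
          have e3 : (bOf t / a * a) * a ≤ bOf t * a := Nat.mul_le_mul_right a e1
          have e4 : bOf t * a = a * bOf t := mul_comm _ _
          omega
        omega
      refine ⟨(z, bOf t / a), ?_, ?_⟩
      · by_cases hsq : IsSquare (dd a z (e0 t.1))
        · rw [mem_union]
          right
          rw [mem_product, mem_range]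
          refine ⟨?_, hr⟩
          unfold SQ
          rw [mem_filter, mem_range]
          exact ⟨hz, hz0, sq_of_dd hz0 hz (e0_or _) hsq, hcop⟩
        · have hG : (z, bOf t / a) ∈ GS M X a (e0 t.1) := by
            unfold GS
            rw [mem_filter, mem_product, mem_range, mem_range]
            exact ⟨⟨hz, hr⟩, hcop, hsq, fun p hp => hbad' p (W0_prime hp)⟩
          rw [mem_union, mem_union]
          left
          rcases e0_or t.1 with h | h
          · left; rw [h] at hG; exact hG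
          · right; rw [h] at hG; exact hG
      · simp only
        rw [← hbz]; exact (Nat.div_add_mod _ _).symm
    choose! f hf1 hf2 using key
    refine card_le_card_of_injOn f (fun t ht => hf1 t ht) ?_
    intro t ht t' ht' h
    rw [mem_coe] at ht ht'
    have e1 := hf2 t ht
    have e2 := hf2 t' ht'
    rw [← h, ← e1] at e2
    unfold Ta at ht ht'
    rw [mem_filter] at ht ht'
    obtain ⟨h1, -⟩ := T1_facts ht.1
    obtain ⟨h1', -⟩ := T1_facts ht'.1
    have e := pair_injective h1 h1' (by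
      change aOf t = aOf t'
      rw [ht.2, ht'.2]) e2.symm
    exact Prod.ext e.1 (Prod.ext e.2.1 e.2.2)
  refine h1.trans ((card_union_le _ _).trans ?_)
  rw [card_product, card_range]
  exact Nat.add_le_add_right (card_union_le _ _) _

lemma WS_one (M K X a : ℕ) (e : ℤ) : WS 1 M K X a e = ((GS M X a e).card : ℝ) := by
  unfold WS
  simp

/-- the assembly of (A) from the three bounds -/
theorem cardA_of
    (hT : ∃ C : ℝ, 0 < C ∧ ∀ (K X : ℕ) (e : ℤ),
      2000 ≤ K → bb (K+6) ≤ X → X < bb (K+7) → (e = 1 ∨ e = -1) →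
      ∑ a ∈ Ico 2 (bb K), WS 1 K K X a e +
        ∑ a ∈ (Ico (bb K) (bb (K+6))).filter (fun a => a^2 ≤ X ∧ NSq K a),
          WS 1 (K-10) K X a e ≤ C * X * Real.exp (-2 * (1 - 1) * K * Real.log 2))
    (hS : ∃ C : ℝ, 0 < C ∧ ∀ A X : ℕ, 1 ≤ A → 1 ≤ X →
      ∑ a ∈ Ioc A (Nat.sqrt X), ∑ _z ∈ (range a).filter (fun z => 0 < z ∧
        IsSquare ((a - z) * z) ∧ Nat.Coprime z a), (((X / a^2 : ℕ) : ℝ) + 1) ≤ C * X / A)
    (hN : ∃ C : ℝ, 0 < C ∧ ∀ K X : ℕ, 2000 ≤ K → bb (K+6) ≤ X → X < bb (K+7) →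
      ∑ a ∈ (Ico (bb K) (bb (K+6))).filter (fun a => ¬ NSq K a), ((X / a : ℕ) : ℝ) ≤
        C * X * Real.exp (-2 * K * Real.log 2)) :
    ∃ C : ℝ, 0 < C ∧ ∀ K X : ℕ, 2000 ≤ K → bb (K+6) ≤ X → X < bb (K+7) →
      ((Rea X).card : ℝ) ≤ C * X := by
  obtain ⟨C1, hC1, hT⟩ := hT
  obtain ⟨C2, hC2, hS⟩ := hS
  obtain ⟨C3, hC3, hN⟩ := hN
  refine ⟨1 + 2 * (2 * C1 + C2 + C3), by positivity, ?_⟩
  intro K X hK hX1 hX2
  have hX0 : 1 ≤ X := (bb_pos _).trans_le hX1
  have hT1 := hT K X 1 hK hX1 hX2 (Or.inl rfl)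
  have hTm := hT K X (-1) hK hX1 hX2 (Or.inr rfl)
  have hS1 := hS 1 X le_rfl hX0
  have hN1 := hN K X hK hX1 hX2
  have hexp : Real.exp (-2 * (1 - 1) * K * Real.log 2) = 1 := by
    rw [show -2 * (1 - 1) * (K:ℝ) * Real.log 2 = 0 by ring, Real.exp_zero]
  rw [hexp, mul_one] at hT1 hTm
  have hexp2 : Real.exp (-2 * K * Real.log 2) ≤ 1 := by
    rw [Real.exp_le_one_iff]
    have := Real.log_nonneg (show (1:ℝ) ≤ 2 by norm_num)
    have h2 : (0:ℝ) ≤ K := by positivity
    nlinarith [mul_nonneg h2 this]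
  have hN2 : ∑ a ∈ (Ico (bb K) (bb (K+6))).filter (fun a => ¬ NSq K a), ((X / a : ℕ) : ℝ) ≤
      C3 * X := by
    refine hN1.trans ?_
    have h0 : (0:ℝ) ≤ C3 * X := by positivity
    calc C3 * X * Real.exp (-2 * K * Real.log 2) ≤ C3 * X * 1 :=
          mul_le_mul_of_nonneg_left hexp2 h0
      _ = C3 * X := mul_one _
  rw [Nat.cast_one, div_one] at hS1
  -- the square root of X
  have hsq : Nat.sqrt X < bb (K+6) := by
    rw [Nat.sqrt_lt]
    have : bb (K+7) = bb (K+6) * bb (K+6) := by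
      rw [show K + 7 = (K+6) + 1 from rfl, bb_succ, sq]
    omega
  -- bound of each Ta
  set f : ℕ → ℝ := fun a => if a < bb K then WS 1 K K X a 1 + WS 1 K K X a (-1) else
    if a ^ 2 ≤ X ∧ NSq K a then WS 1 (K-10) K X a 1 + WS 1 (K-10) K X a (-1) else 0 with hf
  set g : ℕ → ℝ := fun a => if bb K ≤ a ∧ ¬ NSq K a then ((X / a : ℕ) : ℝ) else 0 with hg
  have hTa : ∀ a ∈ Icc 2 (Nat.sqrt X), ((Ta X a).card : ℝ) ≤
      f a + g a + (SQ a).card * (((X / a^2 : ℕ) : ℝ) + 1) := by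
    intro a ha
    rw [mem_Icc] at ha
    have hs0 : (0:ℝ) ≤ (SQ a).card * (((X / a^2 : ℕ) : ℝ) + 1) := by positivity
    have ha2 : a ^ 2 ≤ X := by
      have := Nat.le_sqrt.mp ha.2
      rw [sq]; exact this
    by_cases hK1 : a < bb K
    · have h1 := card_Ta_le X a K ha.1
      have h2 : ((Ta X a).card : ℝ) ≤ ((GS K X a 1).card : ℝ) + ((GS K X a (-1)).card : ℝ) +
          (SQ a).card * (((X / a^2 : ℕ) : ℝ) + 1) := by exact_mod_cast h1
      have hfa : f a = WS 1 K K X a 1 + WS 1 K K X a (-1) := if_pos hK1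
      have hga : g a = 0 := if_neg (by rintro ⟨h3, -⟩; omega)
      rw [hfa, hga, WS_one, WS_one]
      linarith
    · by_cases hns : NSq K a
      · have h1 := card_Ta_le X a (K-10) ha.1
        have h2 : ((Ta X a).card : ℝ) ≤ ((GS (K-10) X a 1).card : ℝ) +
            ((GS (K-10) X a (-1)).card : ℝ) +
            (SQ a).card * (((X / a^2 : ℕ) : ℝ) + 1) := by exact_mod_cast h1
        have hfa : f a = WS 1 (K-10) K X a 1 + WS 1 (K-10) K X a (-1) := by
          rw [hf]; simp only; rw [if_neg hK1, if_pos ⟨ha2, hns⟩]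
        have hga : g a = 0 := if_neg (by rintro ⟨-, h3⟩; exact h3 hns)
        rw [hfa, hga, WS_one, WS_one]
        linarith
      · have h1 : ((Ta X a).card : ℝ) ≤ ((X / a : ℕ) : ℝ) := by
          exact_mod_cast card_Ta_trivial X a ha.1
        have hfa : f a = 0 := by
          rw [hf]; simp only; rw [if_neg hK1, if_neg (by rintro ⟨-, h3⟩; exact hns h3)]
        have hga : g a = ((X / a : ℕ) : ℝ) := if_pos ⟨by omega, hns⟩
        rw [hfa, hga]
        linarith
  have hsum := sum_le_sum hTa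
  rw [sum_add_distrib, sum_add_distrib] at hsum
  -- the sum of f
  have hsub : Icc 2 (Nat.sqrt X) ⊆ Ico 2 (bb K) ∪ (Ico (bb K) (bb (K+6))) := by
    intro a ha
    rw [mem_Icc] at ha
    rw [mem_union, mem_Ico, mem_Ico]
    rcases Nat.lt_or_ge a (bb K) with h | h
    · left; omega
    · right; omega
  have hWS0 : ∀ M a e, 0 ≤ WS 1 M K X a e := by
    intro M a e; rw [WS_one]; positivity
  have hf0 : ∀ a, 0 ≤ f a := by
    intro a
    rw [hf]; simp only
    split_ifs
    · exact add_nonneg (hWS0 _ _ _) (hWS0 _ _ _)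
    · exact add_nonneg (hWS0 _ _ _) (hWS0 _ _ _)
    · exact le_rfl
  have hg0 : ∀ a, 0 ≤ g a := by
    intro a
    rw [hg]; simp only
    split_ifs
    · positivity
    · exact le_rfl
  have hdisj : Disjoint (Ico 2 (bb K)) (Ico (bb K) (bb (K+6))) := by
    rw [disjoint_left]
    intro a h1 h2
    rw [mem_Ico] at h1 h2
    omega
  have hfsum : ∑ a ∈ Icc 2 (Nat.sqrt X), f a ≤ 2 * C1 * X := by
    refine (sum_le_sum_of_subset_of_nonneg hsub (fun a _ _ => hf0 a)).trans ?_
    rw [sum_union hdisj]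
    have e1 : ∑ a ∈ Ico 2 (bb K), f a =
        ∑ a ∈ Ico 2 (bb K), WS 1 K K X a 1 + ∑ a ∈ Ico 2 (bb K), WS 1 K K X a (-1) := by
      rw [← sum_add_distrib]
      refine sum_congr rfl fun a ha => ?_
      rw [mem_Ico] at ha
      exact if_pos ha.2
    have e2 : ∑ a ∈ Ico (bb K) (bb (K+6)), f a =
        ∑ a ∈ (Ico (bb K) (bb (K+6))).filter (fun a => a^2 ≤ X ∧ NSq K a),
          WS 1 (K-10) K X a 1 +
        ∑ a ∈ (Ico (bb K) (bb (K+6))).filter (fun a => a^2 ≤ X ∧ NSq K a),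
          WS 1 (K-10) K X a (-1) := by
      rw [← sum_add_distrib, sum_filter]
      refine sum_congr rfl fun a ha => ?_
      rw [mem_Ico] at ha
      rw [hf]; simp only
      rw [if_neg (by omega)]
    rw [e1, e2]
    linarith
  have hgsum : ∑ a ∈ Icc 2 (Nat.sqrt X), g a ≤ C3 * X := by
    refine (sum_le_sum_of_subset_of_nonneg hsub (fun a _ _ => hg0 a)).trans ?_
    rw [sum_union hdisj]
    have e1 : ∑ a ∈ Ico 2 (bb K), g a = 0 := by
      refine sum_eq_zero fun a ha => ?_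
      rw [mem_Ico] at ha
      exact if_neg (by rintro ⟨h3, -⟩; omega)
    have e2 : ∑ a ∈ Ico (bb K) (bb (K+6)), g a =
        ∑ a ∈ (Ico (bb K) (bb (K+6))).filter (fun a => ¬ NSq K a), ((X / a : ℕ) : ℝ) := by
      rw [sum_filter]
      refine sum_congr rfl fun a ha => ?_
      rw [mem_Ico] at ha
      rw [hg]; simp only
      by_cases h : NSq K a
      · rw [if_neg (by rintro ⟨-, h3⟩; exact h3 h), if_neg (by simpa using h)]
      · rw [if_pos ⟨ha.1, h⟩, if_pos h]
    rw [e1, e2, zero_add]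
    exact hN2
  have hssum : ∑ a ∈ Icc 2 (Nat.sqrt X), ((SQ a).card : ℝ) * (((X / a^2 : ℕ) : ℝ) + 1) ≤
      C2 * X := by
    have e1 : Icc 2 (Nat.sqrt X) = Ioc 1 (Nat.sqrt X) := by
      ext a; rw [mem_Icc, mem_Ioc]; omega
    rw [e1]
    refine le_trans (le_of_eq ?_) hS1
    refine sum_congr rfl fun a _ => ?_
    rw [sum_const, nsmul_eq_mul]
    rfl
  have hT1c : ((T1 X).card : ℝ) = ∑ a ∈ Icc 2 (Nat.sqrt X), ((Ta X a).card : ℝ) := by
    rw [card_T1_eq]; push_cast; rfl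
  have hR : ((Rea X).card : ℝ) ≤ X + 2 * ((T1 X).card : ℝ) := by
    exact_mod_cast card_Rea_le X
  have hfin : ((T1 X).card : ℝ) ≤ (2 * C1 + C2 + C3) * X := by
    rw [hT1c]
    linarith
  calc ((Rea X).card : ℝ) ≤ X + 2 * ((T1 X).card : ℝ) := hR
    _ ≤ X + 2 * ((2 * C1 + C2 + C3) * X) := by linarith
    _ = (1 + 2 * (2 * C1 + C2 + C3)) * X := by ring

/-- **The number of parameter triples is `O(X)`.** -/
theorem cardA : ∃ C : ℝ, 0 < C ∧ ∀ K X : ℕ, 2000 ≤ K → bb (K+6) ≤ X → X < bb (K+7) →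
    ((Rea X).card : ℝ) ≤ C * X :=
  cardA_of (totalW 1 (by norm_num) le_rfl) sqcount nsqsum

end Pool.Agent.H24.QD
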