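import Mathlib
import Pool.Agent.H24.QD.Df
import Pool.Agent.H24.KS.Rough

/-!
QD module Q8: few `v ≤ X` have more than `K` prime factors of `v - 1` in the window
(Markov's inequality for `(1 / log 2) ^ om`).
-/

namespace Pool.Agent.H24.QD

open Finset Classical
open Pool.Agent.H12 (Bad b0 xx0 vv0 beta Rea Ta)
open Pool.Agent.H70.SymDes (EvT betaT densT low exceptionalOrders)
open Pool.Agent.H95.Gol
open Pool.Agent.H24.KS (W SW XD ja kk NSq)

lemma oml_SW_upper : ∃ C : ℝ, 0 < C ∧ ∀ K : ℕ, SW 0 K ≤ (K:ℝ) * Real.log 2 + C := by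
  obtain ⟨C0, hC0, hb⟩ := Pool.Agent.H66.Gol.blk
  refine ⟨2 * C0, by positivity, ?_⟩
  intro K
  unfold SW
  rw [Pool.Agent.H24.KS.sum_W]
  have h1 : ∀ k ∈ Ico 0 K, ∑ l ∈ PB k, (1:ℝ)/l ≤ Real.log 2 + C0 * (1/2)^k := by
    intro k _
    have h := (abs_le.mp (hb k)).2
    have h2 : C0 / 2^k = C0 * (1/2)^k := by rw [one_div, inv_pow]; rfl
    rw [h2] at h
    linarith
  refine (sum_le_sum h1).trans ?_
  rw [sum_add_distrib, ← mul_sum, sum_const, Nat.card_Ico, nsmul_eq_mul, Nat.sub_zero]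
  have h3 : ∑ k ∈ Ico 0 K, (1/2:ℝ)^k ≤ 2 := by
    rw [← range_eq_Ico]
    have h4 := geom_sum_eq (show (1/2:ℝ) ≠ 1 by norm_num) K
    rw [h4]
    have : (0:ℝ) < (1/2)^K := by positivity
    rw [div_le_iff_of_neg (by norm_num)]
    linarith
  nlinarith

lemma oml_count_nat (X d : ℕ) (hd : 0 < d) :
    ((Icc 2 X).filter (fun v => d ∣ v - 1)).card ≤ X / d := by
  have h1 : ((Icc 2 X).filter (fun v => d ∣ v - 1)).card ≤ (Ioc 0 (X / d)).card := by
    refine card_le_card_of_injOn (fun v => (v - 1) / d) ?_ ?_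
    · intro v hv
      rw [mem_coe, mem_filter, mem_Icc] at hv
      obtain ⟨⟨h2, h3⟩, h4⟩ := hv
      rw [mem_coe, mem_Ioc]
      refine ⟨Nat.div_pos (Nat.le_of_dvd (by omega) h4) hd, Nat.div_le_div_right (by omega)⟩
    · intro v hv w hw h
      rw [mem_coe, mem_filter, mem_Icc] at hv hw
      simp only at h
      have e1 := Nat.div_mul_cancel hv.2
      have e2 := Nat.div_mul_cancel hw.2
      rw [h, e2] at e1
      omega
  rwa [Nat.card_Ioc, Nat.sub_zero] at h1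

lemma oml_count (X d : ℕ) (hd : 0 < d) :
    (((Icc 2 X).filter (fun v => d ∣ v - 1)).card : ℝ) ≤ (X:ℝ) / d := by
  calc (((Icc 2 X).filter (fun v => d ∣ v - 1)).card : ℝ) ≤ ((X / d : ℕ) : ℝ) := by
        exact_mod_cast oml_count_nat X d hd
    _ ≤ (X:ℝ) / d := Nat.cast_div_le

lemma oml_pow (κ : ℝ) (U : Finset ℕ) (n : ℕ) :
    κ ^ (U.filter (fun p => p ∣ n)).card =
      ∑ T ∈ U.powerset, (κ - 1)^T.card * (if ∀ p ∈ T, p ∣ n then (1:ℝ) else 0) := by
  have h1 : κ ^ (U.filter (fun p => p ∣ n)).card =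
      ∏ p ∈ U, ((if p ∣ n then (κ - 1) else 0) + 1) := by
    rw [← prod_const, prod_filter]
    refine prod_congr rfl fun p _ => ?_
    by_cases h : p ∣ n
    · simp [h]
    · simp [h]
  rw [h1, prod_add]
  refine sum_congr rfl fun T _ => ?_
  rw [prod_const_one, mul_one]
  by_cases h : ∀ p ∈ T, p ∣ n
  · rw [if_pos h, mul_one, ← prod_const (κ - 1)]
    exact prod_congr rfl fun p hp => if_pos (h p hp)
  · rw [if_neg h, mul_zero]
    push Not at h
    obtain ⟨p, hp, hpb⟩ := h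
    exact prod_eq_zero hp (if_neg hpb)

lemma oml_sum (κ : ℝ) (h1 : 1 ≤ κ) (K X : ℕ) :
    ∑ v ∈ Icc 2 X, κ ^ om K (v - 1) ≤ X * Real.exp ((κ - 1) * SW 0 (K-10)) := by
  have hk : 0 ≤ κ - 1 := by linarith
  have e1 : ∑ v ∈ Icc 2 X, κ ^ om K (v - 1) = ∑ T ∈ (W 0 (K-10)).powerset,
      (κ - 1)^T.card * (((Icc 2 X).filter (fun v => ∀ p ∈ T, p ∣ v - 1)).card : ℝ) := by
    have h2 : ∀ v ∈ Icc 2 X, κ ^ om K (v - 1) = ∑ T ∈ (W 0 (K-10)).powerset,
        (κ - 1)^T.card * (if ∀ p ∈ T, p ∣ v - 1 then (1:ℝ) else 0) := by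
      intro v _
      unfold om
      convert oml_pow κ (W 0 (K-10)) (v - 1)
    rw [sum_congr rfl h2, sum_comm]
    refine sum_congr rfl fun T _ => ?_
    rw [← mul_sum]
    congr 1
    rw [card_filter]
    push_cast
    refine sum_congr rfl fun v _ => ?_
    by_cases h : ∀ p ∈ T, p ∣ v - 1
    · rw [if_pos h, if_pos h]
    · rw [if_neg h, if_neg h]
  rw [e1]
  have e2 : ∀ T ∈ (W 0 (K-10)).powerset,
      (κ - 1)^T.card * (((Icc 2 X).filter (fun v => ∀ p ∈ T, p ∣ v - 1)).card : ℝ) ≤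
        X * ∏ p ∈ T, ((κ - 1) / (p:ℝ)) := by
    intro T hT
    rw [mem_powerset] at hT
    have hp : ∀ p ∈ T, p.Prime := fun p hp => Pool.Agent.H24.KS.prime_of_mem_W (hT hp)
    have h3 : (((Icc 2 X).filter (fun v => ∀ p ∈ T, p ∣ v - 1)).card : ℝ) ≤
        (X:ℝ) / ((∏ p ∈ T, p : ℕ) : ℝ) := by
      refine le_trans ?_ (oml_count X (∏ p ∈ T, p) (prod_pos fun p h => (hp p h).pos))
      have : ((Icc 2 X).filter (fun v => ∀ p ∈ T, p ∣ v - 1)) ⊆
          ((Icc 2 X).filter (fun v => (∏ p ∈ T, p) ∣ v - 1)) := by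
        intro v hv
        simp only [mem_filter] at hv ⊢
        exact ⟨hv.1, Finset.prod_primes_dvd _ (fun p h => (hp p h).prime) hv.2⟩
      exact_mod_cast card_le_card this
    calc (κ - 1)^T.card * (((Icc 2 X).filter (fun v => ∀ p ∈ T, p ∣ v - 1)).card : ℝ)
        ≤ (κ - 1)^T.card * ((X:ℝ) / ((∏ p ∈ T, p : ℕ) : ℝ)) :=
          mul_le_mul_of_nonneg_left h3 (by positivity)
      _ = X * ∏ p ∈ T, ((κ - 1) / (p:ℝ)) := by
          rw [prod_div_distrib, prod_const]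
          push_cast
          ring
  refine (sum_le_sum e2).trans ?_
  rw [← mul_sum]
  refine mul_le_mul_of_nonneg_left ?_ (by positivity)
  rw [← prod_add_one]
  unfold SW
  rw [mul_sum, Real.exp_sum]
  refine prod_le_prod (fun p _ => by positivity) fun p _ => ?_
  have := Real.add_one_le_exp ((κ - 1) * ((1:ℝ) / p))
  calc (κ - 1) / (p:ℝ) + 1 = (κ - 1) * ((1:ℝ) / p) + 1 := by ring
    _ ≤ _ := this

theorem omlarge : ∃ C : ℝ, 0 < C ∧ ∀ K X : ℕ, 2000 ≤ K → bb (K+6) ≤ X →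
    (((Icc 2 X).filter (fun v => K < om K (v-1))).card : ℝ) ≤ C * X * Real.exp (-dl * K) := by
  obtain ⟨C, hC, hSW⟩ := oml_SW_upper
  have hl0 : 0 < Real.log 2 := Real.log_pos (by norm_num)
  have hl1 : Real.log 2 ≤ 1 := by
    have := Real.log_two_lt_d9
    linarith
  set κ : ℝ := 1 / Real.log 2 with hκ
  have hκ1 : 1 ≤ κ := by
    rw [hκ, le_div_iff₀ hl0]
    linarith
  have hκ0 : 0 < κ := by linarith
  refine ⟨Real.exp ((κ - 1) * C), Real.exp_pos _, ?_⟩
  intro K X _ _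
  set S := (Icc 2 X).filter (fun v => K < om K (v-1)) with hS
  have h1 : (S.card : ℝ) * κ ^ K ≤ ∑ v ∈ Icc 2 X, κ ^ om K (v - 1) := by
    calc (S.card : ℝ) * κ ^ K = ∑ v ∈ S, κ ^ K := by rw [sum_const, nsmul_eq_mul]
      _ ≤ ∑ v ∈ S, κ ^ om K (v - 1) := by
          refine sum_le_sum fun v hv => ?_
          rw [hS, mem_filter] at hv
          exact pow_le_pow_right₀ hκ1 hv.2.le
      _ ≤ ∑ v ∈ Icc 2 X, κ ^ om K (v - 1) :=
          sum_le_sum_of_subset_of_nonneg (filter_subset _ _) fun v _ _ => by positivity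
  have h2 := h1.trans (oml_sum κ hκ1 K X)
  have h3 : (κ - 1) * SW 0 (K-10) ≤ (κ - 1) * C + (κ - 1) * (K * Real.log 2) := by
    have h4 := hSW (K-10)
    have h5 : ((K - 10 : ℕ) : ℝ) ≤ K := by exact_mod_cast Nat.sub_le K 10
    have h6 : ((K - 10 : ℕ) : ℝ) * Real.log 2 ≤ K * Real.log 2 :=
      mul_le_mul_of_nonneg_right h5 hl0.le
    have h7 : SW 0 (K-10) ≤ C + K * Real.log 2 := by linarith
    have h8 := mul_le_mul_of_nonneg_left h7 (show 0 ≤ κ - 1 by linarith)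
    linarith
  have h4 : κ ^ K = Real.exp (-(Real.log (Real.log 2)) * K) := by
    have h5 : Real.log κ = -(Real.log (Real.log 2)) := by
      rw [hκ, one_div, Real.log_inv]
    rw [← h5, mul_comm, Real.exp_nat_mul, Real.exp_log hκ0]
  have h5 : (κ - 1) * (K * Real.log 2) = (1 - Real.log 2) * K := by
    have : κ * Real.log 2 = 1 := by rw [hκ]; field_simp
    calc (κ - 1) * (K * Real.log 2) = (κ * Real.log 2 - Real.log 2) * K := by ring
      _ = _ := by rw [this]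
  have h6 : (S.card : ℝ) ≤ X * Real.exp ((κ - 1) * SW 0 (K-10)) *
      Real.exp (Real.log (Real.log 2) * K) := by
    have h7 : κ ^ K * Real.exp (Real.log (Real.log 2) * K) = 1 := by
      rw [h4, ← Real.exp_add]
      rw [show -(Real.log (Real.log 2)) * (K:ℝ) + Real.log (Real.log 2) * K = 0 by ring,
        Real.exp_zero]
    calc (S.card : ℝ) = (S.card : ℝ) * κ ^ K * Real.exp (Real.log (Real.log 2) * K) := by
          rw [mul_assoc, h7, mul_one]
      _ ≤ _ := mul_le_mul_of_nonneg_right h2 (Real.exp_pos _).le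
  refine h6.trans ?_
  have h7 : Real.exp ((κ - 1) * SW 0 (K-10)) ≤
      Real.exp ((κ - 1) * C) * Real.exp ((1 - Real.log 2) * K) := by
    rw [← Real.exp_add]
    apply Real.exp_le_exp.mpr
    linarith
  calc (X:ℝ) * Real.exp ((κ - 1) * SW 0 (K-10)) * Real.exp (Real.log (Real.log 2) * K)
      ≤ X * (Real.exp ((κ - 1) * C) * Real.exp ((1 - Real.log 2) * K)) *
        Real.exp (Real.log (Real.log 2) * K) := by
        refine mul_le_mul_of_nonneg_right ?_ (Real.exp_pos _).le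
        exact mul_le_mul_of_nonneg_left h7 (by positivity)
    _ = Real.exp ((κ - 1) * C) * X * (Real.exp ((1 - Real.log 2) * K) *
        Real.exp (Real.log (Real.log 2) * K)) := by ring
    _ = Real.exp ((κ - 1) * C) * X * Real.exp (-dl * K) := by
        rw [← Real.exp_add]
        congr 2
        unfold dl
        ring

end Pool.Agent.H24.QD
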