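import Mathlib
import Pool.Agent.H24.QD.Df
import Pool.Agent.H24.QD.Oml
import Pool.Agent.H24.QD.Total
import Pool.Agent.H24.QD.Sqc
import Pool.Agent.H24.QD.Nsq

/-!
QD module Q12: the number of exceptional orders of symmetric designs, from the weighted sieve
bound with `θ = 1 / (2 log 2)`.
-/

namespace Pool.Agent.H24.QD

open Finset Classical
open Pool.Agent.H12 (Bad b0 xx0 vv0 beta Rea Ta)
open Pool.Agent.H70.SymDes (EvT betaT densT low exceptionalOrders Rep exists_rep
  squareRatio_of_rep e0 e0_or)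
open Pool.Agent.H95.Gol
open Pool.Agent.H24.KS (W SW XD ja kk NSq)

/-- the square case of the parameters `z` -/
noncomputable def cbSQ (a : ℕ) : Finset ℕ :=
  (range a).filter (fun z => 0 < z ∧ IsSquare ((a - z) * z) ∧ Nat.Coprime z a)

lemma cb_sq_of_dd {a z : ℕ} {e : ℤ} (hz0 : 0 < z) (hz : z < a) (he : e = 1 ∨ e = -1)
    (h : IsSquare (dd a z e)) : e = -1 ∧ IsSquare ((a - z) * z) := by
  have h1 : 0 < (a - z) * z := Nat.mul_pos (by omega) hz0
  have h1' : (0:ℤ) < (((a - z : ℕ) : ℤ) * (z:ℤ)) := by exact_mod_cast h1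
  rcases he with he | he
  · exfalso
    subst he
    obtain ⟨s, hs⟩ := h
    unfold dd at hs
    have : 0 ≤ s * s := mul_self_nonneg s
    rw [← hs] at this
    linarith
  · subst he
    refine ⟨rfl, ?_⟩
    have h2 : dd a z (-1) = (((a - z) * z : ℕ) : ℤ) := by
      unfold dd; push_cast; ring
    rw [h2] at h
    obtain ⟨s, hs⟩ := h
    refine ⟨s.natAbs, ?_⟩
    have h3 : ((s.natAbs * s.natAbs : ℕ) : ℤ) = s * s := Int.natAbs_mul_self
    have h4 : (((a - z) * z : ℕ) : ℤ) = ((s.natAbs * s.natAbs : ℕ) : ℤ) := by rw [h3]; exact hs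
    exact_mod_cast h4

/-- the orders represented with first parameter `a` -/
noncomputable def VB (K X A a : ℕ) : Finset ℕ :=
  (Icc 2 X).filter (fun v => om K (v-1) ≤ K ∧ ∃ z t, Rep v a z t (e0 v) ∧
    (IsSquare ((a - z) * z) → v % 4 = 3 → A < a))

lemma VB_trivial (K X A a : ℕ) (ha : 2 ≤ a) : (VB K X A a).card ≤ X / a := by
  refine le_trans (card_le_card ?_) (oml_count_nat X a (by omega))
  intro v hv
  unfold VB at hv
  rw [mem_filter] at hv ⊢
  obtain ⟨h1, -, z, t, h2, -⟩ := hv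
  refine ⟨h1, ?_⟩
  rw [h2.hv, Nat.add_sub_cancel]
  exact dvd_mul_right _ _

lemma VB_le (θ : ℝ) (h0 : 0 < θ) (h1 : θ ≤ 1) (M K X A a : ℕ) (ha : 2 ≤ a) :
    ((VB K X A a).card : ℝ) ≤ (θ^K)⁻¹ * (WS θ M K X a 1 + WS θ M K X a (-1)) +
      (if A < a then ((cbSQ a).card : ℝ) * (((X / a^2 : ℕ) : ℝ) + 1) else 0) := by
  set F : ℕ × ℕ → ℕ := fun u => a * (a * u.2 + b0 a u.1) + 1 with hF
  set G : ℤ → Finset (ℕ × ℕ) := fun e =>
    (GS M X a e).filter (fun u => om K (a * (a * u.2 + b0 a u.1)) ≤ K) with hG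
  set Q : Finset (ℕ × ℕ) := if A < a then (cbSQ a) ×ˢ (range (X / a^2 + 1)) else ∅ with hQ
  have hsub : VB K X A a ⊆ (G 1 ∪ G (-1) ∪ Q).image F := by
    intro v hv
    unfold VB at hv
    rw [mem_filter, mem_Icc] at hv
    obtain ⟨⟨h2, h3⟩, h4, z, t, h5, h6⟩ := hv
    rw [mem_image]
    have hv1 : v - 1 = a * (a * t + b0 a z) := by rw [h5.hv]; rfl
    have hr : t < X / a^2 + 1 := by
      have : t ≤ X / a^2 := by
        rw [Nat.le_div_iff_mul_le (by positivity)]
        have e1 : t * a^2 ≤ a * (a * t + b0 a z) := by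
          have : a * (a * t + b0 a z) = t * a^2 + a * b0 a z := by ring
          omega
        omega
      omega
    refine ⟨(z, t), ?_, ?_⟩
    · by_cases hsq : IsSquare (dd a z (e0 v))
      · obtain ⟨he, hsq'⟩ := cb_sq_of_dd h5.hz0 h5.hz (e0_or v) hsq
        have hv3 : v % 4 = 3 := by
          by_contra hcon
          unfold e0 at he
          rw [if_neg hcon] at he
          norm_num at he
        have hA := h6 hsq' hv3
        rw [mem_union]
        right
        rw [hQ, if_pos hA, mem_product, mem_range]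
        refine ⟨?_, hr⟩
        unfold cbSQ
        rw [mem_filter, mem_range]
        exact ⟨h5.hz, h5.hz0, hsq', h5.hc⟩
      · have hGm : (z, t) ∈ G (e0 v) := by
          simp only [hG]
          rw [mem_filter]
          refine ⟨?_, ?_⟩
          · unfold GS
            rw [mem_filter, mem_product, mem_range, mem_range]
            refine ⟨⟨h5.hz, hr⟩, h5.hc, hsq, fun p hp => h5.hbad p ?_⟩
            exact Pool.Agent.H24.KS.prime_of_mem_W hp
          · rw [← hv1]; exact h4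
        rw [mem_union, mem_union]
        left
        rcases e0_or v with h | h
        · left; rw [h] at hGm; exact hGm
        · right; rw [h] at hGm; exact hGm
    · rw [hF]; exact h5.hv.symm
  have hc : ((VB K X A a).card : ℝ) ≤ ((G 1).card : ℝ) + ((G (-1)).card : ℝ) + (Q.card : ℝ) := by
    have e1 := (card_le_card hsub).trans (card_image_le)
    have e2 := card_union_le (G 1 ∪ G (-1)) Q
    have e3 := card_union_le (G 1) (G (-1))
    exact_mod_cast e1.trans (e2.trans (Nat.add_le_add_right e3 _))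
  have hGe : ∀ e : ℤ, ((G e).card : ℝ) ≤ (θ^K)⁻¹ * WS θ M K X a e := by
    intro e
    have hθK : 0 < θ^K := by positivity
    rw [inv_mul_eq_div, le_div_iff₀ hθK]
    calc ((G e).card : ℝ) * θ^K = ∑ u ∈ G e, θ^K := by rw [sum_const, nsmul_eq_mul]
      _ ≤ ∑ u ∈ G e, θ ^ om K (a * (a * u.2 + b0 a u.1)) := by
          refine sum_le_sum fun u hu => ?_
          simp only [hG] at hu
          rw [mem_filter] at hu
          exact pow_le_pow_of_le_one h0.le h1 hu.2
      _ ≤ WS θ M K X a e := by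
          unfold WS
          refine sum_le_sum_of_subset_of_nonneg ?_ fun u _ _ => by positivity
          simp only [hG]
          exact filter_subset _ _
  have hQc : (Q.card : ℝ) =
      (if A < a then ((cbSQ a).card : ℝ) * (((X / a^2 : ℕ) : ℝ) + 1) else 0) := by
    rw [hQ]
    split_ifs
    · rw [card_product, card_range]; push_cast; ring
    · simp
  rw [← hQc, mul_add]
  have g1 := hGe 1
  have g2 := hGe (-1)
  linarith

lemma exc_subset (K X A : ℕ) : exceptionalOrders A X ⊆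
    (((Icc 2 X).filter (fun v => K < om K (v-1)) ∪
      (Icc 2 (Nat.sqrt X)).biUnion (VB K X A) : Finset ℕ) : Set ℕ) := by
  rintro v ⟨hvX, k, l, hk, hkv, hd, hns⟩
  rw [mem_coe, mem_union]
  have hv2 : v ∈ Icc 2 X := by rw [mem_Icc]; omega
  by_cases hom : K < om K (v-1)
  · left
    rw [mem_filter]
    exact ⟨hv2, hom⟩
  · right
    obtain ⟨a, z, t, hrep, hr, -⟩ := exists_rep hk hkv hd
    rw [mem_biUnion]
    refine ⟨a, ?_, ?_⟩
    · rw [mem_Icc]
      refine ⟨hrep.ha, ?_⟩
      rw [Nat.le_sqrt]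
      have e1 := hrep.hb
      have e2 := hrep.hv
      have e3 : a * a ≤ a * (a * t + b0 a z) := Nat.mul_le_mul_left a e1.le
      omega
    · unfold VB
      rw [mem_filter]
      refine ⟨hv2, by omega, z, t, hrep, ?_⟩
      intro hsq hv3
      by_contra hA
      exact hns ⟨hv3, squareRatio_of_rep hrep (by omega) hr hsq⟩

lemma ncard_exc_le (K X A : ℕ) : ((exceptionalOrders A X).ncard : ℝ) ≤
    (((Icc 2 X).filter (fun v => K < om K (v-1))).card : ℝ) +
      ∑ a ∈ Icc 2 (Nat.sqrt X), ((VB K X A a).card : ℝ) := by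
  have h1 := Set.ncard_le_ncard (exc_subset K X A) (Finset.finite_toSet _)
  rw [Set.ncard_coe_finset] at h1
  have h2 := h1.trans ((card_union_le _ _).trans (Nat.add_le_add_left card_biUnion_le _))
  exact_mod_cast h2

lemma cb_theta {K : ℕ} : ((1 / (2 * Real.log 2))^K)⁻¹ *
    Real.exp (-2 * (1 - 1 / (2 * Real.log 2)) * K * Real.log 2) = Real.exp (-dl * K) := by
  have hl0 : 0 < Real.log 2 := Real.log_pos (by norm_num)
  have h1 : ((1 / (2 * Real.log 2))^K)⁻¹ =
      Real.exp ((Real.log 2 + Real.log (Real.log 2)) * K) := by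
    rw [one_div, inv_pow, inv_inv, mul_comm _ (K:ℝ), Real.exp_nat_mul, Real.exp_add,
      Real.exp_log (by norm_num), Real.exp_log hl0]
  rw [h1, ← Real.exp_add]
  congr 1
  unfold dl
  field_simp
  ring

lemma cb_dl : dl ≤ 2 * Real.log 2 := by
  have h1 := Real.log_two_gt_d9
  have h2 := Real.one_sub_inv_le_log_of_pos (show 0 < Real.log 2 by linarith)
  have h3 : (Real.log 2)⁻¹ ≤ 2 := by
    rw [inv_le_comm₀ (by linarith) (by norm_num)]
    linarith
  unfold dl
  linarith

theorem cardB : ∃ C : ℝ, 0 < C ∧ ∀ K X A : ℕ, 2000 ≤ K → bb (K+6) ≤ X → X < bb (K+7) → 1 ≤ A →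
    ((exceptionalOrders A X).ncard : ℝ) ≤ C * X / A + C * X * Real.exp (-dl * K) := by
  have hl0 : 0 < Real.log 2 := Real.log_pos (by norm_num)
  have hl1 := Real.log_two_lt_d9
  have hl2 := Real.log_two_gt_d9
  set θ : ℝ := 1 / (2 * Real.log 2) with hθ
  have hθ1 : 1/2 < θ := by
    rw [hθ, div_lt_div_iff₀ (by norm_num) (by linarith)]
    linarith
  have hθ2 : θ ≤ 1 := by
    rw [hθ, div_le_iff₀ (by linarith)]
    linarith
  have hθ0 : 0 < θ := by linarith
  obtain ⟨C0, hC0, hO⟩ := omlarge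
  obtain ⟨C1, hC1, hT⟩ := totalW θ hθ1 hθ2
  obtain ⟨C2, hC2, hS⟩ := sqcount
  obtain ⟨C3, hC3, hN⟩ := nsqsum
  refine ⟨C0 + 2 * C1 + C2 + C3, by positivity, ?_⟩
  intro K X A hK hX1 hX2 hA
  have hX0 : 1 ≤ X := (bb_pos _).trans_le hX1
  have hT1 := hT K X 1 hK hX1 hX2 (Or.inl rfl)
  have hTm := hT K X (-1) hK hX1 hX2 (Or.inr rfl)
  have hS1 := hS A X hA hX0
  have hN1 := hN K X hK hX1 hX2
  have hO1 := hO K X hK hX1
  set c : ℝ := (θ^K)⁻¹ with hc
  have hc0 : 0 < c := by positivity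
  have hcE : c * Real.exp (-2 * (1 - θ) * K * Real.log 2) = Real.exp (-dl * K) := cb_theta
  have hexp2 : Real.exp (-2 * K * Real.log 2) ≤ Real.exp (-dl * K) := by
    apply Real.exp_le_exp.mpr
    have h2 : (0:ℝ) ≤ K := by positivity
    have h3 := mul_le_mul_of_nonneg_left cb_dl h2
    linarith
  have hN2 : ∑ a ∈ (Ico (bb K) (bb (K+6))).filter (fun a => ¬ NSq K a), ((X / a : ℕ) : ℝ) ≤
      C3 * X * Real.exp (-dl * K) :=
    hN1.trans (mul_le_mul_of_nonneg_left hexp2 (by positivity))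
  -- the square root of X
  have hsq : Nat.sqrt X < bb (K+6) := by
    rw [Nat.sqrt_lt]
    have : bb (K+7) = bb (K+6) * bb (K+6) := by
      rw [show K + 7 = (K+6) + 1 from rfl, bb_succ, sq]
    omega
  -- bound of each Ta
  set f : ℕ → ℝ := fun a => if a < bb K then WS θ K K X a 1 + WS θ K K X a (-1) else
    if a ^ 2 ≤ X ∧ NSq K a then WS θ (K-10) K X a 1 + WS θ (K-10) K X a (-1) else 0 with hf
  set g : ℕ → ℝ := fun a => if bb K ≤ a ∧ ¬ NSq K a then ((X / a : ℕ) : ℝ) else 0 with hg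
  set h : ℕ → ℝ := fun a => if A < a then ((cbSQ a).card : ℝ) * (((X / a^2 : ℕ) : ℝ) + 1) else 0
    with hh
  have hh0 : ∀ a, 0 ≤ h a := by
    intro a
    simp only [hh]
    split_ifs
    · positivity
    · exact le_rfl
  have hTa : ∀ a ∈ Icc 2 (Nat.sqrt X), ((VB K X A a).card : ℝ) ≤ c * f a + g a + h a := by
    intro a ha
    rw [mem_Icc] at ha
    have ha2 : a ^ 2 ≤ X := by
      have := Nat.le_sqrt.mp ha.2
      rw [sq]; exact this
    have hh0a := hh0 a
    by_cases hK1 : a < bb K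
    · have h1 := VB_le θ hθ0 hθ2 K K X A a ha.1
      have hfa : f a = WS θ K K X a 1 + WS θ K K X a (-1) := if_pos hK1
      have hga : g a = 0 := if_neg (by rintro ⟨h3, -⟩; omega)
      rw [hfa, hga, add_zero]
      exact h1
    · by_cases hns : NSq K a
      · have h1 := VB_le θ hθ0 hθ2 (K-10) K X A a ha.1
        have hfa : f a = WS θ (K-10) K X a 1 + WS θ (K-10) K X a (-1) := by
          simp only [hf]; rw [if_neg hK1, if_pos ⟨ha2, hns⟩]
        have hga : g a = 0 := if_neg (by rintro ⟨-, h3⟩; exact h3 hns)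
        rw [hfa, hga, add_zero]
        exact h1
      · have h1 : ((VB K X A a).card : ℝ) ≤ ((X / a : ℕ) : ℝ) := by
          exact_mod_cast VB_trivial K X A a ha.1
        have hfa : f a = 0 := by
          simp only [hf]; rw [if_neg hK1, if_neg (by rintro ⟨-, h3⟩; exact hns h3)]
        have hga : g a = ((X / a : ℕ) : ℝ) := if_pos ⟨by omega, hns⟩
        rw [hfa, hga, mul_zero, zero_add]
        linarith
  have hsum := sum_le_sum hTa
  rw [sum_add_distrib, sum_add_distrib, ← mul_sum] at hsum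
  -- the sum of f
  have hsub : Icc 2 (Nat.sqrt X) ⊆ Ico 2 (bb K) ∪ (Ico (bb K) (bb (K+6))) := by
    intro a ha
    rw [mem_Icc] at ha
    rw [mem_union, mem_Ico, mem_Ico]
    rcases Nat.lt_or_ge a (bb K) with h | h
    · left; omega
    · right; omega
  have hWS0 : ∀ M a e, 0 ≤ WS θ M K X a e := by
    intro M a e
    unfold WS
    exact sum_nonneg fun _ _ => by positivity
  have hf0 : ∀ a, 0 ≤ f a := by
    intro a
    simp only [hf]
    split_ifs
    · exact add_nonneg (hWS0 _ _ _) (hWS0 _ _ _)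
    · exact add_nonneg (hWS0 _ _ _) (hWS0 _ _ _)
    · exact le_rfl
  have hg0 : ∀ a, 0 ≤ g a := by
    intro a
    simp only [hg]
    split_ifs
    · positivity
    · exact le_rfl
  have hdisj : Disjoint (Ico 2 (bb K)) (Ico (bb K) (bb (K+6))) := by
    rw [disjoint_left]
    intro a h1 h2
    rw [mem_Ico] at h1 h2
    omega
  have hfsum : ∑ a ∈ Icc 2 (Nat.sqrt X), f a ≤
      2 * C1 * X * Real.exp (-2 * (1 - θ) * K * Real.log 2) := by
    refine (sum_le_sum_of_subset_of_nonneg hsub (fun a _ _ => hf0 a)).trans ?_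
    rw [sum_union hdisj]
    have e1 : ∑ a ∈ Ico 2 (bb K), f a =
        ∑ a ∈ Ico 2 (bb K), WS θ K K X a 1 + ∑ a ∈ Ico 2 (bb K), WS θ K K X a (-1) := by
      rw [← sum_add_distrib]
      refine sum_congr rfl fun a ha => ?_
      rw [mem_Ico] at ha
      exact if_pos ha.2
    have e2 : ∑ a ∈ Ico (bb K) (bb (K+6)), f a =
        ∑ a ∈ (Ico (bb K) (bb (K+6))).filter (fun a => a^2 ≤ X ∧ NSq K a),
          WS θ (K-10) K X a 1 +
        ∑ a ∈ (Ico (bb K) (bb (K+6))).filter (fun a => a^2 ≤ X ∧ NSq K a),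
          WS θ (K-10) K X a (-1) := by
      rw [← sum_add_distrib, sum_filter]
      refine sum_congr rfl fun a ha => ?_
      rw [mem_Ico] at ha
      simp only [hf]
      rw [if_neg (by omega)]
    rw [e1, e2]
    linarith
  have hgsum : ∑ a ∈ Icc 2 (Nat.sqrt X), g a ≤ C3 * X * Real.exp (-dl * K) := by
    refine (sum_le_sum_of_subset_of_nonneg hsub (fun a _ _ => hg0 a)).trans ?_
    rw [sum_union hdisj]
    have e1 : ∑ a ∈ Ico 2 (bb K), g a = 0 := by
      refine sum_eq_zero fun a ha => ?_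
      rw [mem_Ico] at ha
      exact if_neg (by rintro ⟨h3, -⟩; omega)
    have e2 : ∑ a ∈ Ico (bb K) (bb (K+6)), g a =
        ∑ a ∈ (Ico (bb K) (bb (K+6))).filter (fun a => ¬ NSq K a), ((X / a : ℕ) : ℝ) := by
      rw [sum_filter]
      refine sum_congr rfl fun a ha => ?_
      rw [mem_Ico] at ha
      simp only [hg]
      by_cases h : NSq K a
      · rw [if_neg (by rintro ⟨-, h3⟩; exact h3 h), if_neg (by simpa using h)]
      · rw [if_pos ⟨ha.1, h⟩, if_pos h]
    rw [e1, e2, zero_add]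
    exact hN2
  have hssum : ∑ a ∈ Icc 2 (Nat.sqrt X), h a ≤ C2 * X / A := by
    have e1 : ∑ a ∈ Icc 2 (Nat.sqrt X), h a = ∑ a ∈ (Icc 2 (Nat.sqrt X)).filter (fun a => A < a),
        ((cbSQ a).card : ℝ) * (((X / a^2 : ℕ) : ℝ) + 1) := by
      rw [sum_filter]
    rw [e1]
    refine le_trans (sum_le_sum_of_subset_of_nonneg (t := Ioc A (Nat.sqrt X)) ?_ ?_) ?_
    · intro a ha
      rw [mem_filter, mem_Icc] at ha
      rw [mem_Ioc]
      exact ⟨ha.2, ha.1.2⟩
    · intro a _ _
      positivity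
    · refine le_trans (le_of_eq ?_) hS1
      refine sum_congr rfl fun a _ => ?_
      rw [sum_const, nsmul_eq_mul]
      rfl
  have hfc : c * ∑ a ∈ Icc 2 (Nat.sqrt X), f a ≤ 2 * C1 * X * Real.exp (-dl * K) := by
    refine (mul_le_mul_of_nonneg_left hfsum hc0.le).trans (le_of_eq ?_)
    rw [← hcE]; ring
  have hE0 : 0 ≤ (X:ℝ) * Real.exp (-dl * K) := by positivity
  have hA0 : 0 ≤ (X:ℝ) / A := by positivity
  have hmain := ncard_exc_le K X A
  calc ((exceptionalOrders A X).ncard : ℝ)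
      ≤ C0 * X * Real.exp (-dl * K) + (2 * C1 * X * Real.exp (-dl * K) +
        C3 * X * Real.exp (-dl * K) + C2 * X / A) := by linarith
    _ = C2 * (X / A) + (C0 + 2 * C1 + C3) * (X * Real.exp (-dl * K)) := by ring
    _ ≤ (C0 + 2 * C1 + C2 + C3) * (X / A) + (C0 + 2 * C1 + C2 + C3) *
        (X * Real.exp (-dl * K)) := by
        refine add_le_add (mul_le_mul_of_nonneg_right (by linarith) hA0)
          (mul_le_mul_of_nonneg_right (by linarith) hE0)
    _ = _ := by ring

end Pool.Agent.H24.QD
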