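import Mathlib
import Pool.Agent.H24.QD.Df
import Pool.Agent.H12.AlmostLinear

/-!
From the windows `bb (K+6) ≤ X < bb (K+7)` to all `X`.
-/

namespace Pool.Agent.H24.QD

open Finset Classical Filter Topology
open Pool.Agent.H12
open Pool.Agent.H70.SymDes (exceptionalOrders nontrivialOrders)
open Pool.Agent.H95.Gol

/-- the exponent `1 - (1 + log (log 2)) / log 2 = 0.0860...` -/
noncomputable def de : ℝ := 1 - (1 + Real.log (Real.log 2)) / Real.log 2

lemma log_two_pos : 0 < Real.log 2 := Real.log_pos (by norm_num)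

lemma de_mul : de * Real.log 2 = dl := by
  have h := log_two_pos.ne'
  unfold de dl
  field_simp
  ring

lemma dl_pos : 0 < dl := by
  have h2 : (0.6931471803 : ℝ) < Real.log 2 := Real.log_two_gt_d9
  have h3 : Real.log 2 < (0.6931471808 : ℝ) := Real.log_two_lt_d9
  -- log (log 2) < log 2 - 1 by strict concavity
  have h4 : Real.log (Real.log 2) < Real.log 2 - 1 :=
    Real.log_lt_sub_one_of_pos (by linarith) (by linarith)
  unfold dl
  linarith

lemma de_pos : 0 < de := by
  have h := de_mul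
  have h1 := dl_pos
  have h2 := log_two_pos
  by_contra hcon
  push Not at hcon
  nlinarith

lemma de_le_one : de ≤ 1 := by
  have h2 : (0.6931471803 : ℝ) < Real.log 2 := Real.log_two_gt_d9
  have h0 : 0 < Real.log 2 := by linarith
  -- log (log 2) ≥ 1 - 1 / log 2 > -1
  have h4 : 1 - (Real.log 2)⁻¹ ≤ Real.log (Real.log 2) := Real.one_sub_inv_le_log_of_pos h0
  have h5 : (Real.log 2)⁻¹ ≤ 2 := by
    rw [inv_le_comm₀ h0 (by norm_num)]
    linarith
  have h6 : 0 ≤ (1 + Real.log (Real.log 2)) / Real.log 2 := div_nonneg (by linarith) h0.le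
  unfold de
  linarith

/-- every large `X` lies in a window -/
lemma exists_window (X : ℕ) (N0 : ℕ) (h0 : N0 = 2006) (hs : bb N0 ≤ X) :
    ∃ K, 2000 ≤ K ∧ bb (K+6) ≤ X ∧ X < bb (K+7) := by
  have hex : ∃ K, X < bb (K+7) := by
    refine ⟨X, ?_⟩
    have h3 : X < 2^X := Nat.lt_two_pow_self
    have h4 : 2^X ≤ bb X := by
      unfold bb
      exact Nat.pow_le_pow_right (by norm_num) Nat.lt_two_pow_self.le
    have h5 : bb X ≤ bb (X+7) := bb_mono (by omega)
    omega
  set K := Nat.find hex with hK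
  have hfind := Nat.find_spec hex
  have hK2 : 2000 ≤ K := by
    by_contra hcon
    push Not at hcon
    have h6 : bb (K+7) ≤ bb N0 := bb_mono (by omega)
    exact absurd (hfind.trans_le h6) (not_lt.mpr hs)
  refine ⟨K, hK2, ?_, hfind⟩
  have hmin := Nat.find_min hex (m := K - 1) (by omega)
  push Not at hmin
  have : K - 1 + 7 = K + 6 := by omega
  rwa [this] at hmin

lemma log_window {K X : ℕ} (hX : 2 ≤ X) (h : X < bb (K+7)) :
    Real.log X ≤ 2^7 * Real.log 2 * 2^K := by
  have hX2 : (2:ℝ) ≤ X := by exact_mod_cast hX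
  have e1 : Real.log X ≤ Real.log (bb (K+7)) :=
    Real.log_le_log (by linarith) (by exact_mod_cast h.le)
  have e2 : Real.log (bb (K+7)) = 2^(K+7) * Real.log 2 := by
    unfold bb
    push_cast
    rw [Real.log_pow]; push_cast; ring
  rw [e2, pow_add] at e1
  linarith

/-- upper bound for the number of triples -/
theorem triples_of (h : ∃ C : ℝ, 0 < C ∧ ∀ K X : ℕ, 2000 ≤ K → bb (K+6) ≤ X → X < bb (K+7) →
    ((Rea X).card : ℝ) ≤ C * X) :
    ∃ C : ℝ, 0 < C ∧ ∀ X : ℕ, 1 ≤ X → ((designTriples X).ncard : ℝ) ≤ C * X := by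
  obtain ⟨C, hC, h⟩ := h
  obtain ⟨N0, hN0⟩ : ∃ n : ℕ, n = 2006 := ⟨_, rfl⟩
  refine ⟨C + (Rea (bb N0)).card, by positivity, ?_⟩
  intro X hX
  have hX1 : (1:ℝ) ≤ X := by exact_mod_cast hX
  rw [des_eq, Set.ncard_coe_finset]
  rcases lt_or_ge X (bb N0) with hs | hs
  · have h1 : ((Rea X).card : ℝ) ≤ (Rea (bb N0)).card := by
      exact_mod_cast Rea_mono hs.le
    have h2 : ((Rea (bb N0)).card : ℝ) ≤ (Rea (bb N0)).card * X :=
      le_mul_of_one_le_right (Nat.cast_nonneg _) hX1
    have h3 : 0 ≤ C * X := by positivity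
    rw [add_mul]
    linarith
  · obtain ⟨K, hK, h1, h2⟩ := exists_window X N0 hN0 hs
    have h3 := h K X hK h1 h2
    have h4 : 0 ≤ ((Rea (bb N0)).card : ℝ) * X := by positivity
    rw [add_mul]
    linarith

lemma exc_le (A X : ℕ) : (exceptionalOrders A X).ncard ≤ X + 1 := by
  have hsub : exceptionalOrders A X ⊆ ((range (X+1) : Finset ℕ) : Set ℕ) := by
    intro v hv
    rw [mem_coe, mem_range]
    have : v ≤ X := hv.1
    omega
  have := Set.ncard_le_ncard hsub (Finset.finite_toSet _)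
  rw [Set.ncard_coe_finset, card_range] at this
  exact this

/-- upper bound for the number of exceptional orders -/
theorem orders_of (h : ∃ C : ℝ, 0 < C ∧ ∀ K X A : ℕ, 2000 ≤ K → bb (K+6) ≤ X → X < bb (K+7) →
    1 ≤ A → ((exceptionalOrders A X).ncard : ℝ) ≤ C * X / A + C * X * Real.exp (-dl * K)) :
    ∃ C : ℝ, 0 < C ∧ ∀ A X : ℕ, 1 ≤ A → 2 ≤ X →
      ((exceptionalOrders A X).ncard : ℝ) ≤ C * X / A + C * X / Real.log X ^ de := by
  obtain ⟨C, hC, h⟩ := h
  obtain ⟨N0, hN0⟩ : ∃ n : ℕ, n = 2006 := ⟨_, rfl⟩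
  have hl2 := log_two_pos
  have hde := de_pos
  set M : ℝ := Real.log (bb N0) with hM
  have hM0 : 0 < M := by
    apply Real.log_pos
    have h := two_le_bb N0
    exact_mod_cast (show 1 < bb N0 by omega)
  set B : ℝ := (2^7 * Real.log 2) ^ de with hB
  have hB0 : 0 < B := Real.rpow_pos_of_pos (by positivity) _
  have hMde : 0 < M ^ de := Real.rpow_pos_of_pos hM0 _
  refine ⟨2 * M ^ de + C * (1 + B), by positivity, ?_⟩
  intro A X hA hX
  have hX2 : (2:ℝ) ≤ X := by exact_mod_cast hX
  have hA1 : (1:ℝ) ≤ A := by exact_mod_cast hA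
  have hlogX : 0 < Real.log X := Real.log_pos (by linarith)
  have hlde : 0 < Real.log X ^ de := Real.rpow_pos_of_pos hlogX _
  rcases lt_or_ge X (bb N0) with hs | hs
  · have h1 : ((exceptionalOrders A X).ncard : ℝ) ≤ X + 1 := by exact_mod_cast exc_le A X
    have h2 : Real.log X ≤ M := Real.log_le_log (by linarith) (by exact_mod_cast hs.le)
    have h3 : Real.log X ^ de ≤ M ^ de := Real.rpow_le_rpow hlogX.le h2 hde.le
    have h4 : (2:ℝ) * X ≤ (2 * M ^ de + C * (1 + B)) * X / Real.log X ^ de := by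
      rw [le_div_iff₀ hlde]
      have h5 : (2:ℝ) * X * Real.log X ^ de ≤ 2 * X * M ^ de :=
        mul_le_mul_of_nonneg_left h3 (by positivity)
      have h6 : 0 ≤ C * (1 + B) * X := by positivity
      nlinarith
    have h5 : 0 ≤ (2 * M ^ de + C * (1 + B)) * X / A := by positivity
    linarith
  · obtain ⟨K, hK, h1, h2⟩ := exists_window X N0 hN0 hs
    have h3 := h K X A hK h1 h2 hA
    have h4 := log_window hX h2
    have h5 : Real.log X ^ de ≤ B * Real.exp (dl * K) := by
      calc Real.log X ^ de ≤ (2^7 * Real.log 2 * 2^K) ^ de :=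
            Real.rpow_le_rpow hlogX.le h4 hde.le
        _ = B * Real.exp (dl * K) := by
          rw [Real.mul_rpow (by positivity) (by positivity), hB]
          congr 1
          rw [← de_mul, Real.rpow_def_of_pos (by positivity), Real.log_pow]
          congr 1
          ring
    have h6 : X * Real.exp (-dl * K) ≤ B * (X / Real.log X ^ de) := by
      have e1 : Real.exp (-dl * K) = (Real.exp (dl * K))⁻¹ := by
        rw [← Real.exp_neg]; congr 1; ring
      have e2 : (X:ℝ) / Real.log X ^ de ≥ X / (B * Real.exp (dl * K)) :=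
        div_le_div_of_nonneg_left (by positivity) hlde h5
      rw [e1]
      have e3 : X / (B * Real.exp (dl * K)) * B = X * (Real.exp (dl * K))⁻¹ := by
        have := (Real.exp_pos (dl * K)).ne'
        field_simp
      have e4 := mul_le_mul_of_nonneg_right e2 hB0.le
      rw [e3] at e4
      linarith
    have h7 : C * X / A ≤ (2 * M ^ de + C * (1 + B)) * X / A := by
      apply div_le_div_of_nonneg_right _ (by linarith)
      apply mul_le_mul_of_nonneg_right _ (by linarith)
      nlinarith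
    have h8 : C * X * Real.exp (-dl * K) ≤
        (2 * M ^ de + C * (1 + B)) * X / Real.log X ^ de := by
      have e1 := mul_le_mul_of_nonneg_left h6 hC.le
      have e2 : 0 ≤ (X:ℝ) / Real.log X ^ de := by positivity
      have e3 : (2 * M ^ de + C * (1 + B)) * X / Real.log X ^ de =
          (2 * M ^ de + C) * (X / Real.log X ^ de) + C * (B * (X / Real.log X ^ de)) := by
        ring
      have e4 : 0 ≤ (2 * M ^ de + C) * (X / Real.log X ^ de) := by positivity
      rw [e3]
      linarith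
    linarith

lemma nontrivial_sub (A X : ℕ) : nontrivialOrders X ⊆ exceptionalOrders A X := by
  rintro v ⟨hv, h4, k, l, h1, h2, h3⟩
  exact ⟨hv, k, l, h1, h2, h3, fun h => h4 h.1⟩

lemma exceptional_finite (A X : ℕ) : (exceptionalOrders A X).Finite :=
  (Set.finite_Iic X).subset fun _ hv => hv.1

/-- the orders not congruent to `3` mod `4` -/
theorem nontrivial_of (h : ∃ C : ℝ, 0 < C ∧ ∀ A X : ℕ, 1 ≤ A → 2 ≤ X →
      ((exceptionalOrders A X).ncard : ℝ) ≤ C * X / A + C * X / Real.log X ^ de) :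
    ∃ C : ℝ, 0 < C ∧ ∀ X : ℕ, 2 ≤ X →
      ((nontrivialOrders X).ncard : ℝ) ≤ C * X / Real.log X ^ de := by
  obtain ⟨C, hC, h⟩ := h
  refine ⟨2 * C, by positivity, ?_⟩
  intro X hX
  have hX2 : (2:ℝ) ≤ X := by exact_mod_cast hX
  have hlogX : 0 < Real.log X := Real.log_pos (by linarith)
  have hlde : 0 < Real.log X ^ de := Real.rpow_pos_of_pos hlogX _
  have h1 := h X X (by omega) hX
  have h2 : ((nontrivialOrders X).ncard : ℝ) ≤ (exceptionalOrders X X).ncard := by
    exact_mod_cast Set.ncard_le_ncard (nontrivial_sub X X) (exceptional_finite X X)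
  have h3 : Real.log X ^ de ≤ X := by
    have hle : Real.log X ≤ X := by
      have := Real.log_le_sub_one_of_pos (show (0:ℝ) < X by linarith)
      linarith
    rcases le_or_gt 1 (Real.log X) with h4 | h4
    · calc Real.log X ^ de ≤ Real.log X ^ (1:ℝ) := Real.rpow_le_rpow_of_exponent_le h4 de_le_one
        _ = Real.log X := Real.rpow_one _
        _ ≤ X := hle
    · have : Real.log X ^ de ≤ 1 := Real.rpow_le_one hlogX.le h4.le de_pos.le
      linarith
  have h4 : C * X / X ≤ C * X / Real.log X ^ de :=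
    div_le_div_of_nonneg_left (by positivity) hlde h3
  have e : 2 * C * X / Real.log X ^ de = C * X / Real.log X ^ de + C * X / Real.log X ^ de := by
    ring
  rw [e]
  linarith

/-- the four statements on triples -/
theorem all_triples (h : ∃ C : ℝ, 0 < C ∧ ∀ X : ℕ, 1 ≤ X →
      ((designTriples X).ncard : ℝ) ≤ C * X) :
    ∃ C c : ℝ, 0 < C ∧ 0 < c ∧ ∀ X : ℕ, 16 ≤ X →
      (X:ℝ) - 2 ≤ ((designTriples X).ncard : ℝ) ∧
      ((designTriples X).ncard : ℝ) ≤ C * X ∧
      c * (X * Real.log X) ≤ ((admissibleTriples X).ncard : ℝ) := by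
  obtain ⟨C, hC, h⟩ := h
  obtain ⟨_, c, _, hc, h2⟩ := almost_linear.2.2
  exact ⟨C, c, hC, hc, fun X hX => ⟨(h2 X hX).1, h X (by omega), (h2 X hX).2.2.1⟩⟩

end Pool.Agent.H24.QD
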